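import Pool.Agent.N982.MC.Fol
import Pool.Agent.W699.ME.PK2a
import Pool.Agent.Y8.Maj

/-!
Estimates at one time.
-/

set_option autoImplicit false

open MeasureTheory Set Metric Filter Topology
open scoped ContDiff

namespace Pool.Agent.N982.MC

open H459R3.NS W221.NS Pool.Agent.Y8

/-! ### Cauchy-Schwarz -/

lemma int3 {α : Type*} [MeasurableSpace α] {μ : Measure α} {f g h : α → ℝ}
    (hf : Integrable f μ) (hg : Integrable g μ) (hh : Integrable h μ) (a b c : ℝ) :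
    ∫ x, (a * f x + b * g x + c * h x) ∂μ
      = a * (∫ x, f x ∂μ) + b * (∫ x, g x ∂μ) + c * ∫ x, h x ∂μ := by
  have h1 : Integrable (fun x => a * f x) μ := hf.const_mul a
  have h2 : Integrable (fun x => b * g x) μ := hg.const_mul b
  have h3 : Integrable (fun x => c * h x) μ := hh.const_mul c
  have h4 : Integrable (fun x => a * f x + b * g x) μ := h1.add h2
  rw [integral_add h4 h3, integral_add h1 h2, integral_const_mul, integral_const_mul,
    integral_const_mul]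

lemma cs_gen {α : Type*} [MeasurableSpace α] {μ : Measure α} {f g : α → ℝ}
    (hf : Integrable (fun x => f x ^ 2) μ) (hg : Integrable (fun x => g x ^ 2) μ)
    (hfg : Integrable (fun x => f x * g x) μ) :
    (∫ x, f x * g x ∂μ) ^ 2 ≤ (∫ x, f x ^ 2 ∂μ) * ∫ x, g x ^ 2 ∂μ := by
  have h : ∀ l : ℝ, 0 ≤ (∫ x, g x ^ 2 ∂μ) * (l * l) + (-2 * ∫ x, f x * g x ∂μ) * l
      + ∫ x, f x ^ 2 ∂μ := by
    intro l
    have h1 : 0 ≤ ∫ x, (f x - l * g x) ^ 2 ∂μ := integral_nonneg fun x => sq_nonneg _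
    have e : ∀ x, (f x - l * g x) ^ 2
        = l ^ 2 * g x ^ 2 + (-(2 * l)) * (f x * g x) + 1 * f x ^ 2 := fun x => by ring
    simp_rw [e] at h1
    rw [int3 hg hfg hf] at h1
    linarith
  have h2 := discrim_le_zero h
  unfold discrim at h2
  nlinarith

lemma l4sq {v : V → V} (hv : ContDiff ℝ ∞ v) (a : V) (r : ℝ) :
    L4 a r v ^ 2 ≤ A2 a r v * L6 a r v := by
  unfold L4 A2 L6
  have hc := (nsq_sm hv).continuous
  have i1 : IntegrableOn (fun x => nsq v x) (ball a r) := ballint hc a r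
  have i2 : IntegrableOn (fun x => nsq v x ^ 2) (ball a r) := ballint (hc.pow 2) a r
  have i3 : IntegrableOn (fun x => nsq v x ^ 3) (ball a r) := ballint (hc.pow 3) a r
  have h : ∀ l : ℝ, 0 ≤ (∫ x in ball a r, nsq v x) * (l * l)
      + (-2 * ∫ x in ball a r, nsq v x ^ 2) * l + ∫ x in ball a r, nsq v x ^ 3 := by
    intro l
    have h1 : 0 ≤ ∫ x in ball a r, nsq v x * (nsq v x - l) ^ 2 :=
      integral_nonneg fun x => mul_nonneg (nsq_nn v x) (sq_nonneg _)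
    have e : ∀ x, nsq v x * (nsq v x - l) ^ 2
        = l ^ 2 * nsq v x + (-(2 * l)) * nsq v x ^ 2 + 1 * nsq v x ^ 3 := fun x => by ring
    simp_rw [e] at h1
    rw [int3 i1 i2 i3] at h1
    linarith
  have h2 := discrim_le_zero h
  unfold discrim at h2
  nlinarith

lemma A2_nn (a : V) (r : ℝ) (v : V → V) : 0 ≤ A2 a r v := integral_nonneg fun _ => nsq_nn _ _

lemma B2_nn (a : V) (r : ℝ) (v : V → V) : 0 ≤ B2 a r v := integral_nonneg fun _ => gsq_nn _ _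

lemma L4_nn (a : V) (r : ℝ) (v : V → V) : 0 ≤ L4 a r v := integral_nonneg fun _ => sq_nonneg _

lemma A2_mn {v : V → V} (hv : ContDiff ℝ ∞ v) {a b : V} {r s : ℝ} (h : ball a r ⊆ ball b s) :
    A2 a r v ≤ A2 b s v :=
  setIntegral_mono_set (ballint (nsq_sm hv).continuous _ _) (ae_of_all _ fun _ => nsq_nn _ _)
    h.eventuallyLE

lemma B2_mn {v : V → V} (hv : ContDiff ℝ ∞ v) {a b : V} {r s : ℝ} (h : ball a r ⊆ ball b s) :
    B2 a r v ≤ B2 b s v :=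
  setIntegral_mono_set (ballint (gsq_sm hv).continuous _ _) (ae_of_all _ fun _ => gsq_nn _ _)
    h.eventuallyLE

lemma L4_mn {v : V → V} (hv : ContDiff ℝ ∞ v) {a b : V} {r s : ℝ} (h : ball a r ⊆ ball b s) :
    L4 a r v ≤ L4 b s v :=
  setIntegral_mono_set (ballint ((nsq_sm hv).continuous.pow 2) _ _)
    (ae_of_all _ fun _ => sq_nonneg _) h.eventuallyLE

/-- The `L⁴` bound. -/
lemma L4_bd (hS : S_SOB) : ∃ C : ℝ, 0 < C ∧ ∀ v : V → V, ContDiff ℝ ∞ v → ∀ (a : V) (ρ : ℝ),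
    0 < ρ → L4 a (ρ / 2) v ^ 2
      ≤ C * A2 a ρ v * (B2 a ρ v + (ρ ^ 2)⁻¹ * A2 a ρ v) ^ 3 := by
  obtain ⟨C, hC, h⟩ := hS
  refine ⟨64 * C, by positivity, fun v hv a ρ hρ => ?_⟩
  have h1 := h v hv a (ρ / 2) (by positivity)
  have e : 2 * (ρ / 2) = ρ := by ring
  rw [e] at h1
  have hA := A2_nn a ρ v
  have hB := B2_nn a ρ v
  have h2 : L6 a (ρ / 2) v ≤ 64 * C * (B2 a ρ v + (ρ ^ 2)⁻¹ * A2 a ρ v) ^ 3 := by
    refine h1.trans ?_
    have h3 : B2 a ρ v + ((ρ / 2) ^ 2)⁻¹ * A2 a ρ v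
        ≤ 4 * (B2 a ρ v + (ρ ^ 2)⁻¹ * A2 a ρ v) := by
      have e2 : ((ρ / 2) ^ 2)⁻¹ = 4 * (ρ ^ 2)⁻¹ := by field_simp; norm_num
      rw [e2]
      nlinarith
    have h4 : 0 ≤ B2 a ρ v + ((ρ / 2) ^ 2)⁻¹ * A2 a ρ v := by positivity
    have h5 := pow_le_pow_left₀ h4 h3 3
    have h6 := mul_le_mul_of_nonneg_left h5 hC.le
    refine h6.trans (le_of_eq ?_)
    ring
  refine (l4sq hv a (ρ / 2)).trans ?_
  have h7 : A2 a (ρ / 2) v ≤ A2 a ρ v := A2_mn hv (ball_subset_ball (by linarith))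
  have h8 : 0 ≤ L6 a (ρ / 2) v := integral_nonneg fun _ => pow_nonneg (nsq_nn _ _) 3
  calc A2 a (ρ / 2) v * L6 a (ρ / 2) v
      ≤ A2 a ρ v * (64 * C * (B2 a ρ v + (ρ ^ 2)⁻¹ * A2 a ρ v) ^ 3) :=
        mul_le_mul h7 h2 h8 hA
    _ = _ := by ring

/-! ### The pressure -/

/-- The mean of `q` over the ball (a cube). -/
noncomputable def pav (q : V → ℝ) (a : V) (r : ℝ) : ℝ := (8 * r ^ 3)⁻¹ * ∫ x in ball a r, q x

/-- The oscillation of `q`. -/
noncomputable def Pi2 (q : V → ℝ) (a : V) (r : ℝ) : ℝ := ∫ x in ball a r, (q x - pav q a r) ^ 2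

lemma Pi2_nn (q : V → ℝ) (a : V) (r : ℝ) : 0 ≤ Pi2 q a r := integral_nonneg fun _ => sq_nonneg _

lemma Pi2_le {q : V → ℝ} (hq : Continuous q) {a : V} {r : ℝ} (hr : 0 < r) (c : ℝ) :
    Pi2 q a r ≤ ∫ x in ball a r, (q x - c) ^ 2 := by
  unfold Pi2
  obtain ⟨m, hm⟩ : ∃ m, m = pav q a r := ⟨_, rfl⟩
  rw [← hm]
  have hm2 : ∫ x in ball a r, q x = 8 * r ^ 3 * m := by
    rw [hm]
    unfold pav
    rw [← mul_assoc, mul_inv_cancel₀ (by positivity), one_mul]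
  have e : ∀ x, (q x - c) ^ 2
      = 1 * (q x - m) ^ 2 + 2 * (m - c) * q x + (c ^ 2 - m ^ 2) * 1 := fun x => by ring
  simp_rw [e]
  have i1 : IntegrableOn (fun x => (q x - m) ^ 2) (ball a r) :=
    ballint ((hq.sub continuous_const).pow 2) a r
  have i2 : IntegrableOn (fun x => q x) (ball a r) := ballint hq a r
  have i3 : IntegrableOn (fun _ : V => (1 : ℝ)) (ball a r) := ballint continuous_const a r
  rw [int3 i1 i2 i3, hm2, Pool.Agent.W699.ME.int_const_ball a hr]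
  have h1 : 0 ≤ 8 * r ^ 3 * (m - c) ^ 2 := by positivity
  nlinarith

lemma lap_diff {q P : V → ℝ} (hq : ContDiff ℝ ∞ q) (hP : ContDiff ℝ ∞ P) (m : ℝ) (x : V) :
    lap (fun y => q y - m - P y) x = lap q x - lap P x := by
  unfold lap
  rw [← Finset.sum_sub_distrib]
  refine Finset.sum_congr rfl fun j _ => ?_
  have e : pd j (fun y => q y - m - P y) = fun y => pd j q y - pd j P y := by
    funext y
    rw [Pool.Agent.W240.ME.pd_sub (f := fun y => q y - m) (hq.sub contDiff_const) hP,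
      Pool.Agent.W240.ME.pd_sub (g := fun _ => m) hq contDiff_const,
      Pool.Agent.W240.ME.pd_const, sub_zero]
  rw [e, Pool.Agent.W240.ME.pd_sub (Pool.Agent.W240.ME.cd_pd hq j)
    (Pool.Agent.W240.ME.cd_pd hP j)]

/-- Decay of the oscillation of the pressure. -/
lemma press_bd (hR : S_RIESZ) (hH : S_HARM) : ∃ C : ℝ, 0 < C ∧ ∀ (v : V → V) (q : V → ℝ),
    ContDiff ℝ ∞ v → ContDiff ℝ ∞ q → ∀ (a : V) (ρ : ℝ), 0 < ρ →
      (∀ x ∈ ball a ρ, -lap q x = ddq v x) → ∀ σ : ℝ, 0 < σ → σ ≤ 1 / 8 →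
        Pi2 q a (σ * ρ) ≤ C * (σ ^ 5 * Pi2 q a ρ + L4 a (ρ / 2) v) := by
  obtain ⟨C₁, hC₁, hR⟩ := hR
  obtain ⟨C₂, hC₂, hH⟩ := hH
  refine ⟨294912 * C₂ + 294912 * C₂ * C₁ + 2 * C₁, by positivity, ?_⟩
  intro v q hv hq a ρ hρ heq σ hσ hσ1
  obtain ⟨P, hP, hPe, hPn⟩ := hR v hv a (ρ / 2) (by positivity)
  obtain ⟨m, hm⟩ : ∃ m, m = pav q a ρ := ⟨_, rfl⟩
  obtain ⟨g, hg⟩ : ∃ g : V → ℝ, g = fun y => q y - m - P y := ⟨_, rfl⟩
  have hgs : ContDiff ℝ ∞ g := by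
    rw [hg]
    exact (hq.sub contDiff_const).sub hP
  have hL := L4_nn a (ρ / 2) v
  have hPi := Pi2_nn q a ρ
  have hg0 : ∀ x ∈ ball a (ρ / 4), lap g x = 0 := by
    intro x hx
    rw [hg, lap_diff hq hP]
    have h1 := heq x (ball_subset_ball (by linarith) hx)
    have h2 := hPe x (by
      have e : ρ / 2 / 2 = ρ / 4 := by ring
      rw [e]
      exact hx)
    linarith
  have hqc := hq.continuous
  have hPc := hP.continuous
  have hgc := hgs.continuous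
  have hg2 : ∫ x in ball a (ρ / 4), g x ^ 2 ≤ 2 * Pi2 q a ρ + 2 * (C₁ * L4 a (ρ / 2) v) := by
    have h1 : ∫ x in ball a (ρ / 4), g x ^ 2
        ≤ ∫ x in ball a (ρ / 4), (2 * (q x - m) ^ 2 + 2 * P x ^ 2) := by
      refine setIntegral_mono (ballint (hgc.pow 2) _ _) (ballint (by fun_prop) _ _) fun x => ?_
      rw [hg]
      show (q x - m - P x) ^ 2 ≤ 2 * (q x - m) ^ 2 + 2 * P x ^ 2
      nlinarith [sq_nonneg (q x - m + P x)]
    have h2 : ∫ x in ball a (ρ / 4), (2 * (q x - m) ^ 2 + 2 * P x ^ 2)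
        = 2 * (∫ x in ball a (ρ / 4), (q x - m) ^ 2) + 2 * ∫ x in ball a (ρ / 4), P x ^ 2 := by
      rw [integral_add (ballint (by fun_prop) _ _) (ballint (by fun_prop) _ _),
        integral_const_mul, integral_const_mul]
    have h3 : ∫ x in ball a (ρ / 4), (q x - m) ^ 2 ≤ Pi2 q a ρ := by
      unfold Pi2
      rw [← hm]
      exact setIntegral_mono_set (ballint (by fun_prop) _ _) (ae_of_all _ fun _ => sq_nonneg _)
        (ball_subset_ball (by linarith)).eventuallyLE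
    have h4 : ∫ x in ball a (ρ / 4), P x ^ 2 ≤ C₁ * L4 a (ρ / 2) v := by
      refine le_trans ?_ hPn
      exact setIntegral_mono_set (ballint (by fun_prop) _ _) (ae_of_all _ fun _ => sq_nonneg _)
        (ball_subset_ball (by linarith)).eventuallyLE
    linarith
  obtain ⟨S, hS⟩ : ∃ S, S = Pi2 q a ρ + C₁ * L4 a (ρ / 2) v := ⟨_, rfl⟩
  have hS0 : 0 ≤ S := by rw [hS]; positivity
  obtain ⟨B, hB⟩ : ∃ B, B = √(2048 * C₂ * (ρ ^ 5)⁻¹ * S) := ⟨_, rfl⟩
  have hB2 : B ^ 2 = 2048 * C₂ * (ρ ^ 5)⁻¹ * S := by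
    rw [hB]
    exact Real.sq_sqrt (by positivity)
  have hB0 : 0 ≤ B := by rw [hB]; exact Real.sqrt_nonneg _
  have hgrad : ∀ z ∈ ball a (σ * ρ), ∀ j, |pd j g z| ≤ B := by
    intro z hz j
    have hz' : z ∈ ball a (ρ / 4 / 2) := by
      refine ball_subset_ball ?_ hz
      nlinarith
    have h1 := ((hH g hgs a (ρ / 4) (by positivity) hg0 z hz' j)).1
    rw [hB]
    apply Real.abs_le_sqrt
    refine h1.trans ?_
    have e : C₂ * ((ρ / 4) ^ 5)⁻¹ = 1024 * C₂ * (ρ ^ 5)⁻¹ := by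
      field_simp
      norm_num
    rw [e]
    calc 1024 * C₂ * (ρ ^ 5)⁻¹ * ∫ x in ball a (ρ / 4), g x ^ 2
        ≤ 1024 * C₂ * (ρ ^ 5)⁻¹ * (2 * Pi2 q a ρ + 2 * (C₁ * L4 a (ρ / 2) v)) :=
          mul_le_mul_of_nonneg_left hg2 (by positivity)
      _ = 2048 * C₂ * (ρ ^ 5)⁻¹ * S := by rw [hS]; ring
  have hσρ : 0 < σ * ρ := by positivity
  have hosc := Pool.Agent.W699.ME.Dbd hgs hσρ hgrad
  have h5 : Pi2 q a (σ * ρ)
      ≤ ∫ x in ball a (σ * ρ), (2 * (3 * B * (σ * ρ)) ^ 2 + 2 * P x ^ 2) := by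
    refine (Pi2_le hqc hσρ (m + g a)).trans ?_
    refine setIntegral_mono_on (ballint (by fun_prop) _ _) (ballint (by fun_prop) _ _)
      measurableSet_ball fun x hx => ?_
    have h6 := hosc x hx
    have h7 : (g x - g a) ^ 2 ≤ (3 * B * (σ * ρ)) ^ 2 := by
      rw [← sq_abs (g x - g a)]
      exact pow_le_pow_left₀ (abs_nonneg _) h6 2
    have h8 : q x - (m + g a) = (g x - g a) + P x := by
      rw [hg]
      ring
    rw [h8]
    nlinarith [sq_nonneg ((g x - g a) - P x)]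
  have h9 : ∫ x in ball a (σ * ρ), (2 * (3 * B * (σ * ρ)) ^ 2 + 2 * P x ^ 2)
      = 8 * (σ * ρ) ^ 3 * (2 * (3 * B * (σ * ρ)) ^ 2) + 2 * ∫ x in ball a (σ * ρ), P x ^ 2 := by
    have i1 : IntegrableOn (fun _ : V => 2 * (3 * B * (σ * ρ)) ^ 2) (ball a (σ * ρ)) :=
      ballint continuous_const _ _
    have i2 : IntegrableOn (fun x => 2 * P x ^ 2) (ball a (σ * ρ)) :=
      ballint (by fun_prop) _ _
    have e1 : ∫ x in ball a (σ * ρ), 2 * P x ^ 2 = 2 * ∫ x in ball a (σ * ρ), P x ^ 2 :=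
      integral_const_mul _ _
    rw [integral_add i1 i2, Pool.Agent.W699.ME.int_const_ball a hσρ, e1]
  have h10 : ∫ x in ball a (σ * ρ), P x ^ 2 ≤ C₁ * L4 a (ρ / 2) v := by
    refine le_trans ?_ hPn
    exact setIntegral_mono_set (ballint (by fun_prop) _ _) (ae_of_all _ fun _ => sq_nonneg _)
      (ball_subset_ball (by nlinarith)).eventuallyLE
  have h11 : 8 * (σ * ρ) ^ 3 * (2 * (3 * B * (σ * ρ)) ^ 2) = 294912 * C₂ * σ ^ 5 * S := by
    have e1 : 8 * (σ * ρ) ^ 3 * (2 * (3 * B * (σ * ρ)) ^ 2) = 144 * (σ * ρ) ^ 5 * B ^ 2 := by ring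
    have e2 : ρ ^ 5 * (ρ ^ 5)⁻¹ = 1 := mul_inv_cancel₀ (by positivity)
    rw [e1, hB2]
    calc 144 * (σ * ρ) ^ 5 * (2048 * C₂ * (ρ ^ 5)⁻¹ * S)
        = 294912 * C₂ * σ ^ 5 * S * (ρ ^ 5 * (ρ ^ 5)⁻¹) := by ring
      _ = _ := by rw [e2, mul_one]
  rw [h9, h11] at h5
  have h12 : σ ^ 5 ≤ 1 := pow_le_one₀ hσ.le (by linarith)
  rw [hS] at h5
  have h13 : C₂ * C₁ * σ ^ 5 * L4 a (ρ / 2) v ≤ C₂ * C₁ * 1 * L4 a (ρ / 2) v := by
    gcongr
  have h14 : 0 ≤ C₂ * C₁ * (σ ^ 5 * Pi2 q a ρ) := by positivity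
  have h15 : 0 ≤ C₁ * (σ ^ 5 * Pi2 q a ρ) := by positivity
  have h16 : 0 ≤ C₂ * L4 a (ρ / 2) v := by positivity
  nlinarith

/-! ### The flux -/

/-- The negative part of the flux of the energy through the level sets of `ψ`. -/
noncomputable def ngf (ψ : V → ℝ) (v : V → V) (q : V → ℝ) (c : ℝ) (x : V) : ℝ :=
  max 0 (-((nsq v x + 2 * (q x - c)) * fl ψ v x))

/-- The inward flux of the energy in `ball a (r / 2)`. -/
noncomputable def FI (ψ : V → ℝ) (a : V) (r : ℝ) (v : V → V) (q : V → ℝ) : ℝ :=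
  ∫ x in ball a (r / 2), ngf ψ v q (pav q a r) x

/-- The part of the flux `u · ∇ ψ` which carries energy inwards. -/
noncomputable def inw (ψ : V → ℝ) (v : V → V) (q : V → ℝ) (c : ℝ) (x : V) : ℝ :=
  if (nsq v x + 2 * (q x - c)) * fl ψ v x < 0 then fl ψ v x else 0

/-- The square of the `L²` norm of the inward flux of volume in `ball a (r / 2)`. -/
noncomputable def FX (ψ : V → ℝ) (a : V) (r : ℝ) (v : V → V) (q : V → ℝ) : ℝ :=
  ∫ x in ball a (r / 2), inw ψ v q (pav q a r) x ^ 2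

lemma ngf_nn (ψ : V → ℝ) (v : V → V) (q : V → ℝ) (c : ℝ) (x : V) : 0 ≤ ngf ψ v q c x :=
  le_max_left _ _

lemma FI_nn (ψ : V → ℝ) (a : V) (r : ℝ) (v : V → V) (q : V → ℝ) : 0 ≤ FI ψ a r v q :=
  integral_nonneg fun _ => ngf_nn _ _ _ _ _

lemma FX_nn (ψ : V → ℝ) (a : V) (r : ℝ) (v : V → V) (q : V → ℝ) : 0 ≤ FX ψ a r v q :=
  integral_nonneg fun _ => sq_nonneg _

lemma ngf_eq (ψ : V → ℝ) (v : V → V) (q : V → ℝ) (c : ℝ) (x : V) :
    ngf ψ v q c x = |nsq v x + 2 * (q x - c)| * |inw ψ v q c x| := by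
  unfold ngf inw
  split_ifs with h
  · rw [← abs_mul, abs_of_neg h]
    exact max_eq_right (by linarith)
  · rw [abs_zero, mul_zero]
    rw [not_lt] at h
    exact max_eq_left (by linarith)

lemma fl_cont {ψ : V → ℝ} (hψ : ContDiff ℝ ∞ ψ) {v : V → V} (hv : ContDiff ℝ ∞ v) :
    Continuous (fl ψ v) := by
  unfold fl
  exact continuous_finsetSum _ fun i _ =>
    (contDiff_pi.1 hv i).continuous.mul (Pool.Agent.W240.ME.cd_pd hψ i).continuous

lemma ngf_cont {ψ : V → ℝ} (hψ : ContDiff ℝ ∞ ψ) {v : V → V} {q : V → ℝ} (hv : ContDiff ℝ ∞ v)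
    (hq : ContDiff ℝ ∞ q) (c : ℝ) : Continuous (ngf ψ v q c) := by
  unfold ngf
  have hf := fl_cont hψ hv
  have hn := (nsq_sm hv).continuous
  have hqc := hq.continuous
  fun_prop

lemma inw_meas {ψ : V → ℝ} (hψ : ContDiff ℝ ∞ ψ) {v : V → V} {q : V → ℝ} (hv : ContDiff ℝ ∞ v)
    (hq : ContDiff ℝ ∞ q) (c : ℝ) : Measurable (inw ψ v q c) := by
  unfold inw
  have hf := fl_cont hψ hv
  have hn := (nsq_sm hv).continuous
  have hqc := hq.continuous
  refine Measurable.ite ?_ hf.measurable measurable_const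
  exact (isOpen_lt (by fun_prop) continuous_const).measurableSet

lemma inw_abs_le (ψ : V → ℝ) (v : V → V) (q : V → ℝ) (c : ℝ) (x : V) :
    |inw ψ v q c x| ≤ |fl ψ v x| := by
  unfold inw
  split_ifs
  · exact le_rfl
  · rw [abs_zero]
    exact abs_nonneg _

lemma inw_int {ψ : V → ℝ} (hψ : ContDiff ℝ ∞ ψ) {v : V → V} {q : V → ℝ} (hv : ContDiff ℝ ∞ v)
    (hq : ContDiff ℝ ∞ q) (c : ℝ) (a : V) (r : ℝ) :
    IntegrableOn (fun x => inw ψ v q c x ^ 2) (ball a r) := by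
  refine Integrable.mono' (ballint (f := fun x => fl ψ v x ^ 2) ((fl_cont hψ hv).pow 2) a r)
    ((inw_meas hψ hv hq c).pow_const 2).aestronglyMeasurable (ae_of_all _ fun x => ?_)
  rw [Real.norm_eq_abs, abs_pow, ← sq_abs (fl ψ v x)]
  exact pow_le_pow_left₀ (abs_nonneg _) (inw_abs_le ψ v q c x) 2

/-- The bound of the flux term by the inward flux. -/
lemma flux_in {κ μ : ℝ} (hκ : 0 < κ) (hκ1 : κ ≤ 3) (hμ : 0 < μ) {σ : ℝ} (hσ0 : 0 < σ)
    (hσ : σ ^ 2 ≤ 1 / 32) : ∃ C : ℝ, 0 < C ∧ ∀ (ψ : ℝ → V → ℝ) (v : V → V) (q : V → ℝ),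
      ContDiff ℝ ∞ v → ContDiff ℝ ∞ q → ∀ (a : V) (ρ t₀ t c : ℝ), Fol κ μ c ρ t₀ a ψ → 0 < ρ →
        c ^ 2 ≤ μ / 64 → t ∈ Ioo (t₀ - ρ ^ 2) t₀ → (∀ x ∈ ball a ρ, dv v x = 0) →
          ∫ x, (nsq v x + 2 * q x) * adv v (Ph (1 + κ) (μ / 64) σ ρ t₀ ψ t) x
            ≤ C / ρ ^ 2 * FI (ψ t) a ρ v q := by
  obtain ⟨C, hC, hgr⟩ := Ph_grad hμ hκ hκ1 hσ0 hσ
  refine ⟨C, hC, ?_⟩
  intro ψ v q hv hq a ρ t₀ t c hF hρ hc htt hdiv
  have hρ2 : 0 < ρ ^ 2 := by positivity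
  have hσ2 : 0 < σ ^ 2 * ρ ^ 2 := by positivity
  have hψ := hF.sm t
  obtain ⟨m, hm⟩ : ∃ m, m = pav q a ρ := ⟨_, rfl⟩
  obtain ⟨Φ, hΦ⟩ : ∃ Φ, Φ = Ph (1 + κ) (μ / 64) σ ρ t₀ ψ t := ⟨_, rfl⟩
  have hΦs : ContDiff ℝ ∞ Φ := by
    rw [hΦ]
    exact sl_sm (Ph_smooth (α := 1 + κ) (w := μ / 64) (σ := σ) (t₀ := t₀) hF.smooth hρ)
      (show t ∈ Iio (t₀ + 2 * σ ^ 2 * ρ ^ 2) by
        rw [mem_Iio]
        linarith [htt.2])
  have hΦ0 : ∀ x ∉ ball a (ρ / 4), Φ x = 0 := by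
    intro x hx
    rw [hΦ]
    exact Ph_out hF hμ hρ hc htt hx
  have hcs : HasCompactSupport Φ := HasCompactSupport.intro (isCompact_closedBall a (ρ / 4))
    fun x hx => hΦ0 x fun h => hx (ball_subset_closedBall h)
  have hsub : ball a (ρ / 4) ⊆ ball a (ρ / 2) := ball_subset_ball (by linarith)
  have hadv0 : ∀ x ∉ ball a (ρ / 4), adv v Φ x = 0 := by
    intro x hx
    rw [hΦ, Ph_adv hψ]
    have h1 := (hgr ψ ρ t₀ t c a x hF hρ hc htt).2.2 hx
    rw [h1]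
    ring
  have hnc := (nsq_sm hv).continuous
  have hqc := hq.continuous
  have hadvc : Continuous (adv v Φ) := by
    unfold adv
    exact continuous_finsetSum _ fun i _ =>
      (contDiff_pi.1 hv i).continuous.mul (Pool.Agent.W240.ME.cd_pd hΦs i).continuous
  have hacs : HasCompactSupport (adv v Φ) :=
    HasCompactSupport.intro (isCompact_closedBall a (ρ / 4))
      fun x hx => hadv0 x fun h => hx (ball_subset_closedBall h)
  -- subtract the mean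
  have hz : ∫ x, adv v Φ x = 0 := by
    have h1 := Pool.Agent.W699.ME.ibp2 hv (f := fun _ => 1) contDiff_const hΦs hcs (by
      intro x hx
      refine hdiv x ?_
      by_contra hc
      exact hx (hΦ0 x fun h => hc (ball_subset_ball (by linarith) h)))
    have h2 : ∀ x, adv v (fun _ => (1 : ℝ)) x = 0 := by
      intro x
      unfold adv
      refine Finset.sum_eq_zero fun j _ => ?_
      rw [Pool.Agent.W240.ME.pd_const, mul_zero]
    simp only [one_mul, h2, mul_zero, integral_zero, neg_zero] at h1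
    exact h1
  have e1 : ∫ x, (nsq v x + 2 * q x) * adv v Φ x
      = ∫ x, (nsq v x + 2 * (q x - m)) * adv v Φ x := by
    have i1 : Integrable (fun x => (nsq v x + 2 * (q x - m)) * adv v Φ x) :=
      (Continuous.mul (by fun_prop) hadvc).integrable_of_hasCompactSupport hacs.mul_left
    have i2 : Integrable (fun x => 2 * m * adv v Φ x) :=
      (hadvc.integrable_of_hasCompactSupport hacs).const_mul _
    have e2 : ∀ x, (nsq v x + 2 * q x) * adv v Φ x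
        = (nsq v x + 2 * (q x - m)) * adv v Φ x + 2 * m * adv v Φ x := fun x => by ring
    simp_rw [e2]
    rw [integral_add i1 i2, integral_const_mul, hz, mul_zero, add_zero]
  have e3 : ∫ x, (nsq v x + 2 * (q x - m)) * adv v Φ x
      = ∫ x in ball a (ρ / 2), (nsq v x + 2 * (q x - m)) * adv v Φ x := by
    symm
    refine setIntegral_eq_integral_of_forall_compl_eq_zero fun x hx => ?_
    rw [hadv0 x fun h => hx (hsub h), mul_zero]
  rw [← hΦ, e1, e3]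
  unfold FI
  rw [← hm, ← integral_const_mul]
  refine setIntegral_mono_on (ballint (Continuous.mul (by fun_prop) hadvc) _ _)
    (ballint (continuous_const.mul (ngf_cont hψ hv hq m)) _ _) measurableSet_ball fun x hx => ?_
  obtain ⟨g1, g2, -⟩ := hgr ψ ρ t₀ t c a x hF hρ hc htt
  have g1 := g1 (ball_subset_ball (by linarith) hx)
  rw [hΦ, Ph_adv hψ]
  unfold ngf
  obtain ⟨F, hFd⟩ : ∃ F, F = Fq (1 + κ) (μ / 64) σ ((t - t₀) / ρ ^ 2)
    (ψ t x / ρ ^ 2) := ⟨_, rfl⟩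
  rw [← hFd] at g1 g2 ⊢
  obtain ⟨H, hH⟩ : ∃ H, H = nsq v x + 2 * (q x - m) := ⟨_, rfl⟩
  obtain ⟨f, hf⟩ : ∃ f, f = fl (ψ t) v x := ⟨_, rfl⟩
  have e4 : H * (1 / ρ ^ 2 * F * f) = 1 / ρ ^ 2 * (F * (H * f)) := by ring
  have e5 : C / ρ ^ 2 * max 0 (-(H * f)) = 1 / ρ ^ 2 * (C * max 0 (-(H * f))) := by ring
  rw [← hH, ← hf, e4, e5]
  refine mul_le_mul_of_nonneg_left ?_ (by positivity)
  by_cases hneg : H * f < 0
  · rw [max_eq_right (by linarith)]
    nlinarith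
  · rw [not_lt] at hneg
    rw [max_eq_left (by linarith), mul_zero]
    exact mul_nonpos_of_nonpos_of_nonneg g2 hneg

/-- The inward flux of the energy and of the volume. -/
lemma fi_sq {ψ : V → ℝ} (hψ : ContDiff ℝ ∞ ψ) {v : V → V} {q : V → ℝ} (hv : ContDiff ℝ ∞ v)
    (hq : ContDiff ℝ ∞ q) (a : V) {ρ : ℝ} (hρ : 0 < ρ) :
    FI ψ a ρ v q ^ 2 ≤ (2 * L4 a (ρ / 2) v + 8 * Pi2 q a ρ) * FX ψ a ρ v q := by
  obtain ⟨m, hm⟩ : ∃ m, m = pav q a ρ := ⟨_, rfl⟩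
  have hnc := (nsq_sm hv).continuous
  have hqc := hq.continuous
  have e : FI ψ a ρ v q
      = ∫ x in ball a (ρ / 2), |nsq v x + 2 * (q x - m)| * |inw ψ v q m x| := by
    unfold FI
    rw [← hm]
    congr 1
    funext x
    exact ngf_eq _ _ _ _ _
  have hprod : IntegrableOn (fun x => |nsq v x + 2 * (q x - m)| * |inw ψ v q m x|)
      (ball a (ρ / 2)) := by
    refine Integrable.mono' (ballint
      (f := fun x => |nsq v x + 2 * (q x - m)| * |fl ψ v x|)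
      (Continuous.mul (by fun_prop) (fl_cont hψ hv).abs) a (ρ / 2)) ?_ (ae_of_all _ fun x => ?_)
    · refine Measurable.aestronglyMeasurable (Measurable.mul (by fun_prop) ?_)
      exact (inw_meas hψ hv hq m).norm
    · rw [Real.norm_eq_abs, abs_mul, abs_abs, abs_abs]
      exact mul_le_mul_of_nonneg_left (inw_abs_le _ _ _ _ _) (abs_nonneg _)
  have i1 : IntegrableOn (fun x => |nsq v x + 2 * (q x - m)| ^ 2) (ball a (ρ / 2)) :=
    ballint (by fun_prop) _ _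
  have i2 : IntegrableOn (fun x => |inw ψ v q m x| ^ 2) (ball a (ρ / 2)) := by
    simp only [sq_abs]
    exact inw_int hψ hv hq m a _
  rw [e]
  refine (cs_gen i1 i2 hprod).trans ?_
  simp only [sq_abs]
  have h1 : ∫ x in ball a (ρ / 2), (nsq v x + 2 * (q x - m)) ^ 2
      ≤ 2 * L4 a (ρ / 2) v + 8 * Pi2 q a ρ := by
    have h2 : ∫ x in ball a (ρ / 2), (nsq v x + 2 * (q x - m)) ^ 2
        ≤ ∫ x in ball a (ρ / 2), (2 * nsq v x ^ 2 + 8 * (q x - m) ^ 2) := by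
      refine setIntegral_mono (ballint (by fun_prop) _ _) (ballint (by fun_prop) _ _)
        fun x => ?_
      show (nsq v x + 2 * (q x - m)) ^ 2 ≤ 2 * nsq v x ^ 2 + 8 * (q x - m) ^ 2
      nlinarith [sq_nonneg (nsq v x - 2 * (q x - m))]
    have h3 : ∫ x in ball a (ρ / 2), (2 * nsq v x ^ 2 + 8 * (q x - m) ^ 2)
        = 2 * L4 a (ρ / 2) v + 8 * ∫ x in ball a (ρ / 2), (q x - m) ^ 2 := by
      rw [integral_add (ballint (by fun_prop) _ _) (ballint (by fun_prop) _ _),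
        integral_const_mul, integral_const_mul]
      rfl
    have h4 : ∫ x in ball a (ρ / 2), (q x - m) ^ 2 ≤ Pi2 q a ρ := by
      unfold Pi2
      rw [← hm]
      exact setIntegral_mono_set (ballint (by fun_prop) _ _) (ae_of_all _ fun _ => sq_nonneg _)
        (ball_subset_ball (by linarith)).eventuallyLE
    linarith
  have h5 : ∫ x in ball a (ρ / 2), inw ψ v q m x ^ 2 = FX ψ a ρ v q := by
    unfold FX
    rw [← hm]
  rw [h5]
  exact mul_le_mul_of_nonneg_right h1 (FX_nn _ _ _ _ _)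

end Pool.Agent.N982.MC
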