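import Pool.Agent.W12.MD.RIESZ0
import Pool.Agent.N982.MC.Sl

/-!
The pressure of a periodic field: the `L²` bound by the `L⁴` norm of the velocity.
-/

set_option autoImplicit false

open MeasureTheory Set Metric Filter Topology
open scoped ContDiff

namespace Pool.Agent.N982.MC

open H459R3.NS W221.NS Pool.Agent.Y8 Pool.Agent.W12.MD.R0

lemma fr_sum' {ι : Type*} {s : Finset ι} {f : ι → V → ℝ} (hf : ∀ i ∈ s, SP (f i)) (k : K3) :
    fr (fun x => ∑ i ∈ s, f i x) k = ∑ i ∈ s, fr (f i) k := by
  unfold fr fc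
  have hint : ∀ i ∈ s, IntegrableOn (fun x => ee (-k) x * (f i x : ℂ)) cube := fun i hi =>
    integrableOn_cube ((ee_continuous _).mul (contDiff_ofReal (hf i hi).smooth).continuous)
  rw [← integral_finsetSum _ hint]
  congr 1
  funext x
  push_cast
  rw [Finset.mul_sum]

lemma SP.cst (c : ℝ) : SP (fun _ : V => c) := ⟨contDiff_const, fun _ _ => rfl⟩

/-- The pressure on the torus. -/
theorem tp4 {u : V → V} {p : V → ℝ} (hu : SPV u) (hp : SP p) (he : ∀ x, -lap p x = ddq u x) :
    ∫ x in cube, (p x - ∫ y in cube, p y) ^ 2 ≤ 9 * ∫ x in cube, nsq u x ^ 2 := by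
  obtain ⟨m, hm⟩ : ∃ m, m = ∫ y in cube, p y := ⟨_, rfl⟩
  rw [← hm]
  obtain ⟨q, hq⟩ : ∃ q : V → ℝ, q = fun x => p x + (-m) := ⟨_, rfl⟩
  have hqs : SP q := by
    rw [hq]
    exact hp.add (SP.cst (-m))
  have hui : ∀ i, SP (fun y => u y i) := fun i =>
    ⟨contDiff_pi.1 hu.1 i, fun j x => by
      show u (x + Pi.single j 1) i = u x i
      rw [hu.2 j x]⟩
  have hF : ∀ i j, SP (fun y => u y i * u y j) := fun i j => (hui i).mul (hui j)
  obtain ⟨a, ha⟩ : ∃ a : Fin 3 → Fin 3 → K3 → ℂ, a = fun i j => fr (fun y => u y i * u y j) :=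
    ⟨_, rfl⟩
  have hqlap : ∀ x, lap q x = lap p x := by
    intro x
    unfold lap
    refine Finset.sum_congr rfl fun j _ => ?_
    have e : pd j q = pd j p := by
      funext y
      rw [hq, Pool.Agent.W240.ME.pd_add (g := fun _ => -m) hp.smooth contDiff_const,
        Pool.Agent.W240.ME.pd_const, add_zero]
    rw [e]
  have hq0 : fr q 0 = 0 := by
    unfold fr fc
    have e1 : ∀ x, ee (-0) x * ((q x : ℝ) : ℂ) = ((q x : ℝ) : ℂ) := fun x => by
      rw [neg_zero, ee_zero, one_mul]
    simp_rw [e1]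
    have e3 : ∫ x in cube, ((q x : ℝ) : ℂ) = ((∫ x in cube, q x : ℝ) : ℂ) :=
      integral_complex_ofReal
    rw [e3]
    have e2 : ∫ x in cube, q x = 0 := by
      rw [hq]
      have i1 : IntegrableOn p cube := cube_int hp.smooth.continuous
      have i2 : IntegrableOn (fun _ : V => -m) cube := cube_int continuous_const
      have : ∫ x in cube, (p x + -m) = (∫ x in cube, p x) + ∫ x in cube, -m := integral_add i1 i2
      rw [this, setIntegral_const, ← hm, measureReal_def, volume_cube]
      simp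
    rw [e2]
    simp
  have hk : ∀ k, ‖fr q k‖ ^ 2 ≤ 9 * ∑ i, ∑ j, ‖a i j k‖ ^ 2 := by
    intro k
    by_cases hk0 : k = 0
    · rw [hk0, hq0]
      rw [norm_zero, zero_pow (by norm_num)]
      positivity
    · have h1 : fr (fun x => lap q x) k = ∑ j, D j (D j (fr q)) k := by
        have e1 : (fun x => lap q x) = fun x => ∑ j ∈ Finset.univ, pd j (pd j q) x := rfl
        rw [e1, fr_sum' (fun j _ => (hqs.pd j).pd j)]
        refine Finset.sum_congr rfl fun j _ => ?_
        rw [fr_pd (hqs.pd j), fr_pd hqs]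
      have h2 : fr (fun x => ddq u x) k = ∑ i, ∑ j, D i (D j (a i j)) k := by
        have e1 : (fun x => ddq u x) = fun x => ∑ i ∈ Finset.univ,
            ∑ j ∈ Finset.univ, pd i (pd j (fun y => u y i * u y j)) x := rfl
        rw [e1, fr_sum' (fun i _ => SP.sum fun j _ => ((hF i j).pd j).pd i)]
        refine Finset.sum_congr rfl fun i _ => ?_
        rw [fr_sum' (fun j _ => ((hF i j).pd j).pd i)]
        refine Finset.sum_congr rfl fun j _ => ?_
        rw [fr_pd ((hF i j).pd j), fr_pd (hF i j), ha]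
      have h3 : fr (fun x => ddq u x) k = -fr (fun x => lap q x) k := by
        have e1 : (fun x => ddq u x) = fun x => -lap q x := by
          funext x
          rw [hqlap, he]
        rw [e1]
        unfold fr fc
        rw [← integral_neg]
        congr 1
        funext x
        push_cast
        ring
      rw [h1, h2, ← pc_eq] at h3
      have h4 : ∑ j, D j (D j (pc a)) k = ∑ j, D j (D j (fr q)) k := by
        have := neg_injective h3
        exact this
      have h5 : ∀ c : K3 → ℂ, ∑ j, D j (D j c) k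
          = (2 * Real.pi * Complex.I) ^ 2 * ((kk k : ℂ) * c k) := by
        intro c
        unfold kk
        push_cast
        rw [Finset.sum_mul, Finset.mul_sum]
        refine Finset.sum_congr rfl fun j _ => ?_
        unfold D
        ring
      rw [h5, h5] at h4
      have h6 : ((2 : ℂ) * Real.pi * Complex.I) ^ 2 ≠ 0 := by
        have : (Real.pi : ℂ) ≠ 0 := by exact_mod_cast Real.pi_ne_zero
        simp [this]
      have h7 : (kk k : ℂ) ≠ 0 := by exact_mod_cast (kk_pos hk0).ne'
      have h8 : pc a k = fr q k := mul_left_cancel₀ h7 (mul_left_cancel₀ h6 h4)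
      rw [← h8]
      exact norm_pc_sq_le a k
  have h3 : ∀ i j, Summable fun k => ‖a i j k‖ ^ 2 := fun i j => by
    rw [ha]
    exact summable_sq (rap_fr (hF i j)).summable
  have h4 : Summable fun k => 9 * ∑ i, ∑ j, ‖a i j k‖ ^ 2 :=
    (summable_sum fun i _ => summable_sum fun j _ => h3 i j).mul_left _
  have h5 : ∫ x in cube, q x ^ 2 ≤ ∑' k, 9 * ∑ i, ∑ j, ‖a i j k‖ ^ 2 := by
    rw [← n2_fr hqs, n2_sq]
    exact (summable_sq (rap_fr hqs).summable).tsum_le_tsum hk h4
  have h6 : ∑' k, 9 * ∑ i, ∑ j, ‖a i j k‖ ^ 2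
      = 9 * ∑ i, ∑ j, ∫ x in cube, (u x i * u x j) ^ 2 := by
    rw [tsum_mul_left]
    congr 1
    rw [Summable.tsum_finsetSum fun i _ => summable_sum fun j _ => h3 i j]
    refine Finset.sum_congr rfl fun i _ => ?_
    rw [Summable.tsum_finsetSum fun j _ => h3 i j]
    refine Finset.sum_congr rfl fun j _ => ?_
    rw [← n2_sq, ha, n2_fr (hF i j)]
  have h7 : ∑ i, ∑ j, ∫ x in cube, (u x i * u x j) ^ 2 = ∫ x in cube, nsq u x ^ 2 := by
    have hc : ∀ i j, IntegrableOn (fun x => (u x i * u x j) ^ 2) cube := fun i j =>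
      cube_int ((hF i j).smooth.continuous.pow 2)
    have e1 : ∀ i, ∑ j, ∫ x in cube, (u x i * u x j) ^ 2
        = ∫ x in cube, ∑ j, (u x i * u x j) ^ 2 := fun i =>
      (integral_finsetSum _ fun j _ => hc i j).symm
    simp_rw [e1]
    rw [← integral_finsetSum _ fun i _ => integrable_finsetSum _ fun j _ => hc i j]
    congr 1
    funext x
    unfold nsq
    rw [sq, Finset.sum_mul_sum]
    refine Finset.sum_congr rfl fun i _ => Finset.sum_congr rfl fun j _ => ?_
    ring
  have h8 : ∫ x in cube, (p x - m) ^ 2 = ∫ x in cube, q x ^ 2 := by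
    rw [hq]
    congr 1
  rw [h8]
  rw [h6, h7] at h5
  exact h5

end Pool.Agent.N982.MC
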