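import Pool.Agent.Y8.Joint
import Pool.Agent.Y8.Lei
import Pool.Agent.N982.MC.Sl

/-!
The equation for the pressure at a regular time.
-/

set_option autoImplicit false

open MeasureTheory Set Metric Filter Topology
open scoped ContDiff

namespace Pool.Agent.N982.MC

open H459R3.NS W221.NS Pool.Agent.Y8

/-- The derivatives in time and space commute. -/
lemma comm_tx {H : Set ℝ} (hH : IsOpen H) {F : ℝ → V → ℝ}
    (hF : ContDiffOn ℝ ∞ (fun z : ℝ × V => F z.1 z.2) (H ×ˢ univ)) {t : ℝ} (ht : t ∈ H)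
    (x : V) (j : Fin 3) :
    HasDerivAt (fun s => pd j (F s) x) (pd j (fun y => deriv (fun s => F s y) t) x) t := by
  obtain ⟨G, hG⟩ : ∃ G : ℝ × V → ℝ, G = fun z => F z.1 z.2 := ⟨_, rfl⟩
  obtain ⟨G1, hG1⟩ : ∃ G1 : ℝ → V → ℝ, G1 = fun s y => fderiv ℝ G (s, y) (0, Pi.single j 1) :=
    ⟨_, rfl⟩
  obtain ⟨G2, hG2⟩ : ∃ G2 : ℝ → V → ℝ, G2 = fun s y => fderiv ℝ G (s, y) (1, 0) := ⟨_, rfl⟩
  have s1 : ContDiffOn ℝ ∞ (fun z : ℝ × V => G1 z.1 z.2) (H ×ˢ univ) := by
    rw [hG1, hG]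
    exact fd_joint hH hF _
  have s2 : ContDiffOn ℝ ∞ (fun z : ℝ × V => G2 z.1 z.2) (H ×ˢ univ) := by
    rw [hG2, hG]
    exact fd_joint hH hF _
  have e1 : ∀ s ∈ H, ∀ y, pd j (F s) y = G1 s y := by
    intro s hs y
    rw [hG1, hG]
    exact pd_eq hH hF hs y j
  have e2 : (fun y => deriv (fun s => F s y) t) = G2 t := by
    funext y
    rw [hG2, hG]
    exact (dt_hd hH hF ht y).deriv
  have hz : (t, x) ∈ H ×ˢ (univ : Set V) := ⟨ht, mem_univ _⟩
  have hnb : H ×ˢ (univ : Set V) ∈ 𝓝 (t, x) := (hH.prod isOpen_univ).mem_nhds hz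
  have hcd : ContDiffAt ℝ ∞ G (t, x) := by
    rw [hG]
    exact hF.contDiffAt hnb
  have hsym : IsSymmSndFDerivAt ℝ G (t, x) := hcd.isSymmSndFDerivAt (by
    simp only [minSmoothness_of_isRCLikeNormedField]
    exact WithTop.coe_le_coe.mpr le_top)
  have hdd : DifferentiableAt ℝ (fderiv ℝ G) (t, x) :=
    (hcd.fderiv_right (m := ∞) (by simp)).differentiableAt (by simp)
  have ef : ∀ v w : ℝ × V, fderiv ℝ (fun z => fderiv ℝ G z v) (t, x) w
      = fderiv ℝ (fderiv ℝ G) (t, x) w v := by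
    intro v w
    have h3 : HasFDerivAt (fun z => fderiv ℝ G z v)
        ((ContinuousLinearMap.apply ℝ ℝ v).comp (fderiv ℝ (fderiv ℝ G) (t, x))) (t, x) :=
      ((ContinuousLinearMap.apply ℝ ℝ v).hasFDerivAt).comp (t, x) hdd.hasFDerivAt
    rw [h3.fderiv]
    rfl
  have h1 := dt_hd hH s1 ht x
  have h2 : pd j (G2 t) x = fderiv ℝ (fun z : ℝ × V => G2 z.1 z.2) (t, x) (0, Pi.single j 1) :=
    pd_eq hH s2 ht x j
  have e3 : fderiv ℝ (fun z : ℝ × V => G1 z.1 z.2) (t, x) (1, 0)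
      = fderiv ℝ (fun z : ℝ × V => G2 z.1 z.2) (t, x) (0, Pi.single j 1) := by
    have a1 : (fun z : ℝ × V => G1 z.1 z.2) = fun z => fderiv ℝ G z (0, Pi.single j 1) := by
      rw [hG1]
    have a2 : (fun z : ℝ × V => G2 z.1 z.2) = fun z => fderiv ℝ G z (1, 0) := by
      rw [hG2]
    rw [a1, a2, ef, ef]
    exact hsym _ _
  rw [e2, h2, ← e3]
  refine h1.congr_of_eventuallyEq ?_
  filter_upwards [hH.mem_nhds ht] with s hs
  exact e1 s hs x

/-- The equation for the pressure. -/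
theorem wdiv {T E D : ℝ} {G : Set ℝ} {u : ℝ → V → V} {p : ℝ → V → ℝ}
    (h : Turb 1 T E D G u p) {t : ℝ} (ht : t ∈ G) (x : V) : -lap (p t) x = ddq (u t) x := by
  have hu : ∀ i, ContDiff ℝ ∞ (fun y => u t y i) := fun i => contDiff_pi.1 (h.spv ht).1 i
  have hp : ContDiff ℝ ∞ (p t) := (h.sp ht).smooth
  obtain ⟨dt, hdt⟩ : ∃ dt : Fin 3 → V → ℝ, dt = fun i y => deriv (fun s => u s y i) t :=
    ⟨_, rfl⟩
  have hjs : ∀ i, ContDiffOn ℝ ∞ (fun z : ℝ × V => u z.1 z.2 i) (G ×ˢ univ) := fun i =>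
    contDiffOn_pi.1 h.smooth_u i
  have hdts : ∀ i, ContDiff ℝ ∞ (dt i) := fun i => by
    rw [hdt]
    exact sl_sm (F := fun t y => deriv (fun s => u s y i) t)
      (dt_joint (F := fun s y => u s y i) h.openG (hjs i)) ht
  have hadv : ∀ i, ContDiff ℝ ∞ (fun y => ∑ j, u t y j * pd j (fun y => u t y i) y) := fun i =>
    ContDiff.sum fun j _ => (hu j).mul (Pool.Agent.W240.ME.cd_pd (hu i) j)
  have hlap : ∀ i, ContDiff ℝ ∞ (lap (fun y => u t y i)) := fun i =>
    Pool.Agent.W240.ME.cd_lap (hu i)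
  -- the gradient of the pressure
  have e1 : ∀ i, pd i (p t) = fun y => (lap (fun y => u t y i) y
      - ∑ j, u t y j * pd j (fun y => u t y i) y) - dt i y := by
    intro i
    funext y
    have h1 := h.momentum t ht y i
    rw [hdt]
    unfold lap
    linarith
  have e2 : lap (p t) x = (∑ i, pd i (lap (fun y => u t y i)) x)
      - (∑ i, pd i (fun y => ∑ j, u t y j * pd j (fun y => u t y i) y) x)
      - ∑ i, pd i (dt i) x := by
    unfold lap
    rw [← Finset.sum_sub_distrib, ← Finset.sum_sub_distrib]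
    refine Finset.sum_congr rfl fun i _ => ?_
    rw [e1 i, Pool.Agent.W240.ME.pd_sub
      (f := fun y => lap (fun y => u t y i) y - ∑ j, u t y j * pd j (fun y => u t y i) y)
      ((hlap i).sub (hadv i)) (hdts i), Pool.Agent.W240.ME.pd_sub (hlap i) (hadv i)]
    rfl
  -- the viscous term
  have e3 : ∑ i, pd i (lap (fun y => u t y i)) x = 0 := by
    have h1 : ∀ i, pd i (lap (fun y => u t y i)) x = lap (pd i (fun y => u t y i)) x := fun i =>
      (Pool.Agent.W240.ME.lap_pd (hu i) i x).symm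
    simp_rw [h1]
    rw [← Pool.Agent.W240.ME.lap_sum (fun i => Pool.Agent.W240.ME.cd_pd (hu i) i)]
    have h2 : (fun y => ∑ i, pd i (fun y => u t y i) y) = fun _ => 0 :=
      funext fun y => h.divfree t ht y
    rw [h2]
    unfold lap
    refine Finset.sum_eq_zero fun j _ => ?_
    have h3 : pd j (fun _ : V => (0 : ℝ)) = fun _ => 0 := by
      funext y
      exact Pool.Agent.W240.ME.pd_const 0 j y
    rw [h3, Pool.Agent.W240.ME.pd_const]
  -- the time derivative
  have e4 : ∑ i, pd i (dt i) x = 0 := by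
    have h1 : HasDerivAt (fun s => ∑ i, pd i (fun y => u s y i) x) (∑ i, pd i (dt i) x) t := by
      rw [hdt]
      exact HasDerivAt.fun_sum fun i _ => comm_tx (F := fun s y => u s y i) h.openG (hjs i) ht x i
    have h2 : (fun s => ∑ i, pd i (fun y => u s y i) x) =ᶠ[𝓝 t] fun _ => 0 := by
      filter_upwards [h.openG.mem_nhds ht] with s hs
      exact h.divfree s hs x
    have h3 := h1.congr_of_eventuallyEq h2.symm
    exact h3.unique (hasDerivAt_const t 0)
  -- the nonlinear term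
  have e5 : ∑ i, pd i (fun y => ∑ j, u t y j * pd j (fun y => u t y i) y) x = ddq (u t) x := by
    unfold ddq
    refine Finset.sum_congr rfl fun i _ => ?_
    have h1 : (fun y => ∑ j, u t y j * pd j (fun y => u t y i) y)
        = fun y => ∑ j, pd j (fun y => u t y i * u t y j) y := by
      funext y
      have h2 : ∀ j, pd j (fun y => u t y i * u t y j) y
          = u t y i * pd j (fun y => u t y j) y + pd j (fun y => u t y i) y * u t y j := fun j =>
        Pool.Agent.W240.ME.pd_mul (hu i) (hu j) j y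
      simp_rw [h2]
      rw [Finset.sum_add_distrib, ← Finset.mul_sum, h.divfree t ht y, mul_zero, zero_add]
      exact Finset.sum_congr rfl fun j _ => mul_comm _ _
    rw [h1, Pool.Agent.W240.ME.pd_sum (f := fun j => pd j (fun y => u t y i * u t y j))
      (fun j => Pool.Agent.W240.ME.cd_pd ((hu i).mul (hu j)) j)]
  rw [e2, e3, e4, e5]
  ring

end Pool.Agent.N982.MC
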