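import Pool.Agent.N982.MC.StepE
import Pool.Agent.N982.MC.Tp
import Pool.Agent.N982.MC.Wdiv
import Pool.Agent.Y8.Asm2
import Pool.Agent.Y8.Lei2

/-!
Suitable weak periodic solutions: the hypotheses of the iteration.
-/

set_option autoImplicit false

open MeasureTheory Set Metric Filter Topology
open scoped ContDiff

namespace Pool.Agent.N982.MC

open H459R3.NS W221.NS Pool.Agent.Y8

section

variable {T E D : ℝ} {G : Set ℝ} {u : ℝ → V → V} {p : ℝ → V → ℝ} {t₀ : ℝ} {x₀ : V}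

/-- The local class. -/
theorem ls_turb (h : Turb 1 T E D G u p) (ht : t₀ ≤ T) {R : ℝ} (hR : 0 < R)
    (hR2 : R ^ 2 ≤ t₀) (x₀ : V) : LS G t₀ x₀ R u p where
  openG := h.openG
  full := by
    intro s hs t ht
    refine measure_mono_null ?_ h.fullG
    have h1 := h.subG hs
    have h2 := h.subG ht
    rintro τ ⟨⟨a, b⟩, c⟩
    exact ⟨⟨h1.1.trans a, b.trans h2.2⟩, c⟩
  left := by
    refine measure_mono_null ?_ h.fullG
    rintro τ ⟨⟨a, b⟩, c⟩
    exact ⟨⟨by linarith, by linarith⟩, c⟩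
  smooth_u := h.smooth_u
  smooth_p := h.smooth_p
  div := fun t ht x _ => h.divfree t ht x
  peq := fun t ht x _ => wdiv h ht x
  en := fun α β Φ hΦ hs s hsG t htG h1 h2 h3 hpos =>
    lei Pool.Agent.Y8.B.p_tcut h hΦ hR hs hsG htG h1 h2 h3 hpos

lemma Wn_T (h : Turb 1 T E D G u p) (r : ℝ) : Wn G t₀ r ⊆ G := inter_subset_left

/-- The energy bounds at the start. -/
theorem start_A (ρ : ℝ) (hρ : 0 < ρ) : ∃ C : ℝ, 0 < C ∧
    ∀ (T E D : ℝ) (G : Set ℝ) (u : ℝ → V → V) (p : ℝ → V → ℝ), Turb 1 T E D G u p →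
      ∀ (t₀ : ℝ) (x₀ : V), PA G t₀ x₀ u ρ (C * (E ^ 2 + D + 1)) := by
  obtain ⟨C, hC, hb⟩ := ball_le ρ
  refine ⟨C / ρ, by positivity, ?_⟩
  intro T E D G u p h t₀ x₀
  have e1 : ρ * (C / ρ * (E ^ 2 + D + 1)) = C * (E ^ 2 + D + 1) := by field_simp
  have hD : 0 ≤ D := (setIntegral_nonneg h.openG.measurableSet fun t _ => enst_nn _).trans
    h.enst_le
  have hW : MeasurableSet (Wn G t₀ ρ) := (Wn_open h.openG _).measurableSet
  have hB : ∀ t ∈ G, B2 x₀ ρ (u t) ≤ C * enstrophy (u t) := by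
    intro t ht
    rw [enst_eq (h.spv ht).1]
    exact hb _ (gsq_sm (h.spv ht).1).continuous (gsq_per (h.spv ht).2) (gsq_nn _) x₀
  have hi : IntegrableOn (fun t => C * enstrophy (u t)) G := h.enst_int.const_mul C
  have hBi : IntegrableOn (fun t => B2 x₀ ρ (u t)) (Wn G t₀ ρ) := by
    refine Integrable.mono' (hi.mono_set inter_subset_left) ?_ ?_
    · have h1 : ContinuousOn (fun t => B2 x₀ ρ (u t)) G :=
        pint_cont h.openG (gsq_joint h.openG h.smooth_u).continuousOn x₀ ρ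
      exact (h1.mono inter_subset_left).aestronglyMeasurable hW
    · rw [ae_restrict_iff' hW]
      refine ae_of_all _ fun t ht => ?_
      rw [Real.norm_eq_abs, abs_of_nonneg (B2_nn _ _ _)]
      exact hB t ht.1
  refine ⟨fun t ht => ?_, hBi, ?_⟩
  · rw [e1]
    have h1 := hb _ (nsq_sm (h.spv ht.1).1).continuous (nsq_per (h.spv ht.1).2) (nsq_nn _) x₀
    rw [← energy_eq (h.spv ht.1).1] at h1
    refine h1.trans (mul_le_mul_of_nonneg_left ?_ hC.le)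
    linarith [h.energy_le t ht.1]
  · rw [e1]
    calc ∫ t in Wn G t₀ ρ, B2 x₀ ρ (u t) ≤ ∫ t in Wn G t₀ ρ, C * enstrophy (u t) :=
          setIntegral_mono_on hBi (hi.mono_set inter_subset_left) hW fun t ht => hB t ht.1
      _ ≤ ∫ t in G, C * enstrophy (u t) :=
          setIntegral_mono_set hi (ae_of_all _ fun t => mul_nonneg hC.le (enst_nn _))
            (inter_subset_left (s := G)).eventuallyLE
      _ = C * ∫ t in G, enstrophy (u t) := integral_const_mul _ _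
      _ ≤ C * (E ^ 2 + D + 1) := by
          apply mul_le_mul_of_nonneg_left _ hC.le
          nlinarith [h.enst_le, sq_nonneg E]

lemma l4cube {u : V → V} (hu : ContDiff ℝ ∞ u) :
    (∫ x in cube, nsq u x ^ 2) ^ 2 ≤ (∫ x in cube, nsq u x) * ∫ x in cube, nsq u x ^ 3 := by
  have hc := (nsq_sm hu).continuous
  have i1 : IntegrableOn (fun x => nsq u x) cube := cube_int hc
  have i2 : IntegrableOn (fun x => nsq u x ^ 2) cube := cube_int (hc.pow 2)
  have i3 : IntegrableOn (fun x => nsq u x ^ 3) cube := cube_int (hc.pow 3)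
  have h : ∀ l : ℝ, 0 ≤ (∫ x in cube, nsq u x) * (l * l)
      + (-2 * ∫ x in cube, nsq u x ^ 2) * l + ∫ x in cube, nsq u x ^ 3 := by
    intro l
    have h1 : 0 ≤ ∫ x in cube, nsq u x * (nsq u x - l) ^ 2 :=
      integral_nonneg fun x => mul_nonneg (nsq_nn u x) (sq_nonneg _)
    have e : ∀ x, nsq u x * (nsq u x - l) ^ 2
        = l ^ 2 * nsq u x + (-(2 * l)) * nsq u x ^ 2 + 1 * nsq u x ^ 3 := fun x => by ring
    simp_rw [e] at h1
    rw [int3 i1 i2 i3] at h1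
    linarith
  have h2 := discrim_le_zero h
  unfold discrim at h2
  nlinarith

/-- The pressure bound at the start. -/
theorem start_D (ρ : ℝ) (hρ : 0 < ρ) : ∃ C : ℝ, 1 ≤ C ∧
    ∀ (T E D : ℝ) (G : Set ℝ) (u : ℝ → V → V) (p : ℝ → V → ℝ), Turb 1 T E D G u p →
      ∀ (t₀ : ℝ) (x₀ : V), PD G t₀ x₀ p ρ (C * (E ^ 2 + D + 1)) := by
  obtain ⟨C, hC, hb⟩ := ball_le ρ
  obtain ⟨Cs, hCs, hs⟩ := sob_cube
  obtain ⟨C', hC'⟩ : ∃ C', C' = 81 * C ^ 2 * Cs * (1 + 2 * ρ ^ 2) ^ 3 / ρ ^ 4 + 1 := ⟨_, rfl⟩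
  have hC'1 : 1 ≤ C' := by
    have : 0 < 81 * C ^ 2 * Cs * (1 + 2 * ρ ^ 2) ^ 3 / ρ ^ 4 := by positivity
    linarith
  refine ⟨C', hC'1, ?_⟩
  intro T E D G u p h t₀ x₀
  have hD : 0 ≤ D := (setIntegral_nonneg h.openG.measurableSet fun t _ => enst_nn _).trans
    h.enst_le
  obtain ⟨A, hA⟩ : ∃ A, A = E ^ 2 + D + 1 := ⟨_, rfl⟩
  have hA0 : 0 < A := by rw [hA]; positivity
  obtain ⟨Λ, hΛ⟩ : ∃ Λ, Λ = (1 + 2 * ρ ^ 2) * A := ⟨_, rfl⟩
  have hΛ0 : 0 < Λ := by rw [hΛ]; positivity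
  have hW : MeasurableSet (Wn G t₀ ρ) := (Wn_open h.openG _).measurableSet
  obtain ⟨i1, i2⟩ := Wn_const (G := G) (t₀ := t₀) (r := ρ) (c := A) hA0.le
  have i3 : IntegrableOn (fun t => enstrophy (u t)) (Wn G t₀ ρ) :=
    h.enst_int.mono_set inter_subset_left
  refine ⟨fun t => (enstrophy (u t) + A) / Λ, (i3.add i1).div_const _, fun t ht => ⟨?_, ?_⟩, ?_⟩
  · have := enst_nn (u t)
    positivity
  · have hu := h.spv ht.1
    have hp := h.sp ht.1
    obtain ⟨m, hm⟩ : ∃ m, m = ∫ y in cube, p t y := ⟨_, rfl⟩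
    have h1 : Pi2 (p t) x₀ ρ ≤ C * (9 * ∫ x in cube, nsq (u t) x ^ 2) := by
      refine (Pi2_le hp.smooth.continuous hρ m).trans ?_
      refine (hb (fun x => (p t x - m) ^ 2) ((hp.smooth.continuous.sub continuous_const).pow 2)
        (fun i x => by
          show (p t (x + Pi.single i 1) - m) ^ 2 = (p t x - m) ^ 2
          rw [hp.per i x]) (fun x => sq_nonneg _) x₀).trans ?_
      refine mul_le_mul_of_nonneg_left ?_ hC.le
      rw [hm]
      exact tp4 hu hp (fun x => wdiv h ht.1 x)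
    have h2 := l4cube hu.1
    have h3 := hs (u t) hu
    have hen := h.energy_le t ht.1
    rw [← energy_eq hu.1] at h2
    have hE0 := energy_nn (u t)
    have hS0 := enst_nn (u t)
    have hEA : energy (u t) ≤ A := by
      rw [hA]
      linarith
    have h4 : (∫ x in cube, nsq (u t) x ^ 2) ^ 2 ≤ A * (Cs * (enstrophy (u t) + A) ^ 3) := by
      refine h2.trans (mul_le_mul hEA (h3.trans ?_) ?_ hA0.le)
      · apply mul_le_mul_of_nonneg_left _ hCs.le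
        exact pow_le_pow_left₀ (by positivity) (by linarith) 3
      · exact integral_nonneg fun x => pow_nonneg (nsq_nn _ _) 3
    have h5 : Pi2 (p t) x₀ ρ ^ 2 ≤ 81 * C ^ 2 * (A * (Cs * (enstrophy (u t) + A) ^ 3)) := by
      calc Pi2 (p t) x₀ ρ ^ 2 ≤ (C * (9 * ∫ x in cube, nsq (u t) x ^ 2)) ^ 2 :=
            pow_le_pow_left₀ (Pi2_nn _ _ _) h1 2
        _ = 81 * C ^ 2 * (∫ x in cube, nsq (u t) x ^ 2) ^ 2 := by ring
        _ ≤ _ := mul_le_mul_of_nonneg_left h4 (by positivity)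
    refine h5.trans ?_
    show 81 * C ^ 2 * (A * (Cs * (enstrophy (u t) + A) ^ 3))
      ≤ (ρ * (C' * (E ^ 2 + D + 1))) ^ 4 * ((enstrophy (u t) + A) / Λ) ^ 3
    obtain ⟨e, he⟩ : ∃ e, e = (enstrophy (u t) + A) / Λ := ⟨_, rfl⟩
    have he0 : 0 ≤ e := by rw [he]; positivity
    have he2 : enstrophy (u t) + A = Λ * e := by rw [he]; field_simp
    rw [← he, he2, ← hA, hΛ]
    have h6 : 81 * C ^ 2 * (A * (Cs * ((1 + 2 * ρ ^ 2) * A * e) ^ 3))
        = (81 * C ^ 2 * Cs * (1 + 2 * ρ ^ 2) ^ 3 / ρ ^ 4) * (ρ ^ 4 * A ^ 4 * e ^ 3) := by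
      field_simp
    have h7 : (ρ * (C' * A)) ^ 4 * e ^ 3 = C' ^ 4 * (ρ ^ 4 * A ^ 4 * e ^ 3) := by ring
    rw [h6, h7]
    refine mul_le_mul_of_nonneg_right ?_ (by positivity)
    calc 81 * C ^ 2 * Cs * (1 + 2 * ρ ^ 2) ^ 3 / ρ ^ 4 ≤ C' := by rw [hC']; linarith
      _ ≤ C' ^ 4 := le_self_pow₀ hC'1 (by norm_num)
  · rw [integral_div, div_le_one hΛ0, integral_add i3 i1]
    have h1 : ∫ t in Wn G t₀ ρ, enstrophy (u t) ≤ D :=
      (setIntegral_mono_set h.enst_int (ae_of_all _ fun t => enst_nn _)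
        (inter_subset_left (s := G)).eventuallyLE).trans h.enst_le
    have h2 : D ≤ A := by
      rw [hA]
      nlinarith [sq_nonneg E]
    rw [hΛ]
    linarith

/-! ### The flux hypothesis -/

lemma fl_sq_le {κ μ c r : ℝ} {ψ : ℝ → V → ℝ} (hF : Fol κ μ c r t₀ x₀ ψ) (hr : 0 < r)
    (hc0 : 0 ≤ c) (hc : c ≤ 1) {t : ℝ} (ht : t ∈ Ioo (t₀ - r ^ 2) t₀) {v : V → V} {x : V}
    (hx : x ∈ ball x₀ r) : fl (ψ t) v x ^ 2 ≤ 40 * r ^ 2 * nsq v x := by
  unfold fl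
  refine (Finset.sum_mul_sq_le_sq_mul_sq Finset.univ _ _).trans ?_
  have h1 := hF.grad t ht x hx
  have hc2 : c ^ 2 ≤ 1 := pow_le_one₀ hc0 hc
  have h2 := hF.up ht hr le_rfl (mul_le_of_le_one_left (sq_nonneg r) hc2) hx
  rw [mul_comm]
  exact mul_le_mul_of_nonneg_right (by linarith) (nsq_nn v x)

lemma FX_le {κ μ c r : ℝ} {ψ : ℝ → V → ℝ} (hF : Fol κ μ c r t₀ x₀ ψ) (hr : 0 < r)
    (hc0 : 0 ≤ c) (hc : c ≤ 1) {t : ℝ} (ht : t ∈ Ioo (t₀ - r ^ 2) t₀) {v : V → V} {q : V → ℝ}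
    (hv : ContDiff ℝ ∞ v) (hq : ContDiff ℝ ∞ q) : FX (ψ t) x₀ r v q ≤ 40 * r ^ 2 * A2 x₀ r v := by
  have hbb : ball x₀ (r / 2) ⊆ ball x₀ r := ball_subset_ball (by linarith)
  have h0 : FX (ψ t) x₀ r v q ≤ 40 * r ^ 2 * A2 x₀ (r / 2) v := by
    unfold FX A2
    rw [← integral_const_mul]
    refine setIntegral_mono_on (inw_int (hF.sm t) hv hq _ x₀ (r / 2))
      (ballint (continuous_const.mul (nsq_sm hv).continuous) _ _) measurableSet_ball fun x hx => ?_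
    have h2 := fl_sq_le hF hr hc0 hc ht (v := v) (hbb hx)
    have h3 : inw (ψ t) v q (pav q x₀ r) x ^ 2 ≤ fl (ψ t) v x ^ 2 := by
      rw [← sq_abs, ← sq_abs (fl (ψ t) v x)]
      exact pow_le_pow_left₀ (abs_nonneg _) (inw_abs_le _ _ _ _ _) 2
    linarith
  exact h0.trans (mul_le_mul_of_nonneg_left (A2_mn hv hbb) (by positivity))

lemma pav_cont (hG : IsOpen G)
    (hp : ContDiffOn ℝ ∞ (fun z : ℝ × V => p z.1 z.2) (G ×ˢ univ)) (a : V) (r : ℝ) :
    ContinuousOn (fun t => pav (p t) a r) G := by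
  unfold pav
  exact continuousOn_const.mul (pint_cont hG hp.continuousOn a r)

/-- Measurability of the flux of volume. -/
lemma FX_meas (hG : IsOpen G)
    (hu : ContDiffOn ℝ ∞ (fun z : ℝ × V => u z.1 z.2) (G ×ˢ univ))
    (hp : ContDiffOn ℝ ∞ (fun z : ℝ × V => p z.1 z.2) (G ×ˢ univ)) {ψ : ℝ → V → ℝ}
    (hψ : ContDiff ℝ ∞ (fun z : ℝ × V => ψ z.1 z.2))
    (a : V) (r : ℝ) {W : Set ℝ} (hW : MeasurableSet W) (hWG : W ⊆ G) :
    AEStronglyMeasurable (fun t => FX (ψ t) a r (u t) (p t)) (volume.restrict W) := by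
  obtain ⟨fF, hfF⟩ : ∃ fF : ℝ × V → ℝ, fF = fun z => fl (ψ z.1) (u z.1) z.2 := ⟨_, rfl⟩
  obtain ⟨hF, hhF⟩ : ∃ hF : ℝ × V → ℝ, hF = fun z => (nsq (u z.1) z.2
    + 2 * (p z.1 z.2 - pav (p z.1) a r)) * fl (ψ z.1) (u z.1) z.2 := ⟨_, rfl⟩
  have c1 : ContinuousOn fF (G ×ˢ univ) := by
    rw [hfF]
    unfold fl
    refine continuousOn_finsetSum _ fun i _ => ContinuousOn.mul ?_ ?_
    · exact (comp_joint hu i).continuousOn
    · exact (pd_joint hG hψ.contDiffOn i).continuousOn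
  have c2 : ContinuousOn (fun z : ℝ × V => pav (p z.1) a r) (G ×ˢ univ) :=
    (pav_cont hG hp a r).comp continuous_fst.continuousOn fun z hz => hz.1
  have c3 : ContinuousOn hF (G ×ˢ univ) := by
    rw [hhF]
    have c4 : ContinuousOn (fun z : ℝ × V => fl (ψ z.1) (u z.1) z.2) (G ×ˢ univ) := by
      rw [hfF] at c1
      exact c1
    exact ((nsq_joint hu).continuousOn.add (continuousOn_const.mul
      (hp.continuousOn.sub c2))).mul c4
  obtain ⟨A, hA⟩ : ∃ A : Set (ℝ × V), A = (G ×ˢ univ) ∩ hF ⁻¹' Iio 0 := ⟨_, rfl⟩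
  have hAo : IsOpen A := by
    rw [hA]
    exact c3.isOpen_inter_preimage (hG.prod isOpen_univ) isOpen_Iio
  obtain ⟨B, hB⟩ : ∃ B : Set (ℝ × V), B = A ∩ (W ×ˢ ball a (r / 2)) := ⟨_, rfl⟩
  have hBm : MeasurableSet B := by
    rw [hB]
    exact hAo.measurableSet.inter (hW.prod measurableSet_ball)
  have hBs : B ⊆ G ×ˢ univ := by
    rw [hB, hA]
    exact fun z hz => hz.1.1
  have m1 : AEStronglyMeasurable (B.indicator fun z => fF z ^ 2)
      ((volume : Measure ℝ).prod (volume : Measure V)) := by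
    rw [aestronglyMeasurable_indicator_iff hBm]
    exact ((c1.mono hBs).pow 2).aestronglyMeasurable hBm
  have m2 := m1.integral_prod_right'
  refine (m2.restrict (s := W)).congr ?_
  rw [EventuallyEq, ae_restrict_iff' hW]
  refine ae_of_all _ fun t ht => ?_
  have hG' := hWG ht
  unfold FX
  rw [← integral_indicator measurableSet_ball]
  congr 1
  funext x
  by_cases hx : x ∈ ball a (r / 2)
  · rw [indicator_of_mem hx]
    unfold inw
    by_cases hneg : (nsq (u t) x + 2 * (p t x - pav (p t) a r)) * fl (ψ t) (u t) x < 0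
    · rw [if_pos hneg, indicator_of_mem]
      · rw [hfF]
      · rw [hB, hA, hhF]
        exact ⟨⟨⟨hG', mem_univ _⟩, hneg⟩, ht, hx⟩
    · rw [if_neg hneg, indicator_of_notMem]
      · simp
      · rw [hB, hA, hhF]
        exact fun hz => hneg hz.1.2
  · rw [indicator_of_notMem hx, indicator_of_notMem]
    rw [hB]
    exact fun hz => hx hz.2.2

/-- Integrability of the flux of volume. -/
lemma FX_int {κ μ : ℝ} (h : Turb 1 T E D G u p) {c ρ : ℝ}
    (hρ : 0 < ρ) (hc0 : 0 ≤ c) (hc : c ≤ 1) {ψ : ℝ → V → ℝ} (hF : Fol κ μ c ρ t₀ x₀ ψ) :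
    IntegrableOn (fun t => FX (ψ t) x₀ ρ (u t) (p t) ^ 2) (Wn G t₀ ρ) := by
  have hW : MeasurableSet (Wn G t₀ ρ) := (Wn_open h.openG _).measurableSet
  obtain ⟨C, hC, hA⟩ := start_A ρ hρ
  have hA1 := (hA T E D G u p h t₀ x₀).1
  obtain ⟨K, hK⟩ : ∃ K, K = 40 * ρ ^ 2 * (ρ * (C * (E ^ 2 + D + 1))) := ⟨_, rfl⟩
  have hbd : ∀ t ∈ Wn G t₀ ρ, FX (ψ t) x₀ ρ (u t) (p t) ≤ K := by
    intro t ht
    have h1 := FX_le hF hρ hc0 hc (t := t) ht.2 (h.spv ht.1).1 (h.sp ht.1).smooth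
    rw [hK]
    exact h1.trans (mul_le_mul_of_nonneg_left (hA1 t ht) (by positivity))
  obtain ⟨i1, -⟩ := Wn_const (G := G) (t₀ := t₀) (r := ρ) (c := K ^ 2) (sq_nonneg _)
  refine Integrable.mono' i1 ?_ ?_
  · exact (FX_meas h.openG h.smooth_u h.smooth_p hF.smooth x₀ ρ hW inter_subset_left).pow 2
  · rw [ae_restrict_iff' hW]
    refine ae_of_all _ fun t ht => ?_
    have h0 : 0 ≤ FX (ψ t) x₀ ρ (u t) (p t) := FX_nn _ _ _ _ _
    rw [Real.norm_eq_abs, abs_of_nonneg (sq_nonneg _)]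
    exact pow_le_pow_left₀ h0 (hbd t ht) 2

/-- Measurability of the flux of energy. -/
lemma FI_meas (hG : IsOpen G)
    (hu : ContDiffOn ℝ ∞ (fun z : ℝ × V => u z.1 z.2) (G ×ˢ univ))
    (hp : ContDiffOn ℝ ∞ (fun z : ℝ × V => p z.1 z.2) (G ×ˢ univ)) {ψ : ℝ → V → ℝ}
    (hψ : ContDiff ℝ ∞ (fun z : ℝ × V => ψ z.1 z.2)) (a : V) (r : ℝ) :
    ContinuousOn (fun t => FI (ψ t) a r (u t) (p t)) G := by
  have c1 : ContinuousOn (fun z : ℝ × V => fl (ψ z.1) (u z.1) z.2) (G ×ˢ univ) := by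
    unfold fl
    refine continuousOn_finsetSum _ fun i _ => ContinuousOn.mul ?_ ?_
    · exact (comp_joint hu i).continuousOn
    · exact (pd_joint hG hψ.contDiffOn i).continuousOn
  have c2 : ContinuousOn (fun z : ℝ × V => pav (p z.1) a r) (G ×ˢ univ) :=
    (pav_cont hG hp a r).comp continuous_fst.continuousOn fun z hz => hz.1
  have c3 : ContinuousOn (fun z : ℝ × V => ngf (ψ z.1) (u z.1) (p z.1) (pav (p z.1) a r) z.2)
      (G ×ˢ univ) := by
    unfold ngf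
    have c4 : ContinuousOn (fun z : ℝ × V => -((nsq (u z.1) z.2
        + 2 * (p z.1 z.2 - pav (p z.1) a r)) * fl (ψ z.1) (u z.1) z.2)) (G ×ˢ univ) :=
      (((nsq_joint hu).continuousOn.add (continuousOn_const.mul
        (hp.continuousOn.sub c2))).mul c1).neg
    exact (continuous_const.max continuous_id).comp_continuousOn c4
  unfold FI
  exact pint_cont hG c3 a (r / 2)

end

end Pool.Agent.N982.MC
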