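import Pool.Agent.N982.MC.Step

/-!
The energy step.
-/

set_option autoImplicit false

open MeasureTheory Set Metric Filter Topology
open scoped ContDiff

namespace Pool.Agent.N982.MC

open H459R3.NS W221.NS Pool.Agent.Y8

/-- From initial segments to the whole set. -/
lemma lim_seg {W : Set ℝ} (hW : IsOpen W) {f : ℝ → ℝ} {C : ℝ} (hC : 0 ≤ C)
    (hf : IntegrableOn f W) (hn : ∀ t ∈ W, 0 ≤ f t)
    (h : ∀ t ∈ W, ∫ τ in W ∩ Iio t, f τ ≤ C) : ∫ τ in W, f τ ≤ C := by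
  obtain ⟨S, hSd⟩ : ∃ S : {q : ℚ // ∃ t ∈ W, (q : ℝ) < t} → Set ℝ,
    S = fun q => W ∩ Iio (q.1 : ℝ) := ⟨_, rfl⟩
  have hU : ⋃ q, S q = W := by
    apply Subset.antisymm
    · refine iUnion_subset fun q => ?_
      rw [hSd]
      exact inter_subset_left
    · intro τ hτ
      obtain ⟨ε, hε, hball⟩ := Metric.isOpen_iff.1 hW τ hτ
      obtain ⟨q, hq1, hq2⟩ := exists_rat_btwn (show τ < τ + ε / 2 by linarith)
      have ht : τ + ε / 2 ∈ W := by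
        apply hball
        rw [Real.ball_eq_Ioo]
        constructor <;> linarith
      rw [mem_iUnion]
      refine ⟨⟨q, τ + ε / 2, ht, hq2⟩, ?_⟩
      rw [hSd]
      exact ⟨hτ, hq1⟩
  have hdir : Directed (· ⊆ ·) S := by
    intro q r
    rcases le_total q.1 r.1 with hqr | hqr
    · refine ⟨r, ?_, Subset.rfl⟩
      rw [hSd]
      exact inter_subset_inter_right _ (Iio_subset_Iio (by exact_mod_cast hqr))
    · refine ⟨q, Subset.rfl, ?_⟩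
      rw [hSd]
      exact inter_subset_inter_right _ (Iio_subset_Iio (by exact_mod_cast hqr))
  have hnn : 0 ≤ᵐ[volume.restrict W] f := by
    rw [EventuallyLE, ae_restrict_iff' hW.measurableSet]
    exact ae_of_all _ hn
  have h1 : ∫⁻ τ in W, ENNReal.ofReal (f τ) ≤ ENNReal.ofReal C := by
    rw [← hU, setLIntegral_iUnion_of_directed _ hdir]
    refine iSup_le fun q => ?_
    obtain ⟨t, ht, hqt⟩ := q.2
    have hsub : S q ⊆ W ∩ Iio t := by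
      rw [hSd]
      exact inter_subset_inter_right _ (Iio_subset_Iio hqt.le)
    refine (lintegral_mono_set hsub).trans ?_
    have hi : IntegrableOn f (W ∩ Iio t) := hf.mono_set inter_subset_left
    have hn2 : 0 ≤ᵐ[volume.restrict (W ∩ Iio t)] f :=
      ae_restrict_of_ae_restrict_of_subset inter_subset_left hnn
    rw [← ofReal_integral_eq_lintegral_ofReal hi hn2]
    exact ENNReal.ofReal_le_ofReal (h t ht)
  rw [← ofReal_integral_eq_lintegral_ofReal hf hnn] at h1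
  exact (ENNReal.ofReal_le_ofReal_iff hC).1 h1

section

variable {G : Set ℝ} {t₀ : ℝ} {x₀ : V} {R : ℝ} {u : ℝ → V → V} {p : ℝ → V → ℝ} {ρ a d : ℝ}

lemma seg_ae (h : LS G t₀ x₀ R u p) {s t : ℝ} (hs : s ∈ G) (ht : t ∈ G)
    (h1 : t₀ - ρ ^ 2 ≤ s) (h2 : t ≤ t₀) : Ioo s t ≤ᵐ[volume] Wn G t₀ ρ := by
  rw [ae_le_set]
  refine measure_mono_null ?_ (h.full s hs t ht)
  intro τ hτ
  refine ⟨hτ.1, fun hG => hτ.2 ⟨hG, ?_, ?_⟩⟩
  · linarith [hτ.1.1]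
  · linarith [hτ.1.2]

lemma ex_early (h : LS G t₀ x₀ R u p) (hρ : 0 < ρ) (hρR : ρ ≤ R) :
    ∃ s ∈ G, t₀ - ρ ^ 2 < s ∧ s < t₀ - ρ ^ 2 / 16 := by
  by_contra hc
  push Not at hc
  have hρ2 : 0 < ρ ^ 2 := by positivity
  have hR2 : ρ ^ 2 ≤ R ^ 2 := pow_le_pow_left₀ hρ.le hρR 2
  have h1 : Ioo (t₀ - ρ ^ 2) (t₀ - ρ ^ 2 / 16) ⊆ Ioo (t₀ - R ^ 2) t₀ \ G := by
    intro s hs
    refine ⟨⟨by linarith [hs.1], by linarith [hs.2]⟩, fun hG => ?_⟩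
    exact absurd (hc s hG hs.1) (not_le.2 hs.2)
  have h2 := measure_mono_null h1 h.left
  rw [Real.volume_Ioo, ENNReal.ofReal_eq_zero] at h2
  linarith

/-- The majorant of the energy production. -/
lemma DD_maj {κ μ : ℝ} (hκ : 0 < κ) (hκ1 : κ ≤ 3) (hμ : 0 < μ) :
    ∃ C₀ : ℝ, 0 < C₀ ∧ ∀ σ : ℝ, 0 < σ → σ ^ 2 ≤ 1 / 32 → ∃ C₁ : ℝ, 0 < C₁ ∧
    ∀ (G : Set ℝ) (t₀ : ℝ) (x₀ : V) (R : ℝ) (u : ℝ → V → V) (p : ℝ → V → ℝ),
      LS G t₀ x₀ R u p → ∀ ρ a θ c N : ℝ, 0 < ρ → ρ ≤ R → 0 < a →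
        c ^ 2 ≤ μ / 64 → PA G t₀ x₀ u ρ a →
        ∀ (ψ : ℝ → V → ℝ) (f : ℝ → ℝ), Fol κ μ c ρ t₀ x₀ ψ →
          IntegrableOn f (Wn G t₀ ρ) → (∀ t ∈ Wn G t₀ ρ, FI (ψ t) x₀ ρ (u t) (p t) ≤ f t) →
          ∫ t in Wn G t₀ ρ, f t ≤ θ * ρ ^ 3 * N →
          ∃ J : ℝ → ℝ, IntegrableOn J (Wn G t₀ ρ) ∧ (∀ t ∈ Wn G t₀ ρ, 0 ≤ J t) ∧
            ∫ t in Wn G t₀ ρ, J t ≤ ρ * (C₀ * a + C₁ * θ * N) ∧
            ∀ t ∈ Wn G t₀ ρ,
              DD 1 u p (Ph (1 + κ) (μ / 64) σ ρ t₀ ψ) t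
                + 2 * ∫ x, gsq (u t) x * Ph (1 + κ) (μ / 64) σ ρ t₀ ψ t x ≤ J t := by
  obtain ⟨Ch, hCh, hheat⟩ := Ph_heat hμ hκ hκ1
  refine ⟨2 * Ch, by positivity, ?_⟩
  intro σ hσ0 hσ
  obtain ⟨Cf, hCf, hflux⟩ := flux_in hκ hκ1 hμ hσ0 hσ
  refine ⟨Cf, by positivity, ?_⟩
  intro G t₀ x₀ R u p hLS ρ a θ c N hρ hρR ha hc hPA ψ f hF hfi hfx hfθ
  have hρ2 : 0 < ρ ^ 2 := by positivity
  have hf0 : ∀ t ∈ Wn G t₀ ρ, 0 ≤ f t := fun t ht => (FI_nn _ _ _ _ _).trans (hfx t ht)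
  obtain ⟨J, hJ⟩ : ∃ J : ℝ → ℝ, J = fun t => Ch / ρ ^ 2 * (ρ * a) + Cf / ρ ^ 2 * f t := ⟨_, rfl⟩
  obtain ⟨i1, i2⟩ := Wn_const (G := G) (t₀ := t₀) (r := ρ) (c := Ch / ρ ^ 2 * (ρ * a))
    (by positivity)
  refine ⟨J, ?_, ?_, ?_, ?_⟩
  · rw [hJ]
    exact i1.add (hfi.const_mul _)
  · intro t ht
    rw [hJ]
    have h3 := hf0 t ht
    show 0 ≤ Ch / ρ ^ 2 * (ρ * a) + Cf / ρ ^ 2 * f t
    positivity
  · rw [hJ]
    show ∫ t in Wn G t₀ ρ, (Ch / ρ ^ 2 * (ρ * a) + Cf / ρ ^ 2 * f t) ≤ _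
    have e0 : ∫ t in Wn G t₀ ρ, Cf / ρ ^ 2 * f t = Cf / ρ ^ 2 * ∫ t in Wn G t₀ ρ, f t :=
      integral_const_mul _ _
    rw [integral_add i1 (hfi.const_mul _), e0]
    have e4 : 2 * ρ ^ 2 * (Ch / ρ ^ 2 * (ρ * a)) = ρ * (2 * Ch * a) := by field_simp
    rw [e4] at i2
    have e5 : Cf / ρ ^ 2 * ∫ t in Wn G t₀ ρ, f t ≤ Cf / ρ ^ 2 * (θ * ρ ^ 3 * N) :=
      mul_le_mul_of_nonneg_left hfθ (by positivity)
    have e6 : Cf / ρ ^ 2 * (θ * ρ ^ 3 * N) = ρ * (Cf * θ * N) := by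
      field_simp
    rw [e6] at e5
    calc _ ≤ ρ * (2 * Ch * a) + ρ * (Cf * θ * N) := add_le_add i2 e5
      _ = _ := by ring
  · intro t ht
    have hus := sl_sm hLS.smooth_u ht.1
    have hps := sl_sm hLS.smooth_p ht.1
    have htw : t ∈ Ioo (t₀ - ρ ^ 2) t₀ := ht.2
    have h3 := hflux ψ (u t) (p t) hus hps x₀ ρ t₀ t c hF hρ hc htw
      (fun x hx => hLS.div t ht.1 x (ball_subset_ball hρR hx))
    have htt : t < t₀ + 2 * σ ^ 2 * ρ ^ 2 := by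
      have : 0 < σ ^ 2 * ρ ^ 2 := by positivity
      linarith [htw.2]
    -- the heat part
    have hsm := Ph_smooth (α := 1 + κ) (w := μ / 64) (σ := σ) (t₀ := t₀) hF.smooth hρ
    have h1 : ∫ x, nsq (u t) x * (deriv (fun s => Ph (1 + κ) (μ / 64) σ ρ t₀ ψ s x) t
        + 1 * lap (Ph (1 + κ) (μ / 64) σ ρ t₀ ψ t) x) ≤ Ch / ρ ^ 2 * (ρ * a) := by
      have hdt : Continuous fun x => deriv (fun s => Ph (1 + κ) (μ / 64) σ ρ t₀ ψ s x) t :=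
        sl_ct (H := Iio (t₀ + 2 * σ ^ 2 * ρ ^ 2))
          (F := fun t x => deriv (fun s => Ph (1 + κ) (μ / 64) σ ρ t₀ ψ s x) t)
          (dt_joint isOpen_Iio hsm).continuousOn htt
      have hlp : Continuous fun x => lap (Ph (1 + κ) (μ / 64) σ ρ t₀ ψ t) x :=
        sl_ct (H := Iio (t₀ + 2 * σ ^ 2 * ρ ^ 2))
          (F := fun t x => lap (Ph (1 + κ) (μ / 64) σ ρ t₀ ψ t) x)
          (lap_joint isOpen_Iio hsm).continuousOn htt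
      have hwin : ∀ᶠ s in 𝓝 t, s ∈ Ioo (t₀ - ρ ^ 2) t₀ := isOpen_Ioo.mem_nhds htw
      have hz : ∀ x ∉ closedBall x₀ (ρ / 4), nsq (u t) x *
          (deriv (fun s => Ph (1 + κ) (μ / 64) σ ρ t₀ ψ s x) t
          + 1 * lap (Ph (1 + κ) (μ / 64) σ ρ t₀ ψ t) x) = 0 := by
        intro x hx
        have g1 : deriv (fun s => Ph (1 + κ) (μ / 64) σ ρ t₀ ψ s x) t = 0 := by
          have : (fun s => Ph (1 + κ) (μ / 64) σ ρ t₀ ψ s x) =ᶠ[𝓝 t] fun _ => 0 := by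
            filter_upwards [hwin] with s hs
            exact Ph_out hF hμ hρ hc hs (fun h => hx (ball_subset_closedBall h))
          rw [this.deriv_eq]
          simp
        have hop : IsOpen (closedBall x₀ (ρ / 4))ᶜ := isClosed_closedBall.isOpen_compl
        have g2 : ∀ y ∈ (closedBall x₀ (ρ / 4))ᶜ,
            Ph (1 + κ) (μ / 64) σ ρ t₀ ψ t y = (fun _ => (0 : ℝ)) y := fun y hy =>
          Ph_out hF hμ hρ hc htw (fun h => hy (ball_subset_closedBall h))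
        have g3 : lap (Ph (1 + κ) (μ / 64) σ ρ t₀ ψ t) x = 0 := by
          unfold lap
          refine Finset.sum_eq_zero fun j _ => ?_
          rw [Pool.Agent.W240.ME.pd_congr' hop
            (Pool.Agent.W240.ME.pd_congr' hop g2 j) j x hx]
          have : pd j (fun _ : V => (0 : ℝ)) = fun _ => 0 := by
            funext y
            exact Pool.Agent.W240.ME.pd_const 0 j y
          rw [this, Pool.Agent.W240.ME.pd_const]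
        rw [g1, g3]
        ring
      have hcb : closedBall x₀ (ρ / 4) ⊆ ball x₀ ρ := closedBall_subset_ball (by linarith)
      rw [← ball_int_eq (a := x₀) (R := ρ) fun x hx => hz x fun h => hx (hcb h)]
      have hnc := (nsq_sm hus).continuous
      calc _ ≤ ∫ x in ball x₀ ρ, Ch / ρ ^ 2 * nsq (u t) x := by
            refine setIntegral_mono_on
              (ballint (hnc.mul (hdt.add (continuous_const.mul hlp))) _ _)
              (ballint (continuous_const.mul hnc) _ _) measurableSet_ball fun x hx => ?_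
            show nsq (u t) x * (_ + 1 * _) ≤ Ch / ρ ^ 2 * nsq (u t) x
            rw [one_mul, mul_comm (Ch / ρ ^ 2)]
            exact mul_le_mul_of_nonneg_left (hheat ψ σ ρ t₀ t c x₀ x hF hρ hσ0 hσ htw hx)
              (nsq_nn _ _)
        _ = Ch / ρ ^ 2 * A2 x₀ ρ (u t) := integral_const_mul _ _
        _ ≤ _ := mul_le_mul_of_nonneg_left (hPA.1 t ht) (by positivity)
    have h4 : Cf / ρ ^ 2 * FI (ψ t) x₀ ρ (u t) (p t) ≤ Cf / ρ ^ 2 * f t :=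
      mul_le_mul_of_nonneg_left (hfx t ht) (by positivity)
    unfold DD
    rw [hJ]
    show -(2 * 1) * (∫ x, gsq (u t) x * Ph (1 + κ) (μ / 64) σ ρ t₀ ψ t x) + _ + _
      + 2 * _ ≤ Ch / ρ ^ 2 * (ρ * a) + Cf / ρ ^ 2 * f t
    linarith

/-- Smallness of the flux of volume implies smallness of the flux of energy. -/
lemma comp_fi (hS : S_SOB) : ∃ C : ℝ, 0 < C ∧
    ∀ (G : Set ℝ) (t₀ : ℝ) (x₀ : V) (u : ℝ → V → V) (p : ℝ → V → ℝ),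
      IsOpen G → ContDiffOn ℝ ∞ (fun z : ℝ × V => u z.1 z.2) (G ×ˢ univ) →
      ContDiffOn ℝ ∞ (fun z : ℝ × V => p z.1 z.2) (G ×ˢ univ) →
      ∀ κ μ c ρ a d θ : ℝ, 0 < ρ → 0 < a → 0 < d → 0 < θ →
        PA G t₀ x₀ u ρ a → PD G t₀ x₀ p ρ d →
        ∀ (ψ : ℝ → V → ℝ) (f : ℝ → ℝ), Fol κ μ c ρ t₀ x₀ ψ →
          IntegrableOn f (Wn G t₀ ρ) → (∀ t ∈ Wn G t₀ ρ, FX (ψ t) x₀ ρ (u t) (p t) ^ 2 ≤ f t) →
          ∫ t in Wn G t₀ ρ, f t ≤ θ ^ 4 * ρ ^ 8 →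
          ∃ f' : ℝ → ℝ, IntegrableOn f' (Wn G t₀ ρ) ∧
            (∀ t ∈ Wn G t₀ ρ, FI (ψ t) x₀ ρ (u t) (p t) ≤ f' t) ∧
            ∫ t in Wn G t₀ ρ, f' t ≤ C * θ * ρ ^ 3 * (a + d) := by
  obtain ⟨C₄, hC₄, hL4⟩ := L4_bd hS
  obtain ⟨C', hC'd⟩ : ∃ C', C' = 216 * C₄ + 128 := ⟨_, rfl⟩
  have hC'1 : 1 ≤ C' := by rw [hC'd]; linarith
  have hC'0 : 0 < C' := by linarith
  refine ⟨3 * C', by positivity, ?_⟩
  intro G t₀ x₀ u p hGo hu hp κ μ c ρ a d θ hρ ha hd hθ hPA hPD ψ f hF hfi hfx hfθ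
  obtain ⟨K, hK1, hK2, hK3⟩ := hPD
  obtain ⟨hKL1, hKL2⟩ := KL_int hρ ha hPA
  obtain ⟨N, hN⟩ : ∃ N, N = ρ * (a + d) := ⟨_, rfl⟩
  have hN0 : 0 < N := by rw [hN]; positivity
  have hf0 : ∀ t ∈ Wn G t₀ ρ, 0 ≤ f t := fun t ht => (sq_nonneg _).trans (hfx t ht)
  have i3 : IntegrableOn (fun t => KL x₀ u ρ a t + K t + f t / (θ ^ 4 * ρ ^ 8)) (Wn G t₀ ρ) :=
    (hKL1.add hK1).add (hfi.div_const _)
  refine ⟨fun t => C' * (N * θ * ρ ^ 2) * (KL x₀ u ρ a t + K t + f t / (θ ^ 4 * ρ ^ 8)),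
    i3.const_mul _, ?_, ?_⟩
  · intro t ht
    have hL := L4_PA hC₄ hL4 hu hρ ha hPA ht
    have hS2 := fi_sq (hF.sm t) (sl_sm hu ht.1) (sl_sm hp ht.1) x₀ hρ
    have hP := (hK2 t ht).2
    have hk0 := (hK2 t ht).1
    have hl0 := KL_nn (x₀ := x₀) (u := u) hρ ha t
    have hFf := hfx t ht
    obtain ⟨S, hSd⟩ : ∃ S, S = FI (ψ t) x₀ ρ (u t) (p t) := ⟨_, rfl⟩
    obtain ⟨k, hk⟩ : ∃ k, k = K t := ⟨_, rfl⟩
    obtain ⟨l, hl⟩ : ∃ l, l = KL x₀ u ρ a t := ⟨_, rfl⟩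
    obtain ⟨P, hPd⟩ : ∃ P, P = Pi2 (p t) x₀ ρ := ⟨_, rfl⟩
    obtain ⟨L, hLd⟩ : ∃ L, L = L4 x₀ (ρ / 2) (u t) := ⟨_, rfl⟩
    obtain ⟨F, hFd⟩ : ∃ F, F = FX (ψ t) x₀ ρ (u t) (p t) := ⟨_, rfl⟩
    obtain ⟨g, hg⟩ : ∃ g, g = f t := ⟨_, rfl⟩
    have hP0 : 0 ≤ P := hPd ▸ Pi2_nn _ _ _
    have hL0 : 0 ≤ L := hLd ▸ L4_nn _ _ _
    have hF0 : 0 ≤ F := hFd ▸ FX_nn _ _ _ _ _
    rw [← hSd] at hS2 ⊢
    show S ≤ C' * (N * θ * ρ ^ 2) * (KL x₀ u ρ a t + K t + f t / (θ ^ 4 * ρ ^ 8))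
    rw [← hk] at hP hk0
    rw [← hl] at hL hl0
    rw [← hPd] at hP hS2
    rw [← hLd] at hL hS2
    rw [← hFd] at hFf hS2
    rw [← hg] at hFf
    rw [← hk, ← hl, ← hg]
    have hg0 : 0 ≤ g := (sq_nonneg _).trans hFf
    obtain ⟨X, hX⟩ : ∃ X, X = g / (θ ^ 4 * ρ ^ 8) := ⟨_, rfl⟩
    have hX0 : 0 ≤ X := by rw [hX]; positivity
    have hgX : g = θ ^ 4 * ρ ^ 8 * X := by rw [hX]; field_simp
    rw [← hX]
    have hkl0 : 0 ≤ l + k := by linarith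
    have t1 : (2 * L + 8 * P) ^ 2 ≤ C' * N ^ 4 * (l + k) ^ 3 := by
      have s1 : (2 * L + 8 * P) ^ 2 ≤ 8 * L ^ 2 + 128 * P ^ 2 := by
        nlinarith [sq_nonneg (2 * L - 8 * P)]
      have s2 : (ρ * a) ^ 4 ≤ N ^ 4 := by
        rw [hN]
        exact pow_le_pow_left₀ (by positivity) (by nlinarith) 4
      have s3 : (ρ * d) ^ 4 ≤ N ^ 4 := by
        rw [hN]
        exact pow_le_pow_left₀ (by positivity) (by nlinarith) 4
      have s4 : l ^ 3 ≤ (l + k) ^ 3 := pow_le_pow_left₀ hl0 (by linarith) 3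
      have s5 : k ^ 3 ≤ (l + k) ^ 3 := pow_le_pow_left₀ hk0 (by linarith) 3
      have s6 : 27 * C₄ * (ρ * a) ^ 4 * l ^ 3 ≤ 27 * C₄ * N ^ 4 * (l + k) ^ 3 :=
        mul_le_mul (mul_le_mul_of_nonneg_left s2 (by positivity)) s4 (by positivity)
          (by positivity)
      have s7 : (ρ * d) ^ 4 * k ^ 3 ≤ N ^ 4 * (l + k) ^ 3 :=
        mul_le_mul s3 s5 (by positivity) (by positivity)
      rw [hC'd]
      nlinarith
    have t2 : S ^ 4 ≤ (C' * (N * θ * ρ ^ 2) * (l + k + X)) ^ 4 := by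
      calc S ^ 4 = (S ^ 2) ^ 2 := by ring
        _ ≤ ((2 * L + 8 * P) * F) ^ 2 := pow_le_pow_left₀ (sq_nonneg S) hS2 2
        _ = (2 * L + 8 * P) ^ 2 * F ^ 2 := by ring
        _ ≤ (C' * N ^ 4 * (l + k) ^ 3) * (θ ^ 4 * ρ ^ 8 * X) := by
            rw [← hgX]
            exact mul_le_mul t1 hFf (sq_nonneg _) (by positivity)
        _ = C' * (N * θ * ρ ^ 2) ^ 4 * ((l + k) ^ 3 * X) := by ring
        _ ≤ C' ^ 4 * (N * θ * ρ ^ 2) ^ 4 * ((l + k + X) ^ 3 * (l + k + X)) := by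
            have u1 : C' ≤ C' ^ 4 := le_self_pow₀ hC'1 (by norm_num)
            have u2 : (l + k) ^ 3 ≤ (l + k + X) ^ 3 := pow_le_pow_left₀ hkl0 (by linarith) 3
            refine mul_le_mul (mul_le_mul_of_nonneg_right u1 (by positivity)) ?_
              (by positivity) (by positivity)
            exact mul_le_mul u2 (by linarith) hX0 (by positivity)
        _ = _ := by ring
    exact le_of_pow_le_pow_left₀ (by norm_num : (4 : ℕ) ≠ 0) (by positivity) t2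
  · rw [integral_const_mul]
    have e1 : ∫ t in Wn G t₀ ρ, (KL x₀ u ρ a t + K t + f t / (θ ^ 4 * ρ ^ 8))
        = (∫ t in Wn G t₀ ρ, KL x₀ u ρ a t) + (∫ t in Wn G t₀ ρ, K t)
          + (∫ t in Wn G t₀ ρ, f t) / (θ ^ 4 * ρ ^ 8) := by
      have j1 : IntegrableOn (fun t => KL x₀ u ρ a t + K t) (Wn G t₀ ρ) := hKL1.add hK1
      rw [integral_add j1 (hfi.div_const _), integral_add hKL1 hK1, integral_div]
    have e2 : (∫ t in Wn G t₀ ρ, f t) / (θ ^ 4 * ρ ^ 8) ≤ 1 := by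
      rw [div_le_one (by positivity)]
      exact hfθ
    have e3 : ∫ t in Wn G t₀ ρ, (KL x₀ u ρ a t + K t + f t / (θ ^ 4 * ρ ^ 8)) ≤ 3 := by
      rw [e1]
      linarith
    refine (mul_le_mul_of_nonneg_left e3 (by positivity)).trans (le_of_eq ?_)
    rw [hN]
    ring

end

end Pool.Agent.N982.MC
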