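import Pool.Agent.N982.MC.StepE

/-!
The iteration: a positive proportion of good scales.
-/

set_option autoImplicit false

open MeasureTheory Set Metric Filter Topology
open scoped ContDiff

namespace Pool.Agent.N982.MC

open H459R3.NS W221.NS Pool.Agent.Y8

/-- The bound of the exponential factor. -/
lemma e1_le {κ σ : ℝ} (hκ : 0 < κ) (hκ1 : κ ≤ 3 / 2) (hσ : 0 < σ) :
    Real.exp ((1 + κ) * Real.log (3 * σ ^ 2) / 2) ≤ 4 * (σ * σ ^ κ) := by
  have h1 : Real.log (3 * σ ^ 2) = Real.log 3 + 2 * Real.log σ := by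
    rw [Real.log_mul (by norm_num) (by positivity), Real.log_pow]
    norm_num
  have h2 : (1 + κ) * Real.log (3 * σ ^ 2) / 2
      = (1 + κ) / 2 * Real.log 3 + (Real.log σ + κ * Real.log σ) := by
    rw [h1]
    ring
  rw [h2, Real.exp_add, Real.exp_add, Real.exp_log hσ]
  have h3 : Real.exp (κ * Real.log σ) = σ ^ κ := by
    rw [Real.rpow_def_of_pos hσ, mul_comm]
  rw [h3]
  refine mul_le_mul_of_nonneg_right ?_ (by positivity)
  have h4 : Real.exp ((1 + κ) / 2 * Real.log 3) ≤ Real.exp (5 / 4 * Real.log 3) := by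
    apply Real.exp_le_exp.2
    apply mul_le_mul_of_nonneg_right _ (Real.log_nonneg (by norm_num))
    linarith
  refine h4.trans ?_
  have h5 : Real.exp (5 / 4 * Real.log 3) = (3 : ℝ) ^ (5 / 4 : ℝ) := by
    rw [Real.rpow_def_of_pos (by norm_num : (0 : ℝ) < 3), mul_comm]
  rw [h5]
  have h6 : ((3 : ℝ) ^ (5 / 4 : ℝ)) ^ 4 ≤ (4 : ℝ) ^ 4 := by
    rw [← Real.rpow_natCast, ← Real.rpow_mul (by norm_num)]
    norm_num
  exact le_of_pow_le_pow_left₀ (by norm_num) (by norm_num) h6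

/-- The choice of the ratio of the scales. -/
lemma ex_sig {C δ a : ℝ} (hC : 0 < C) (hδ : 0 < δ) (ha : 0 < a) :
    ∃ σ : ℝ, 0 < σ ∧ σ ≤ a ∧ σ < 1 ∧ C * σ ^ δ ≤ 1 / 2 := by
  obtain ⟨s, hs⟩ : ∃ s : ℝ, s = (1 / (2 * C)) ^ (1 / δ) := ⟨_, rfl⟩
  have hs0 : 0 < s := by rw [hs]; positivity
  refine ⟨min (min s a) (1 / 2), by positivity, (min_le_left _ _).trans (min_le_right _ _),
    (min_le_right _ _).trans_lt (by norm_num), ?_⟩
  have h1 : (min (min s a) (1 / 2)) ^ δ ≤ s ^ δ :=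
    Real.rpow_le_rpow (by positivity) ((min_le_left _ _).trans (min_le_left _ _)) hδ.le
  have h2 : s ^ δ = 1 / (2 * C) := by
    rw [hs, ← Real.rpow_mul (by positivity), one_div_mul_cancel hδ.ne', Real.rpow_one]
  rw [h2] at h1
  calc C * (min (min s a) (1 / 2)) ^ δ ≤ C * (1 / (2 * C)) := mul_le_mul_of_nonneg_left h1 hC.le
    _ = 1 / 2 := by field_simp

/-- One step, at a good and at a bad scale. -/
theorem two_steps {κ μ : ℝ} (hκ : 0 < κ) (hκ1 : κ ≤ 3 / 2) (hμ : 0 < μ) (hS : S_SOB)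
    (hR : S_RIESZ) (hH : S_HARM) : ∃ C : ℝ, 1 ≤ C ∧ ∀ σ : ℝ, 0 < σ → σ ≤ 1 / 64 →
      24 * σ ^ 2 ≤ μ / 64 → ∃ θ l : ℝ, 0 < θ ∧ 0 < l ∧ l ≤ 1 ∧
    ∀ (G : Set ℝ) (t₀ : ℝ) (x₀ : V) (R : ℝ) (u : ℝ → V → V) (p : ℝ → V → ℝ),
      LS G t₀ x₀ R u p → ∀ ρ a d y : ℝ, 0 < ρ → ρ ≤ R → 0 < a → 0 < d → a + l * d ≤ y →
        PA G t₀ x₀ u ρ a → PD G t₀ x₀ p ρ d →
        (∃ a' d' : ℝ, 0 < a' ∧ 0 < d' ∧ a' + l * d' ≤ C * σ⁻¹ * y ∧
          PA G t₀ x₀ u (σ * ρ) a' ∧ PD G t₀ x₀ p (σ * ρ) d') ∧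
        (HF G t₀ x₀ u p κ μ σ θ ρ (a + d) → ∃ a' d' : ℝ, 0 < a' ∧ 0 < d' ∧
          a' + l * d' ≤ C * σ ^ κ * y ∧
          PA G t₀ x₀ u (σ * ρ) a' ∧ PD G t₀ x₀ p (σ * ρ) d') := by
  obtain ⟨C₀, hC₀, hE⟩ := stepE hκ (by linarith) hμ
  obtain ⟨CD, hCD, hPD⟩ := stepD hS hR hH
  refine ⟨4 * C₀ + 1 + CD, by linarith, ?_⟩
  intro σ hσ hσ1 hσ2
  obtain ⟨C₁, hC₁, hE⟩ := hE σ hσ hσ1 hσ2
  obtain ⟨k, hk⟩ : ∃ k, k = σ ^ κ := ⟨_, rfl⟩
  have hk0 : 0 < k := by rw [hk]; positivity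
  have hk1 : k ≤ 1 := by rw [hk]; exact Real.rpow_le_one hσ.le (by linarith) hκ.le
  obtain ⟨l, hl⟩ : ∃ l, l = σ * k := ⟨_, rfl⟩
  have hl0 : 0 < l := by rw [hl]; positivity
  have hl1 : l ≤ 1 := by rw [hl]; nlinarith
  obtain ⟨θ, hθ⟩ : ∃ θ, θ = k * l / C₁ := ⟨_, rfl⟩
  have hθ0 : 0 < θ := by rw [hθ]; positivity
  have hθC : C₁ * θ = k * l := by rw [hθ]; field_simp
  have hsk : σ * √σ ≤ k := by
    have h1 : σ * √σ = σ ^ (3 / 2 : ℝ) := by
      rw [Real.sqrt_eq_rpow, show (3 / 2 : ℝ) = 1 + 1 / 2 by norm_num, Real.rpow_add hσ,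
        Real.rpow_one]
    rw [h1, hk]
    exact Real.rpow_le_rpow_of_exponent_ge hσ (by linarith) hκ1
  have hss : σ * √σ ≤ σ⁻¹ := by
    have h1 : √σ ≤ 1 := Real.sqrt_le_one.2 (by linarith)
    have h2 : 1 ≤ σ⁻¹ := (one_le_inv₀ hσ).2 (by linarith)
    nlinarith [Real.sqrt_nonneg σ]
  refine ⟨θ, l, hθ0, hl0, hl1, ?_⟩
  intro G t₀ x₀ R u p hLS ρ a d y hρ hρR ha hd hy hA hD
  have hD' := hPD G t₀ x₀ R u p hLS ρ a d hρ hρR ha hd hA hD σ hσ (by linarith)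
  have hsi : 0 < σ⁻¹ := inv_pos.2 hσ
  have hsq : 0 < √σ := Real.sqrt_pos.2 hσ
  have hsub : Wn G t₀ (σ * ρ) ⊆ Wn G t₀ ρ := Wn_mono (by positivity) (by nlinarith)
  have hd'0 : 0 < CD * (σ * √σ * d + σ⁻¹ * a) := by positivity
  constructor
  · refine ⟨σ⁻¹ * a, CD * (σ * √σ * d + σ⁻¹ * a), by positivity, hd'0, ?_, ?_, hD'⟩
    · have h1 : l * (CD * (σ * √σ * d + σ⁻¹ * a)) ≤ CD * σ⁻¹ * (l * d + a) := by
        have h2 : l * (σ * √σ * d) ≤ σ⁻¹ * (l * d) := by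
          have := mul_le_mul_of_nonneg_right hss (show 0 ≤ l * d by positivity)
          linarith
        have h3 : l * (σ⁻¹ * a) ≤ σ⁻¹ * a := mul_le_of_le_one_left (by positivity) hl1
        calc l * (CD * (σ * √σ * d + σ⁻¹ * a))
            = CD * (l * (σ * √σ * d) + l * (σ⁻¹ * a)) := by ring
          _ ≤ CD * (σ⁻¹ * (l * d) + σ⁻¹ * a) :=
              mul_le_mul_of_nonneg_left (add_le_add h2 h3) (by linarith)
          _ = _ := by ring
      have h4 : σ⁻¹ * a ≤ 1 * σ⁻¹ * (l * d + a) := by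
        have : 0 ≤ σ⁻¹ * (l * d) := by positivity
        linarith
      have h5 : (1 + CD) * σ⁻¹ * (l * d + a) ≤ (4 * C₀ + 1 + CD) * σ⁻¹ * y := by
        have h6 : 0 ≤ l * d + a := by positivity
        apply mul_le_mul _ (by linarith) h6 (by positivity)
        apply mul_le_mul_of_nonneg_right _ hsi.le
        linarith
      linarith
    · have hus : ∀ t ∈ Wn G t₀ (σ * ρ), ContDiff ℝ ∞ (u t) := fun t ht =>
        sl_sm hLS.smooth_u ht.1
      have hbs : ball x₀ (σ * ρ) ⊆ ball x₀ ρ := ball_subset_ball (by nlinarith)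
      have e : σ * ρ * (σ⁻¹ * a) = ρ * a := by field_simp
      have hBi : IntegrableOn (fun t => B2 x₀ (σ * ρ) (u t)) (Wn G t₀ (σ * ρ)) := by
        refine Integrable.mono' (hA.2.1.mono_set hsub) ?_ ?_
        · have h1 : ContinuousOn (fun t => B2 x₀ (σ * ρ) (u t)) G :=
            pint_cont hLS.openG (gsq_joint hLS.openG hLS.smooth_u).continuousOn x₀ (σ * ρ)
          exact (h1.mono inter_subset_left).aestronglyMeasurable
            (Wn_open hLS.openG _).measurableSet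
        · rw [ae_restrict_iff' (Wn_open hLS.openG _).measurableSet]
          refine ae_of_all _ fun t ht => ?_
          rw [Real.norm_eq_abs, abs_of_nonneg (B2_nn _ _ _)]
          exact B2_mn (hus t ht) hbs
      refine ⟨fun t ht => ?_, hBi, ?_⟩
      · rw [e]
        exact (A2_mn (hus t ht) hbs).trans (hA.1 t (hsub ht))
      · rw [e]
        calc ∫ t in Wn G t₀ (σ * ρ), B2 x₀ (σ * ρ) (u t)
            ≤ ∫ t in Wn G t₀ (σ * ρ), B2 x₀ ρ (u t) :=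
              setIntegral_mono_on hBi (hA.2.1.mono_set hsub)
                (Wn_open hLS.openG _).measurableSet fun t ht => B2_mn (hus t ht) hbs
          _ ≤ ∫ t in Wn G t₀ ρ, B2 x₀ ρ (u t) :=
              setIntegral_mono_set hA.2.1 (ae_of_all _ fun t => B2_nn _ _ _)
                hsub.eventuallyLE
          _ ≤ ρ * a := hA.2.2
  · intro hHF
    have hA' := hE G t₀ x₀ R u p hLS ρ a θ (a + d) hρ hρR ha hθ0 (by positivity) hA hHF
    have he1 := e1_le hκ hκ1 hσ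
    rw [← hk] at he1
    have hee : C₀ * Real.exp ((1 + κ) * Real.log (3 * σ ^ 2) / 2) / σ * a ≤ 4 * C₀ * k * a := by
      apply mul_le_mul_of_nonneg_right _ ha.le
      rw [div_le_iff₀ hσ]
      calc C₀ * Real.exp ((1 + κ) * Real.log (3 * σ ^ 2) / 2) ≤ C₀ * (4 * (σ * k)) :=
            mul_le_mul_of_nonneg_left he1 hC₀.le
        _ = _ := by ring
    refine ⟨_, _, ?_, hd'0, ?_, hA', hD'⟩
    · positivity
    · rw [← hk]
      have h1 : l * (CD * (σ * √σ * d + σ⁻¹ * a)) ≤ CD * k * (l * d + a) := by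
        have h2 : l * (σ * √σ * d) ≤ k * (l * d) := by
          have := mul_le_mul_of_nonneg_right hsk (show 0 ≤ l * d by positivity)
          linarith
        have h3 : l * (σ⁻¹ * a) = k * a := by
          rw [hl]
          field_simp
        calc l * (CD * (σ * √σ * d + σ⁻¹ * a))
            = CD * (l * (σ * √σ * d) + l * (σ⁻¹ * a)) := by ring
          _ ≤ CD * (k * (l * d) + k * a) := by
              rw [h3]
              exact mul_le_mul_of_nonneg_left (by linarith) (by linarith)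
          _ = _ := by ring
      have h4 : C₁ * θ * (a + d) ≤ k * (l * d + a) := by
        rw [hθC]
        have : k * l * a ≤ k * a := by
          have := mul_le_mul_of_nonneg_left hl1 (show 0 ≤ k * a by positivity)
          linarith
        linarith
      have h5 : 4 * C₀ * k * a ≤ 4 * C₀ * k * (l * d + a) := by
        apply mul_le_mul_of_nonneg_left _ (by positivity)
        have : 0 < l * d := by positivity
        linarith
      have h6 : (4 * C₀ + 1 + CD) * k * (l * d + a) ≤ (4 * C₀ + 1 + CD) * k * y :=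
        mul_le_mul_of_nonneg_left (by linarith) (by positivity)
      linarith

/-- A good scale. -/
def GS (G : Set ℝ) (t₀ : ℝ) (x₀ : V) (u : ℝ → V → V) (p : ℝ → V → ℝ) (κ μ c θ ρ : ℝ) : Prop :=
  ∀ a d : ℝ, 0 < a → 0 < d → PA G t₀ x₀ u ρ a → PD G t₀ x₀ p ρ d →
    HF G t₀ x₀ u p κ μ c θ ρ (a + d)

open Classical in
/-- The iteration over all scales. -/
theorem iter_all {κ μ : ℝ} (hκ : 0 < κ) (hκ1 : κ ≤ 3 / 2) (hμ : 0 < μ) (hS : S_SOB)
    (hR : S_RIESZ) (hH : S_HARM) {δ : ℝ} (hδ : 0 < δ) : ∃ σ θ : ℝ, 0 < σ ∧ σ < 1 ∧ 0 < θ ∧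
    ∀ (G : Set ℝ) (t₀ : ℝ) (x₀ : V) (R : ℝ) (u : ℝ → V → V) (p : ℝ → V → ℝ),
      LS G t₀ x₀ R u p → ∀ ρ a d : ℝ, 0 < ρ → ρ ≤ R → 0 < a → 0 < d →
        PA G t₀ x₀ u ρ a → PD G t₀ x₀ p ρ d → ∀ n : ℕ,
        (1 + δ) * n ≤ (1 + κ) * Nat.count (fun k => GS G t₀ x₀ u p κ μ σ θ (σ ^ k * ρ)) n →
          PA G t₀ x₀ u (σ ^ n * ρ) ((1 / 2) ^ n * (a + d)) := by
  obtain ⟨C, hC, hst⟩ := two_steps hκ hκ1 hμ hS hR hH
  obtain ⟨σ, hσ, hσa, hσ1, hσC⟩ := ex_sig (C := C) (δ := δ) (a := min (1 / 64) (√μ / 64))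
    (by linarith) hδ (by have := Real.sqrt_pos.2 hμ; positivity)
  have hσ64 : σ ≤ 1 / 64 := hσa.trans (min_le_left _ _)
  have hσμ : 24 * σ ^ 2 ≤ μ / 64 := by
    have h1 : σ ≤ √μ / 64 := hσa.trans (min_le_right _ _)
    have h2 := pow_le_pow_left₀ hσ.le h1 2
    rw [div_pow, Real.sq_sqrt hμ.le] at h2
    linarith
  obtain ⟨θ, l, hθ, hl, hl1, hst⟩ := hst σ hσ hσ64 hσμ
  refine ⟨σ, θ, hσ, hσ1, hθ, ?_⟩
  intro G t₀ x₀ R u p hLS ρ a d hρ hρR ha hd hA hD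
  obtain ⟨c, hc⟩ : ∃ c : ℕ → ℕ, c = Nat.count
    (fun k => GS G t₀ x₀ u p κ μ σ θ (σ ^ k * ρ)) := ⟨_, rfl⟩
  rw [← hc]
  have key : ∀ n : ℕ, ∃ a' d' : ℝ, 0 < a' ∧ 0 < d' ∧
      a' + l * d' ≤ C ^ n * σ ^ ((1 + κ) * c n - n) * (a + l * d) ∧
      PA G t₀ x₀ u (σ ^ n * ρ) a' ∧ PD G t₀ x₀ p (σ ^ n * ρ) d' := by
    intro n
    induction n with
    | zero =>
      refine ⟨a, d, ha, hd, ?_, ?_, ?_⟩
      · rw [hc]
        simp
      · simpa using hA
      · simpa using hD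
    | succ n ih =>
      obtain ⟨a', d', ha', hd', hy, hA', hD'⟩ := ih
      have hρn : 0 < σ ^ n * ρ := by positivity
      have hρnR : σ ^ n * ρ ≤ R := by
        have : σ ^ n ≤ 1 := pow_le_one₀ hσ.le hσ1.le
        nlinarith
      obtain ⟨hb, hg⟩ := hst G t₀ x₀ R u p hLS (σ ^ n * ρ) a' d' _ hρn hρnR ha' hd' hy hA' hD'
      have e0 : σ ^ (n + 1) * ρ = σ * (σ ^ n * ρ) := by ring
      rw [e0]
      have hcs : c (n + 1) = c n + if GS G t₀ x₀ u p κ μ σ θ (σ ^ n * ρ) then 1 else 0 := by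
        rw [hc]
        exact Nat.count_succ _ n
      by_cases hgood : GS G t₀ x₀ u p κ μ σ θ (σ ^ n * ρ)
      · rw [if_pos hgood] at hcs
        obtain ⟨a2, d2, h1, h2, h3, h4, h5⟩ := hg (hgood a' d' ha' hd' hA' hD')
        refine ⟨a2, d2, h1, h2, h3.trans (le_of_eq ?_), h4, h5⟩
        have e1 : σ ^ ((1 + κ) * (c (n + 1) : ℝ) - ((n + 1 : ℕ) : ℝ))
            = σ ^ κ * σ ^ ((1 + κ) * (c n : ℝ) - (n : ℝ)) := by
          rw [← Real.rpow_add hσ]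
          congr 1
          rw [hcs]
          push_cast
          ring
        rw [e1]
        ring
      · rw [if_neg hgood, add_zero] at hcs
        obtain ⟨a2, d2, h1, h2, h3, h4, h5⟩ := hb
        refine ⟨a2, d2, h1, h2, h3.trans (le_of_eq ?_), h4, h5⟩
        have e1 : σ ^ ((1 + κ) * (c (n + 1) : ℝ) - ((n + 1 : ℕ) : ℝ))
            = σ⁻¹ * σ ^ ((1 + κ) * (c n : ℝ) - (n : ℝ)) := by
          rw [← Real.rpow_neg_one, ← Real.rpow_add hσ]
          congr 1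
          rw [hcs]
          push_cast
          ring
        rw [e1]
        ring
  intro n hn
  obtain ⟨a', d', ha', hd', hy, hA', -⟩ := key n
  refine PA_mono (by positivity) ?_ hA'
  have h1 : a' ≤ a' + l * d' := by
    have : 0 < l * d' := by positivity
    linarith
  have h2 : σ ^ ((1 + κ) * (c n : ℝ) - (n : ℝ)) ≤ σ ^ (δ * (n : ℝ)) := by
    apply Real.rpow_le_rpow_of_exponent_ge hσ hσ1.le
    linarith
  have h3 : C ^ n * σ ^ (δ * (n : ℝ)) = (C * σ ^ δ) ^ n := by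
    rw [Real.rpow_mul hσ.le, Real.rpow_natCast, mul_pow]
  have h4 : (C * σ ^ δ) ^ n ≤ (1 / 2) ^ n :=
    pow_le_pow_left₀ (by positivity) hσC n
  have h5 : a + l * d ≤ a + d := by
    have := mul_le_mul_of_nonneg_right hl1 hd.le
    linarith
  calc a' ≤ C ^ n * σ ^ ((1 + κ) * (c n : ℝ) - (n : ℝ)) * (a + l * d) := h1.trans hy
    _ ≤ C ^ n * σ ^ (δ * (n : ℝ)) * (a + d) := by
        apply mul_le_mul _ h5 (by positivity) (by positivity)
        exact mul_le_mul_of_nonneg_left h2 (by positivity)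
    _ ≤ _ := by
        rw [h3]
        exact mul_le_mul_of_nonneg_right h4 (by positivity)

end Pool.Agent.N982.MC
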