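import Pool.Agent.N982.MC.Crit

/-!
Smallness before the time `t₀` implies smallness also shortly after `t₀`.
-/

set_option autoImplicit false

open MeasureTheory Set Metric Filter Topology
open scoped ContDiff

namespace Pool.Agent.N982.MC

open H459R3.NS W221.NS Pool.Agent.Y8 Pool.Agent.Y458.NS

/-- Absolute continuity of the integral. -/
lemma abs_cont {f : ℝ → ℝ} {S : Set ℝ} (hf : IntegrableOn f S) {ε : ℝ} (hε : 0 < ε) :
    ∃ δ : ℝ, 0 < δ ∧ ∀ s t : ℝ, t - s < δ → ∀ A ⊆ S, MeasurableSet A → A ⊆ Icc s t →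
      ∫ τ in A, |f τ| ≤ ε := by
  have hfi : ∫⁻ τ in S, ENNReal.ofReal |f τ| ≠ ⊤ := by
    have h1 : IntegrableOn (fun τ => |f τ|) S := hf.abs
    rw [← ofReal_integral_eq_lintegral_ofReal h1 (ae_of_all _ fun _ => abs_nonneg _)]
    exact ENNReal.ofReal_ne_top
  obtain ⟨δ, hδ, hd⟩ := exists_pos_setLIntegral_lt_of_measure_lt hfi
    (ε := ENNReal.ofReal ε) (by positivity)
  obtain ⟨δ', hδ', hδδ⟩ : ∃ δ' : ℝ, 0 < δ' ∧ ENNReal.ofReal δ' ≤ δ := by
    rcases eq_or_ne δ ⊤ with h | h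
    · exact ⟨1, one_pos, by rw [h]; exact le_top⟩
    · exact ⟨δ.toReal, ENNReal.toReal_pos hδ.ne' h, ENNReal.ofReal_toReal_le⟩
  refine ⟨δ', hδ', fun s t hst A hAS hA hAI => ?_⟩
  have h1 : (volume.restrict S) A < δ := by
    refine lt_of_le_of_lt (Measure.restrict_le_self A) ?_
    refine lt_of_le_of_lt (measure_mono hAI) ?_
    rw [Real.volume_Icc]
    exact ((ENNReal.ofReal_lt_ofReal_iff hδ').2 hst).trans_le hδδ
  have h2 := hd A h1
  rw [Measure.restrict_restrict hA, inter_eq_left.2 hAS] at h2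
  have h3 : IntegrableOn (fun τ => |f τ|) A := (hf.mono_set hAS).abs
  rw [← ofReal_integral_eq_lintegral_ofReal h3 (ae_of_all _ fun _ => abs_nonneg _)] at h2
  exact ((ENNReal.ofReal_lt_ofReal_iff hε).1 h2).le

section

variable {T E D : ℝ} {G : Set ℝ} {u : ℝ → V → V} {p : ℝ → V → ℝ} {t₀ : ℝ} {x₀ : V}

lemma ex_G (h : Turb 1 T E D G u p) {s t : ℝ} (hst : s < t) (hs : 0 ≤ s) (ht : t ≤ T) :
    ∃ τ ∈ G, s < τ ∧ τ < t := by
  by_contra hc
  push Not at hc
  have h1 : Ioo s t ⊆ Ioo 0 T \ G := by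
    intro τ hτ
    refine ⟨⟨by linarith [hτ.1], by linarith [hτ.2]⟩, fun hG => ?_⟩
    exact absurd (hc τ hG hτ.1) (not_le.2 hτ.2)
  have h2 := measure_mono_null h1 h.fullG
  rw [Real.volume_Ioo, ENNReal.ofReal_eq_zero] at h2
  linarith

/-- The bounds extend beyond `t₀`. -/
theorem fwd (h : Turb 1 T E D G u p) (ht : t₀ < T) {ρ a : ℝ} (hρ : 0 < ρ) (hρt : ρ ^ 2 ≤ t₀)
    (ha : 0 < a) (hPA : PA G t₀ x₀ u ρ a) {η₀ : ℝ} (hη₀ : 0 < η₀) :
    ∃ η, 0 < η ∧ η < η₀ ∧ t₀ + η < T ∧ PA G (t₀ + η) x₀ u (ρ / 2) (4 * a) := by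
  have hρ2 : 0 < ρ ^ 2 := by positivity
  have hLS : LS G t₀ x₀ ρ u p := ls_turb h ht.le hρ hρt x₀
  obtain ⟨s₁, hs₁G, hs₁1, hs₁2⟩ := ex_early hLS hρ le_rfl
  obtain ⟨t₁, ht₁G, ht₁1, ht₁2⟩ := ex_G h ht (by linarith) le_rfl
  obtain ⟨b, hb⟩ : ∃ b : ContDiffBump x₀, b = ⟨ρ / 2, ρ, by positivity, by linarith⟩ := ⟨_, rfl⟩
  have hb1 : ∀ x ∈ ball x₀ (ρ / 2), b x = 1 := fun x hx =>
    b.one_of_mem_closedBall (by rw [hb]; exact ball_subset_closedBall hx)
  have hb0 : ∀ x ∉ ball x₀ ρ, b x = 0 := fun x hx => by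
    have h1 : x ∉ Function.support b := by
      rw [b.support_eq, hb]
      exact hx
    simpa using h1
  have hbn : ∀ x, 0 ≤ b x := fun x => b.nonneg
  have hbl : ∀ x, b x ≤ 1 := fun x => b.le_one
  have hbs : ContDiff ℝ ∞ (b : V → ℝ) := b.contDiff
  obtain ⟨Φ, hΦ⟩ : ∃ Φ : ℝ → V → ℝ, Φ = fun _ x => b x := ⟨_, rfl⟩
  have hΦs : ContDiffOn ℝ ∞ (fun z : ℝ × V => Φ z.1 z.2) (Ioo 0 T ×ˢ univ) := by
    rw [hΦ]
    exact (hbs.comp contDiff_snd).contDiffOn
  have hen : ∀ s ∈ G, ∀ t ∈ G, s ≤ t → IntegrableOn (DD 1 u p Φ) (Ioo s t) ∧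
      (∫ z, nsq (u t) z * b z) - (∫ z, nsq (u s) z * b z) ≤ ∫ τ in Ioo s t, DD 1 u p Φ τ := by
    intro s hs t htG hst
    have := hLS.en 0 T Φ hΦs (fun t _ z hz => by rw [hΦ]; exact hb0 z hz) s hs t htG
      (h.subG hs).1 hst (h.subG htG).2 (fun τ _ z => by rw [hΦ]; exact hbn z)
    rw [hΦ] at this ⊢
    exact this
  have hDi := (hen s₁ hs₁G t₁ ht₁G (by linarith)).1
  have hBi : IntegrableOn (fun t => B2 x₀ ρ (u t)) G :=
    B2_mov_int h (X := fun _ => x₀) continuousOn_const ρ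
  obtain ⟨δ₁, hδ₁, hd₁⟩ := abs_cont hDi (show 0 < ρ * a by positivity)
  obtain ⟨δ₂, hδ₂, hd₂⟩ := abs_cont hBi (show 0 < ρ * a by positivity)
  obtain ⟨η, hη⟩ : ∃ η, η = min (min (η₀ / 2) (min (δ₁ / 4) (δ₂ / 4)))
    (min ((t₁ - t₀) / 2) (ρ ^ 2 / 16)) := ⟨_, rfl⟩
  have hη0 : 0 < η := by
    rw [hη]
    have : 0 < (t₁ - t₀) / 2 := by linarith
    positivity
  have hη1 : η ≤ η₀ / 2 := by
    rw [hη]
    exact (min_le_left _ _).trans (min_le_left _ _)
  have hη2 : η ≤ δ₁ / 4 := by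
    rw [hη]
    exact (min_le_left _ _).trans ((min_le_right _ _).trans (min_le_left _ _))
  have hη3 : η ≤ δ₂ / 4 := by
    rw [hη]
    exact (min_le_left _ _).trans ((min_le_right _ _).trans (min_le_right _ _))
  have hη4 : η ≤ (t₁ - t₀) / 2 := by
    rw [hη]
    exact (min_le_right _ _).trans (min_le_left _ _)
  have hη5 : η ≤ ρ ^ 2 / 16 := by
    rw [hη]
    exact (min_le_right _ _).trans (min_le_right _ _)
  obtain ⟨s₂, hs₂G, hs₂1, hs₂2⟩ := ex_G h (show t₀ - η < t₀ by linarith) (by linarith) ht.le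
  have hs₂W : s₂ ∈ Wn G t₀ ρ := ⟨hs₂G, by linarith, hs₂2⟩
  have hbb : ball x₀ (ρ / 2) ⊆ ball x₀ ρ := ball_subset_ball (by linarith)
  have hqe : (ρ / 2) ^ 2 = ρ ^ 2 / 4 := by ring
  have he : ρ / 2 * (4 * a) = 2 * (ρ * a) := by ring
  refine ⟨η, hη0, by linarith, by linarith, ?_, ?_, ?_⟩
  · intro t htW
    rw [he]
    have htG := htW.1
    have h1 := htW.2.1
    have h2 := htW.2.2
    rw [hqe] at h1
    have hus := sl_sm h.smooth_u htG
    rcases lt_or_ge t t₀ with hlt | hge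
    · have h3 := hPA.1 t ⟨htG, by linarith, hlt⟩
      have h4 := A2_mn hus hbb
      have : 0 < ρ * a := by positivity
      linarith
    · obtain ⟨-, hE⟩ := hen s₂ hs₂G t htG (by linarith)
      have hsub : Ioo s₂ t ⊆ Ioo s₁ t₁ := Ioo_subset_Ioo (by linarith) (by linarith)
      have h3 : ∫ τ in Ioo s₂ t, DD 1 u p Φ τ ≤ ρ * a := by
        refine (le_abs_self _).trans ((abs_integral_le_integral_abs).trans ?_)
        exact hd₁ s₂ t (by linarith) _ hsub measurableSet_Ioo Ioo_subset_Icc_self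
      have hnc := (nsq_sm hus).continuous
      have hnc2 := (nsq_sm (sl_sm h.smooth_u hs₂G)).continuous
      have hbc : Continuous (b : V → ℝ) := hbs.continuous
      have h4 : ∫ z, nsq (u s₂) z * b z ≤ A2 x₀ ρ (u s₂) := by
        rw [← ball_int_eq (a := x₀) (R := ρ) fun x hx => by rw [hb0 x hx, mul_zero]]
        unfold A2
        refine setIntegral_mono (ballint (hnc2.mul hbc) _ _) (ballint hnc2 _ _) fun x => ?_
        exact mul_le_of_le_one_right (nsq_nn _ _) (hbl x)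
      have h5 : A2 x₀ (ρ / 2) (u t) ≤ ∫ z, nsq (u t) z * b z := by
        rw [← ball_int_eq (a := x₀) (R := ρ) (f := fun z => nsq (u t) z * b z)
          fun x hx => by rw [hb0 x hx, mul_zero]]
        have h6 : A2 x₀ (ρ / 2) (u t) = ∫ z in ball x₀ (ρ / 2), nsq (u t) z * b z := by
          unfold A2
          refine setIntegral_congr_fun measurableSet_ball fun x hx => ?_
          show nsq (u t) x = nsq (u t) x * b x
          rw [hb1 x hx, mul_one]
        rw [h6]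
        exact setIntegral_mono_set (ballint (hnc.mul hbc) _ _)
          (ae_of_all _ fun x => mul_nonneg (nsq_nn _ _) (hbn x)) hbb.eventuallyLE
      have h7 := hPA.1 s₂ hs₂W
      linarith
  · refine Integrable.mono' (hBi.mono_set inter_subset_left) ?_ ?_
    · have h1 : ContinuousOn (fun t => B2 x₀ (ρ / 2) (u t)) G :=
        pint_cont h.openG (gsq_joint h.openG h.smooth_u).continuousOn x₀ (ρ / 2)
      exact (h1.mono inter_subset_left).aestronglyMeasurable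
        (Wn_open h.openG _).measurableSet
    · rw [ae_restrict_iff' (Wn_open h.openG _).measurableSet]
      refine ae_of_all _ fun t ht => ?_
      rw [Real.norm_eq_abs, abs_of_nonneg (B2_nn _ _ _)]
      exact B2_mn (sl_sm h.smooth_u ht.1) hbb
  · rw [he]
    obtain ⟨W, hW⟩ : ∃ W, W = Wn G (t₀ + η) (ρ / 2) := ⟨_, rfl⟩
    have hWo : IsOpen W := by rw [hW]; exact Wn_open h.openG _
    have hWG : W ⊆ G := by rw [hW]; exact inter_subset_left
    rw [← hW]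
    have h1 : ∫ t in W, B2 x₀ (ρ / 2) (u t) ≤ ∫ t in W, B2 x₀ ρ (u t) := by
      refine integral_mono_of_nonneg (ae_of_all _ fun t => B2_nn _ _ _) (hBi.mono_set hWG) ?_
      rw [EventuallyLE, ae_restrict_iff' hWo.measurableSet]
      exact ae_of_all _ fun t ht => B2_mn (sl_sm h.smooth_u (hWG ht)) hbb
    have h2 : W = (W ∩ Iio t₀) ∪ (W ∩ Ici t₀) := by
      rw [← inter_union_distrib_left, Iio_union_Ici, inter_univ]
    have hd : Disjoint (W ∩ Iio t₀) (W ∩ Ici t₀) := by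
      rw [Set.disjoint_left]
      rintro x ⟨-, h3⟩ ⟨-, h4⟩
      rw [mem_Iio] at h3
      rw [mem_Ici] at h4
      linarith
    have h3 : ∫ t in W, B2 x₀ ρ (u t) = (∫ t in W ∩ Iio t₀, B2 x₀ ρ (u t))
        + ∫ t in W ∩ Ici t₀, B2 x₀ ρ (u t) := by
      conv_lhs => rw [h2]
      exact setIntegral_union hd (hWo.measurableSet.inter measurableSet_Ici)
        (hBi.mono_set (inter_subset_left.trans hWG)) (hBi.mono_set (inter_subset_left.trans hWG))
    have h4 : ∫ t in W ∩ Iio t₀, B2 x₀ ρ (u t) ≤ ρ * a := by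
      refine le_trans ?_ hPA.2.2
      refine setIntegral_mono_set hPA.2.1 (ae_of_all _ fun t => B2_nn _ _ _) ?_
      refine HasSubset.Subset.eventuallyLE ?_
      rintro t ⟨h5, h6⟩
      rw [hW] at h5
      have h7 := h5.2.1
      rw [hqe] at h7
      exact ⟨h5.1, by linarith, h6⟩
    have h5 : ∫ t in W ∩ Ici t₀, B2 x₀ ρ (u t) ≤ ρ * a := by
      refine (le_abs_self _).trans ((abs_integral_le_integral_abs).trans ?_)
      refine hd₂ t₀ (t₀ + η) (by linarith) _ (inter_subset_left.trans hWG)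
        (hWo.measurableSet.inter measurableSet_Ici) ?_
      rintro t ⟨h5, h6⟩
      rw [hW] at h5
      exact ⟨h6, h5.2.2.le⟩
    linarith

/-- The point is regular. -/
theorem reg_pt : ∃ θ : ℝ, 0 < θ ∧ ∀ (T E D : ℝ) (G : Set ℝ) (u : ℝ → V → V) (p : ℝ → V → ℝ),
    Turb 1 T E D G u p → ∀ (t₀ : ℝ) (x₀ : V) (ρ : ℝ), 0 < ρ → ρ ≤ 1 → t₀ ≤ T → ρ ^ 2 ≤ t₀ →
      PA G t₀ x₀ u ρ θ → ¬ SingPt G u t₀ x₀ := by
  obtain ⟨θ, hθ, hreg⟩ := reg_small
  refine ⟨θ / 4, by positivity, ?_⟩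
  intro T E D G u p h t₀ x₀ ρ hρ hρ1 ht₀T hρt hPA hsing
  rcases eq_or_lt_of_le ht₀T with heq | hlt
  · obtain ⟨K, hK⟩ := hreg E ρ hρ hρ1
    have h1 := hK T D G u p h t₀ x₀ ht₀T hρt (PA_mono hρ (by linarith) hPA)
    obtain ⟨s, hsG, hs1, y, hy, hKy⟩ := hsing (min ((ρ / 64) ^ 2) (ρ / 512)) (by positivity) K
    have h2 := (h.subG hsG).2
    rw [← heq] at h2
    have h3 := hs1.trans_le (min_le_left _ _)
    rw [abs_lt] at h3
    have h4 := h1 s hsG (by linarith) h2 y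
      (ball_subset_ball (min_le_right _ _) hy)
    linarith
  · obtain ⟨η, hη, hη1, hηT, hPA'⟩ := fwd h hlt hρ hρt (by positivity) hPA
      (η₀ := (ρ / 2 / 64) ^ 2 / 2) (by positivity)
    obtain ⟨K, hK⟩ := hreg E (ρ / 2) (by positivity) (by linarith)
    have e : 4 * (θ / 4) = θ := by ring
    rw [e] at hPA'
    have h1 := hK T D G u p h (t₀ + η) x₀ hηT.le (by nlinarith) hPA'
    obtain ⟨s, hsG, hs1, y, hy, hKy⟩ := hsing (min η (ρ / 2 / 512)) (by positivity) K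
    have h3 := hs1.trans_le (min_le_left _ _)
    rw [abs_lt] at h3
    have h4 := h1 s hsG (by linarith) (by linarith) y
      (ball_subset_ball (min_le_right _ _) hy)
    linarith

end

end Pool.Agent.N982.MC
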