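import Pool.Agent.N982.MC.Def
import Pool.Agent.N982.MC.Iter
import Pool.Agent.N982.MC.Fwd

/-!
The theorem for viscosity one.
-/

set_option autoImplicit false

open MeasureTheory Set Metric Filter Topology
open scoped ContDiff

namespace Pool.Agent.N982.MC

open H459R3.NS W221.NS Pool.Agent.Y8

lemma Wv_one (G : Set ℝ) (t₀ r : ℝ) : Wv 1 G t₀ r = Wn G t₀ r := by
  ext t
  constructor
  · rintro ⟨h1, h2, h3⟩
    exact ⟨h1, by linarith, h2⟩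
  · rintro ⟨h1, h2, h3⟩
    exact ⟨h1, h3, by linarith⟩

lemma FolN_one {κ μ c r t₀ : ℝ} {x₀ : V} {ψ : ℝ → V → ℝ} (h : FolN 1 κ μ c r t₀ x₀ ψ) :
    Fol κ μ c r t₀ x₀ ψ where
  smooth := h.smooth
  center := fun t ht => h.center t ht.2 (by linarith [ht.1])
  low := fun t ht => h.low t ht.2 (by linarith [ht.1])
  grad := fun t ht => h.grad t ht.2 (by linarith [ht.1])
  heat := fun t ht x hx => by
    have := h.heat t ht.2 (by linarith [ht.1]) x hx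
    linarith

/-- The energy content is bounded by the constants of the iteration. -/
lemma En_le {G : Set ℝ} {t₀ : ℝ} {x₀ : V} {u : ℝ → V → V} {p : ℝ → V → ℝ} {ρ a d : ℝ}
    (hG : IsOpen G) (hρ : 0 < ρ) (ha : 0 < a) (hd : 0 < d) (hA : PA G t₀ x₀ u ρ a)
    (hD : PD G t₀ x₀ p ρ d) : En 1 G t₀ x₀ u p ρ ≤ 2 * a + d := by
  obtain ⟨K, hK1, hK2, hK3⟩ := hD
  unfold En
  rw [Wv_one, div_le_iff₀ hρ]
  have h1 : sSup ((fun t => A2 x₀ ρ (u t)) '' Wn G t₀ ρ) ≤ ρ * a := by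
    refine Real.sSup_le ?_ (by positivity)
    rintro _ ⟨t, ht, rfl⟩
    exact hA.1 t ht
  have h2 : ∫ t in Wn G t₀ ρ, Pi2 (p t) x₀ ρ ^ (2 / 3 : ℝ) ≤ (ρ * d) ^ (4 / 3 : ℝ) := by
    have h3 : ∀ t ∈ Wn G t₀ ρ, Pi2 (p t) x₀ ρ ^ (2 / 3 : ℝ) ≤ (ρ * d) ^ (4 / 3 : ℝ) * K t := by
      intro t ht
      obtain ⟨k0, k1⟩ := hK2 t ht
      have hP := Pi2_nn (p t) x₀ ρ
      have e1 : Pi2 (p t) x₀ ρ ^ (2 / 3 : ℝ) = (Pi2 (p t) x₀ ρ ^ 2) ^ (1 / 3 : ℝ) := by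
        rw [← Real.rpow_natCast, ← Real.rpow_mul hP]
        norm_num
      have e2 : ((ρ * d) ^ 4 * K t ^ 3) ^ (1 / 3 : ℝ) = (ρ * d) ^ (4 / 3 : ℝ) * K t := by
        rw [Real.mul_rpow (by positivity) (by positivity), ← Real.rpow_natCast (ρ * d),
          ← Real.rpow_mul (by positivity), ← Real.rpow_natCast (K t), ← Real.rpow_mul k0]
        norm_num
      rw [e1, ← e2]
      exact Real.rpow_le_rpow (sq_nonneg _) k1 (by norm_num)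
    calc ∫ t in Wn G t₀ ρ, Pi2 (p t) x₀ ρ ^ (2 / 3 : ℝ)
        ≤ ∫ t in Wn G t₀ ρ, (ρ * d) ^ (4 / 3 : ℝ) * K t := by
          refine integral_mono_of_nonneg
            (ae_of_all _ fun t => Real.rpow_nonneg (Pi2_nn _ _ _) _) (hK1.const_mul _) ?_
          rw [EventuallyLE, ae_restrict_iff' (Wn_open hG _).measurableSet]
          exact ae_of_all _ h3
      _ = (ρ * d) ^ (4 / 3 : ℝ) * ∫ t in Wn G t₀ ρ, K t := integral_const_mul _ _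
      _ ≤ (ρ * d) ^ (4 / 3 : ℝ) * 1 := mul_le_mul_of_nonneg_left hK3 (by positivity)
      _ = _ := mul_one _
  have h4 : (1 * ∫ t in Wn G t₀ ρ, Pi2 (p t) x₀ ρ ^ (2 / 3 : ℝ)) ^ (3 / 4 : ℝ) ≤ ρ * d := by
    rw [one_mul]
    refine (Real.rpow_le_rpow (integral_nonneg fun t => Real.rpow_nonneg (Pi2_nn _ _ _) _) h2
      (by norm_num)).trans (le_of_eq ?_)
    rw [← Real.rpow_mul (by positivity)]
    norm_num
  have h5 := hA.2.2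
  linarith

section

variable {T E D : ℝ} {G : Set ℝ} {u : ℝ → V → V} {p : ℝ → V → ℝ} {t₀ : ℝ} {x₀ : V}

/-- Integrability of the inward flux of energy. -/
lemma FI_int (hS : S_SOB) {κ μ : ℝ} (h : Turb 1 T E D G u p) {c ρ : ℝ}
    (hρ : 0 < ρ) (hc0 : 0 ≤ c) (hc : c ≤ 1) {ψ : ℝ → V → ℝ} (hF : Fol κ μ c ρ t₀ x₀ ψ) :
    IntegrableOn (fun t => FI (ψ t) x₀ ρ (u t) (p t)) (Wn G t₀ ρ) := by
  obtain ⟨C, hC, hcomp⟩ := comp_fi hS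
  have hD : 0 ≤ D := (setIntegral_nonneg h.openG.measurableSet fun t _ => enst_nn _).trans
    h.enst_le
  obtain ⟨C₁, hC₁, hA⟩ := start_A ρ hρ
  obtain ⟨C₂, hC₂, hP⟩ := start_D ρ hρ
  obtain ⟨θ, hθ⟩ : ∃ θ, θ = (∫ t in Wn G t₀ ρ, FX (ψ t) x₀ ρ (u t) (p t) ^ 2) / ρ ^ 8 + 1 :=
    ⟨_, rfl⟩
  have hI : 0 ≤ ∫ t in Wn G t₀ ρ, FX (ψ t) x₀ ρ (u t) (p t) ^ 2 :=
    integral_nonneg fun _ => sq_nonneg _
  have hθ1 : 1 ≤ θ := by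
    rw [hθ]
    have : 0 ≤ (∫ t in Wn G t₀ ρ, FX (ψ t) x₀ ρ (u t) (p t) ^ 2) / ρ ^ 8 := by positivity
    linarith
  have hle : ∫ t in Wn G t₀ ρ, FX (ψ t) x₀ ρ (u t) (p t) ^ 2 ≤ θ ^ 4 * ρ ^ 8 := by
    have h1 : θ ≤ θ ^ 4 := le_self_pow₀ hθ1 (by norm_num)
    have h2 : ∫ t in Wn G t₀ ρ, FX (ψ t) x₀ ρ (u t) (p t) ^ 2 ≤ θ * ρ ^ 8 := by
      rw [hθ, add_mul, one_mul, div_mul_cancel₀ _ (by positivity)]
      have : 0 < ρ ^ 8 := by positivity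
      linarith
    exact h2.trans (mul_le_mul_of_nonneg_right h1 (by positivity))
  obtain ⟨f, hf1, hf2, -⟩ := hcomp G t₀ x₀ u p h.openG h.smooth_u h.smooth_p κ μ c ρ
    (C₁ * (E ^ 2 + D + 1)) (C₂ * (E ^ 2 + D + 1)) θ hρ (by positivity)
    (by have : 0 < C₂ := by linarith
        positivity) (by linarith)
    (hA T E D G u p h t₀ x₀) (hP T E D G u p h t₀ x₀) ψ _ hF (FX_int h hρ hc0 hc hF)
    (fun t _ => le_rfl) hle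
  refine Integrable.mono' hf1 ?_ ?_
  · exact ((FI_meas h.openG h.smooth_u h.smooth_p hF.smooth x₀ ρ).mono
      inter_subset_left).aestronglyMeasurable (Wn_open h.openG _).measurableSet
  · rw [ae_restrict_iff' (Wn_open h.openG _).measurableSet]
    refine ae_of_all _ fun t ht => ?_
    rw [Real.norm_eq_abs, abs_of_nonneg (FI_nn _ _ _ _ _)]
    exact hf2 t ht

/-- The energy content is not small at the scales of a singular point. -/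
theorem En_low : ∃ θ : ℝ, 0 < θ ∧ ∀ (T E D : ℝ) (G : Set ℝ) (u : ℝ → V → V) (p : ℝ → V → ℝ),
    Turb 1 T E D G u p → ∀ (t₀ : ℝ) (x₀ : V) (ρ : ℝ), 0 < ρ → ρ ≤ 1 → t₀ ≤ T → ρ ^ 2 ≤ t₀ →
      SingPt G u t₀ x₀ → θ ≤ En 1 G t₀ x₀ u p ρ := by
  obtain ⟨θ, hθ, hreg⟩ := reg_pt
  refine ⟨θ, hθ, ?_⟩
  intro T E D G u p h t₀ x₀ ρ hρ hρ1 ht hρt hsing
  by_contra hcon
  rw [not_le] at hcon
  refine hreg T E D G u p h t₀ x₀ ρ hρ hρ1 ht hρt ?_ hsing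
  obtain ⟨C₁, hC₁, hA⟩ := start_A ρ hρ
  obtain ⟨hA1, hA2, -⟩ := hA T E D G u p h t₀ x₀
  unfold En at hcon
  rw [Wv_one, div_lt_iff₀ hρ, one_mul] at hcon
  have hbdd : BddAbove ((fun t => A2 x₀ ρ (u t)) '' Wn G t₀ ρ) := by
    refine ⟨ρ * (C₁ * (E ^ 2 + D + 1)), ?_⟩
    rintro _ ⟨t, ht, rfl⟩
    exact hA1 t ht
  have h0 : 0 ≤ sSup ((fun t => A2 x₀ ρ (u t)) '' Wn G t₀ ρ) := by
    refine Real.sSup_nonneg ?_
    rintro _ ⟨t, -, rfl⟩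
    exact A2_nn _ _ _
  have h1 : 0 ≤ ∫ t in Wn G t₀ ρ, B2 x₀ ρ (u t) := integral_nonneg fun t => B2_nn _ _ _
  have h2 : 0 ≤ (1 * ∫ t in Wn G t₀ ρ, Pi2 (p t) x₀ ρ ^ (2 / 3 : ℝ)) ^ (3 / 4 : ℝ) := by
    apply Real.rpow_nonneg
    rw [one_mul]
    exact integral_nonneg fun t => Real.rpow_nonneg (Pi2_nn _ _ _) _
  refine ⟨fun t ht => ?_, hA2, by linarith⟩
  have h3 := le_csSup hbdd ⟨t, ht, rfl⟩
  have h4 : A2 x₀ ρ (u t) ≤ sSup ((fun t => A2 x₀ ρ (u t)) '' Wn G t₀ ρ) := h3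
  linarith

/-- A good scale is good for the iteration. -/
theorem good_gs (hS : S_SOB) : ∃ C : ℝ, 0 < C ∧ ∀ (T E D : ℝ) (G : Set ℝ) (u : ℝ → V → V)
    (p : ℝ → V → ℝ), Turb 1 T E D G u p → ∀ (t₀ : ℝ) (x₀ : V) (κ μ c θ ρ : ℝ), 0 < ρ → ρ ≤ 1 →
      0 ≤ c → c ≤ 1 → 0 < θ → t₀ ≤ T → ρ ^ 2 ≤ t₀ → SingPt G u t₀ x₀ →
        GoodSc 1 κ μ c (min (θ / C) ((θ / C) ^ 4)) G t₀ x₀ u p ρ →
        GS G t₀ x₀ u p κ μ c θ ρ := by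
  obtain ⟨C', hC', hcomp⟩ := comp_fi hS
  obtain ⟨θ₀, hθ₀, hlow⟩ := En_low
  obtain ⟨C, hCd⟩ : ∃ C, C = C' + 2 * (1 + 1 / θ₀) := ⟨_, rfl⟩
  have hC : 0 < C := by rw [hCd]; positivity
  have hCC : C' ≤ C := by
    rw [hCd]
    have : 0 < 2 * (1 + 1 / θ₀) := by positivity
    linarith
  have hC2 : 2 * (1 + 1 / θ₀) ≤ C := by rw [hCd]; linarith
  refine ⟨C, hC, ?_⟩
  intro T E D G u p h t₀ x₀ κ μ c θ ρ hρ hρ1 hc0 hc hθ ht₀ hρt hsing hgood a d ha hd hA hP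
  obtain ⟨ψ, hF, hor⟩ := hgood
  have hF1 := FolN_one hF
  have hρ3 : 0 < ρ ^ 3 := by positivity
  rcases hor with hfl | hfl
  · rw [Wv_one] at hfl
    refine ⟨ψ, fun t => FI (ψ t) x₀ ρ (u t) (p t), hF1, FI_int hS h hρ hc0 hc hF1,
      fun t _ => le_rfl, hfl.trans ?_⟩
    have h1 := En_le h.openG hρ ha hd hA hP
    have h0 := hlow T E D G u p h t₀ x₀ ρ hρ hρ1 ht₀ hρt hsing
    have h2 : min (θ / C) ((θ / C) ^ 4) ≤ θ / C := min_le_left _ _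
    have h3 : 0 ≤ min (θ / C) ((θ / C) ^ 4) := by positivity
    have h5 : 1 ^ 2 + En 1 G t₀ x₀ u p ρ ≤ C * (a + d) := by
      have e : (1 : ℝ) ≤ 1 / θ₀ * En 1 G t₀ x₀ u p ρ := by
        rw [one_div, ← div_eq_inv_mul, le_div_iff₀ hθ₀]
        linarith
      calc 1 ^ 2 + En 1 G t₀ x₀ u p ρ
          ≤ 1 / θ₀ * En 1 G t₀ x₀ u p ρ + En 1 G t₀ x₀ u p ρ := by
            rw [one_pow]
            linarith
        _ = (1 + 1 / θ₀) * En 1 G t₀ x₀ u p ρ := by ring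
        _ ≤ (1 + 1 / θ₀) * (2 * (a + d)) :=
            mul_le_mul_of_nonneg_left (by linarith) (by positivity)
        _ = 2 * (1 + 1 / θ₀) * (a + d) := by ring
        _ ≤ C * (a + d) := mul_le_mul_of_nonneg_right hC2 (by positivity)
    calc min (θ / C) ((θ / C) ^ 4) * ρ ^ 3 * (1 ^ 2 + En 1 G t₀ x₀ u p ρ)
        ≤ min (θ / C) ((θ / C) ^ 4) * ρ ^ 3 * (C * (a + d)) :=
          mul_le_mul_of_nonneg_left h5 (by positivity)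
      _ ≤ θ / C * ρ ^ 3 * (C * (a + d)) := by
          apply mul_le_mul_of_nonneg_right _ (by positivity)
          exact mul_le_mul_of_nonneg_right h2 hρ3.le
      _ = _ := by field_simp
  · rw [Wv_one, one_pow, mul_one] at hfl
    have h4 : min (θ / C) ((θ / C) ^ 4) * ρ ^ 8 ≤ (θ / C) ^ 4 * ρ ^ 8 :=
      mul_le_mul_of_nonneg_right (min_le_right _ _) (by positivity)
    obtain ⟨f, hf1, hf2, hf3⟩ := hcomp G t₀ x₀ u p h.openG h.smooth_u h.smooth_p κ μ c ρ a d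
      (θ / C) hρ ha hd (by positivity) hA hP ψ _ hF1 (FX_int h hρ hc0 hc hF1)
      (fun t _ => le_rfl) (hfl.trans h4)
    refine ⟨ψ, f, hF1, hf1, hf2, hf3.trans ?_⟩
    have h6 : C' * (θ / C) ≤ θ := by
      rw [← mul_div_assoc, div_le_iff₀ hC, mul_comm]
      exact mul_le_mul_of_nonneg_left hCC hθ.le
    exact mul_le_mul_of_nonneg_right (mul_le_mul_of_nonneg_right h6 hρ3.le) (by positivity)

end

open Classical in
/-- The theorem for viscosity one. -/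
theorem main_one {κ μ q : ℝ} (hκ : 0 < κ) (hκ1 : κ ≤ 3 / 2) (hμ : 0 < μ)
    (hq : 1 < q * (1 + κ)) (hS : S_SOB) (hR : S_RIESZ) (hH : S_HARM) :
    ∃ c ε : ℝ, 0 < c ∧ c < 1 ∧ 0 < ε ∧ ∀ E D r₀ : ℝ, 0 < r₀ → r₀ ≤ 1 → ∃ N : ℕ,
      ∀ (T : ℝ) (G : Set ℝ) (u : ℝ → V → V) (p : ℝ → V → ℝ), Turb 1 T E D G u p →
        ∀ (t₀ : ℝ) (x₀ : V), t₀ ≤ T → r₀ ^ 2 ≤ t₀ → ∀ n : ℕ, N ≤ n →
          q * n ≤ Nat.count (fun k => GoodSc 1 κ μ c ε G t₀ x₀ u p (c ^ k * r₀)) n →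
            ¬ SingPt G u t₀ x₀ := by
  obtain ⟨σ, θ, hσ, hσ1, hθ, hit⟩ := iter_all hκ hκ1 hμ hS hR hH (δ := q * (1 + κ) - 1)
    (by linarith)
  obtain ⟨C, hC, hgg⟩ := good_gs hS
  obtain ⟨θ', hθ', hreg⟩ := reg_pt
  refine ⟨σ, min (θ / C) ((θ / C) ^ 4), hσ, hσ1, by positivity, ?_⟩
  intro E D r₀ hr₀ hr₀1
  obtain ⟨C₁, hC₁, hA⟩ := start_A r₀ hr₀
  obtain ⟨C₂, hC₂, hP⟩ := start_D r₀ hr₀
  obtain ⟨M, hM⟩ : ∃ M, M = (C₁ + C₂) * (E ^ 2 + D + 1) := ⟨_, rfl⟩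
  obtain ⟨N, hN⟩ : ∃ N : ℕ, ∀ n : ℕ, N ≤ n → (1 / 2 : ℝ) ^ n * M ≤ θ' ∧ σ ^ n * r₀ ≤ 1 := by
    have h1 : Tendsto (fun n : ℕ => (1 / 2 : ℝ) ^ n * M) atTop (𝓝 (0 * M)) :=
      (tendsto_pow_atTop_nhds_zero_of_lt_one (by norm_num) (by norm_num)).mul_const M
    have h2 : Tendsto (fun n : ℕ => σ ^ n * r₀) atTop (𝓝 (0 * r₀)) :=
      (tendsto_pow_atTop_nhds_zero_of_lt_one hσ.le hσ1).mul_const r₀
    rw [zero_mul] at h1 h2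
    have h3 := (h1.eventually (ge_mem_nhds hθ')).and (h2.eventually (ge_mem_nhds one_pos))
    exact eventually_atTop.1 h3
  refine ⟨N, ?_⟩
  intro T G u p h t₀ x₀ ht₀ hr₀t n hn hcount hsing
  have hD : 0 ≤ D := (setIntegral_nonneg h.openG.measurableSet fun t _ => enst_nn _).trans
    h.enst_le
  obtain ⟨hN1, hN2⟩ := hN n hn
  have hLS : LS G t₀ x₀ r₀ u p := ls_turb h ht₀ hr₀ hr₀t x₀
  have hmono : Nat.count (fun k => GoodSc 1 κ μ σ (min (θ / C) ((θ / C) ^ 4)) G t₀ x₀ u p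
      (σ ^ k * r₀)) n ≤ Nat.count (fun k => GS G t₀ x₀ u p κ μ σ θ (σ ^ k * r₀)) n := by
    apply Nat.count_mono_left
    intro k _ hk
    have hk1 : σ ^ k * r₀ ≤ r₀ := mul_le_of_le_one_left hr₀.le (pow_le_one₀ hσ.le hσ1.le)
    have hk2 : (σ ^ k * r₀) ^ 2 ≤ r₀ ^ 2 := pow_le_pow_left₀ (by positivity) hk1 2
    exact hgg T E D G u p h t₀ x₀ κ μ σ θ (σ ^ k * r₀) (by positivity) (hk1.trans hr₀1) hσ.le
      hσ1.le hθ ht₀ (hk2.trans hr₀t) hsing hk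
  have hcast : (Nat.count (fun k => GoodSc 1 κ μ σ (min (θ / C) ((θ / C) ^ 4)) G t₀ x₀ u p
      (σ ^ k * r₀)) n : ℝ) ≤ (Nat.count (fun k => GS G t₀ x₀ u p κ μ σ θ (σ ^ k * r₀)) n : ℝ) :=
    Nat.cast_le.2 hmono
  have hC₂0 : 0 < C₂ := by linarith
  have hPA := hit G t₀ x₀ r₀ u p hLS r₀ (C₁ * (E ^ 2 + D + 1)) (C₂ * (E ^ 2 + D + 1)) hr₀ le_rfl
    (by positivity) (by positivity) (hA T E D G u p h t₀ x₀) (hP T E D G u p h t₀ x₀) n (by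
      have h1 : (1 + (q * (1 + κ) - 1)) * (n : ℝ) = (1 + κ) * (q * n) := by ring
      rw [h1]
      exact mul_le_mul_of_nonneg_left (hcount.trans hcast) (by linarith))
  have e : C₁ * (E ^ 2 + D + 1) + C₂ * (E ^ 2 + D + 1) = M := by rw [hM]; ring
  rw [e] at hPA
  have hρ : 0 < σ ^ n * r₀ := by positivity
  refine hreg T E D G u p h t₀ x₀ (σ ^ n * r₀) hρ hN2 ht₀ ?_ (PA_mono hρ hN1 hPA) hsing
  have h1 : (σ ^ n * r₀) ^ 2 ≤ r₀ ^ 2 := by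
    apply pow_le_pow_left₀ hρ.le
    exact mul_le_of_le_one_left hr₀.le (pow_le_one₀ hσ.le hσ1.le)
  linarith

end Pool.Agent.N982.MC
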