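import Pool.Agent.N982.MC.Nu

/-!
The example of the quadratic forms: concentric homothetic ellipsoids.
-/

set_option autoImplicit false

open MeasureTheory Set Metric Filter Topology
open scoped ContDiff

namespace Pool.Agent.N982.MC

open H459R3.NS W221.NS Pool.Agent.Y8

/-- `M y` -/
noncomputable def Mv (M : Fin 3 → Fin 3 → ℝ) (y : V) (i : Fin 3) : ℝ := ∑ j, M i j * y j

/-- `y · M y` -/
noncomputable def Qf (M : Fin 3 → Fin 3 → ℝ) (y : V) : ℝ := ∑ i, y i * Mv M y i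

section

variable {M : Fin 3 → Fin 3 → ℝ}

lemma Qf_expand (hs : ∀ i j, M i j = M j i) (y z : V) :
    Qf M (y - z) = Qf M y - 2 * (∑ i, z i * Mv M y i) + Qf M z := by
  have s01 := hs 1 0
  have s02 := hs 2 0
  have s12 := hs 2 1
  simp only [Qf, Mv, Fin.sum_univ_three, Pi.sub_apply, s01, s02, s12]
  ring

/-- `|M y|² ≤ y · M y` for `0 ≤ M ≤ 1`. -/
lemma mv_le (hs : ∀ i j, M i j = M j i) (h0 : ∀ y, 0 ≤ Qf M y)
    (h1 : ∀ y : V, Qf M y ≤ ∑ i, y i ^ 2) (y : V) : ∑ i, Mv M y i ^ 2 ≤ Qf M y := by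
  have e1 := Qf_expand hs y (fun i => Mv M y i)
  have e2 := h0 (y - fun i => Mv M y i)
  have e3 := h1 (fun i => Mv M y i)
  have e4 : ∑ i, Mv M y i * Mv M y i = ∑ i, Mv M y i ^ 2 :=
    Finset.sum_congr rfl fun i _ => (sq _).symm
  rw [e1, e4] at e2
  linarith

lemma pd_crd (k j : Fin 3) (x : V) : pd j (fun y : V => y k) x = if k = j then 1 else 0 := by
  unfold pd
  have h : HasFDerivAt (fun y : V => y k) (ContinuousLinearMap.proj (R := ℝ) k) x :=
    (ContinuousLinearMap.proj (R := ℝ) (φ := fun _ : Fin 3 => ℝ) k).hasFDerivAt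
  rw [h.fderiv]
  simp [Pi.single_apply]

lemma Mv_cd (M : Fin 3 → Fin 3 → ℝ) (b : V) (i : Fin 3) :
    ContDiff ℝ ∞ (fun y : V => Mv M (y - b) i) := by
  unfold Mv
  refine ContDiff.sum fun k _ => contDiff_const.mul ?_
  simp only [Pi.sub_apply]
  exact (contDiff_apply ℝ ℝ k).sub contDiff_const

lemma Qf_cd (M : Fin 3 → Fin 3 → ℝ) (b : V) : ContDiff ℝ ∞ (fun y : V => Qf M (y - b)) := by
  unfold Qf
  refine ContDiff.sum fun k _ => ContDiff.mul ?_ (Mv_cd M b k)
  simp only [Pi.sub_apply]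
  exact (contDiff_apply ℝ ℝ k).sub contDiff_const

lemma crd_cd (b : V) (i : Fin 3) : ContDiff ℝ ∞ (fun y : V => (y - b) i) := by
  simp only [Pi.sub_apply]
  exact (contDiff_apply ℝ ℝ i).sub contDiff_const

lemma pd_crdb (b : V) (k j : Fin 3) (x : V) :
    pd j (fun y : V => (y - b) k) x = if k = j then 1 else 0 := by
  have h := Pool.Agent.W240.ME.pd_sub (f := fun y : V => y k) (g := fun _ : V => b k)
    (contDiff_apply ℝ ℝ k) contDiff_const j x
  simp only [Pi.sub_apply]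
  rw [h, pd_crd, Pool.Agent.W240.ME.pd_const, sub_zero]

lemma pd_Mv (b : V) (i j : Fin 3) (x : V) : pd j (fun y : V => Mv M (y - b) i) x = M i j := by
  unfold Mv
  rw [Pool.Agent.W240.ME.pd_sum (f := fun k y => M i k * (y - b) k)
    (fun k => contDiff_const.mul (crd_cd b k))]
  have e : ∀ k, pd j (fun y : V => M i k * (y - b) k) x = if k = j then M i k else 0 := by
    intro k
    rw [Pool.Agent.W240.ME.pd_mul (f := fun _ : V => M i k) contDiff_const (crd_cd b k),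
      pd_crdb, Pool.Agent.W240.ME.pd_const]
    split_ifs <;> simp
  simp_rw [e]
  simp

lemma pd_Qf (hs : ∀ i j, M i j = M j i) (b : V) (j : Fin 3) (x : V) :
    pd j (fun y : V => Qf M (y - b)) x = 2 * Mv M (x - b) j := by
  unfold Qf
  rw [Pool.Agent.W240.ME.pd_sum (f := fun k y => (y - b) k * Mv M (y - b) k)
    (fun k => (crd_cd b k).mul (Mv_cd M b k))]
  have e : ∀ k, pd j (fun y : V => (y - b) k * Mv M (y - b) k) x
      = (x - b) k * M k j + (if k = j then Mv M (x - b) k else 0) := by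
    intro k
    rw [Pool.Agent.W240.ME.pd_mul (crd_cd b k) (Mv_cd M b k), pd_crdb, pd_Mv]
    split_ifs <;> simp
  simp_rw [e]
  rw [Finset.sum_add_distrib]
  simp only [Finset.sum_ite_eq', Finset.mem_univ, if_true]
  have e2 : ∑ k, (x - b) k * M k j = Mv M (x - b) j := by
    unfold Mv
    exact Finset.sum_congr rfl fun k _ => by rw [hs j k, mul_comm]
  rw [e2]
  ring

lemma lap_Qf (hs : ∀ i j, M i j = M j i) (b : V) (x : V) :
    lap (fun y : V => Qf M (y - b)) x = 2 * ∑ i, M i i := by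
  unfold lap
  rw [Finset.mul_sum]
  refine Finset.sum_congr rfl fun j _ => ?_
  have e1 : pd j (fun y : V => Qf M (y - b)) = fun y => 2 * Mv M (y - b) j := by
    funext y
    exact pd_Qf hs b j y
  rw [e1, Pool.Agent.W240.ME.pd_mul (f := fun _ : V => 2) contDiff_const (Mv_cd M b j), pd_Mv,
    Pool.Agent.W240.ME.pd_const]
  ring

/-- The form `(x - x₀) · M (x - x₀)` with `μ ≤ M ≤ 1` and `tr M ≥ 1 + κ`. -/
theorem quad (hs : ∀ i j, M i j = M j i) {ν κ μ : ℝ} (hν : 0 < ν) (hμ : 0 ≤ μ)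
    (h0 : ∀ y : V, μ * ∑ i, y i ^ 2 ≤ Qf M y) (h1 : ∀ y : V, Qf M y ≤ ∑ i, y i ^ 2)
    (ht : 1 + κ ≤ ∑ i, M i i) (c r t₀ : ℝ) (x₀ : V) :
    FolN ν κ μ c r t₀ x₀ (fun _ x => Qf M (x - x₀)) := by
  have hn : ∀ y, 0 ≤ Qf M y := fun y =>
    (mul_nonneg hμ (Finset.sum_nonneg fun i _ => sq_nonneg _)).trans (h0 y)
  refine ⟨(Qf_cd M x₀).comp contDiff_snd, ?_, ?_, ?_, ?_⟩
  · intro t _ _
    have e : Qf M (x₀ - x₀) = 0 := by
      rw [sub_self]
      simp [Qf]
    rw [e]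
    positivity
  · intro t _ _ x
    have h2 := h0 (x - x₀)
    simp only [Pi.sub_apply] at h2
    have h3 : 0 ≤ (c * r) ^ 2 := sq_nonneg _
    linarith
  · intro t _ _ x _
    have h2 := mv_le hs hn h1 (x - x₀)
    have h3 : ∑ i, pd i (fun y : V => Qf M (y - x₀)) x ^ 2 = 4 * ∑ i, Mv M (x - x₀) i ^ 2 := by
      rw [Finset.mul_sum]
      refine Finset.sum_congr rfl fun i _ => ?_
      rw [pd_Qf hs]
      ring
    rw [h3]
    linarith
  · intro t _ _ x _
    rw [lap_Qf hs, deriv_const]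
    nlinarith

/-- `u · ∇ ψ = 2 u · M (x - x₀)` -/
lemma fl_quad (hs : ∀ i j, M i j = M j i) (x₀ : V) (v : V → V) (x : V) :
    fl (fun x => Qf M (x - x₀)) v x = 2 * ∑ i, v x i * Mv M (x - x₀) i := by
  unfold fl
  rw [Finset.mul_sum]
  refine Finset.sum_congr rfl fun i _ => ?_
  rw [pd_Qf hs]
  ring

end

end Pool.Agent.N982.MC
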