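import Pool.Agent.N982.MC.Tu
import Pool.Agent.Y574.NS.Crit3
import Pool.Agent.Y458.NS.AL

/-!
The criterion: small energy and dissipation at one scale in the fixed frame give a bound near the
centre, also up to the end of the time interval.
-/

set_option autoImplicit false

open MeasureTheory Set Metric Filter Topology
open scoped ContDiff

namespace Pool.Agent.N982.MC

open H459R3.NS W221.NS Pool.Agent.Y8 Pool.Agent.Y458.NS Pool.Agent.Y574.NS

/-- The bound of the velocity relative to the path. -/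
theorem crq : ∃ ε C : ℝ, 0 < ε ∧ 0 < C ∧ ∀ (T E D : ℝ) (G : Set ℝ) (u : ℝ → V → V)
    (p : ℝ → V → ℝ), Turb 1 T E D G u p → ∀ r s : ℝ, 0 < r → r ^ 2 < s → s < T →
      ∀ (X Y : ℝ → V) (B C' : ℝ), FPath T r B C' G u p X Y →
        ∫ t in Ioo (s - r ^ 2) s, B2 (X t) (8 * r) (u t) < ε * r →
        ∀ τ ∈ G, s - r ^ 2 / 16 < τ → τ < s → ∀ z ∈ ball (0 : V) (1 / 4), ∀ i,
          |u τ (X τ + r • z) i - Y τ i|
            ≤ C / r * (1 + √(2 / r * A2 (X τ) (4 * r) (u τ) + 3072 * r ^ 2 * B ^ 2)) := by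
  obtain ⟨ε₁, C₁, hε₁, hC₁, hloc⟩ := Pool.Agent.Y8.B.p_wlocal
  refine ⟨ε₁, C₁, hε₁, hC₁, ?_⟩
  intro T E D G u p h r s hr hs0 hsT X Y B C hX hlt
  have hr2 : 0 < r ^ 2 := by positivity
  obtain ⟨H, hH⟩ : ∃ H : Set ℝ, H = {t | t ∈ Ioo (-1 : ℝ) 0 ∧ s + r ^ 2 * t ∈ G} := ⟨_, rfl⟩
  obtain ⟨k, hwl⟩ : ∃ k, WL2 H (frv r s X u) (frq r s X p) k := by
    rw [hH]
    exact Pool.Agent.Y8.B.p_wfr2 T E D G u p h r s hr hs0 hsT X Y B C hX
  have hXc : ContinuousOn X G := hX.sm.continuousOn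
  -- integrability
  obtain ⟨F, hFd⟩ : ∃ F : ℝ → ℝ, F = G.indicator (fun τ => B2 (X τ) (8 * r) (u τ)) := ⟨_, rfl⟩
  have hFi : Integrable F := by
    rw [hFd]
    exact (integrable_indicator_iff h.openG.measurableSet).2 (B2_mov_int h hXc _)
  have hFi2 : Integrable (fun t => r * F (s + r ^ 2 * t)) :=
    ((hFi.comp_add_left s).comp_mul_left' hr2.ne').const_mul r
  have haeH : ∀ᵐ t ∂(volume.restrict (Ioo (-1 : ℝ) 0)), t ∈ H := by
    rw [ae_restrict_iff' measurableSet_Ioo]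
    have h1 : ∀ᵐ t : ℝ, t ∉ Ioo (-1 : ℝ) 0 \ H := measure_eq_zero_iff_ae_notMem.1 hwl.fullH
    filter_upwards [h1] with t ht htJ
    by_contra hc
    exact ht ⟨htJ, hc⟩
  have hae1 : (fun t => r * F (s + r ^ 2 * t)) =ᵐ[volume.restrict (Ioo (-1 : ℝ) 0)]
      (fun t => B2 0 8 (frv r s X u t)) := by
    filter_upwards [haeH] with t ht
    rw [hH] at ht
    rw [hFd, indicator_of_mem ht.2, B2_frv8 hr (sl_sm h.smooth_u ht.2)]
  have hae2 : (fun t => B2 0 8 (frv r s X u t)) =ᵐ[volume.restrict (Ioo (-1 : ℝ) 0)]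
      (fun t => r * B2 (X (s + r ^ 2 * t)) (8 * r) (u (s + r ^ 2 * t))) := by
    filter_upwards [haeH] with t ht
    rw [hH] at ht
    exact B2_frv8 hr (sl_sm h.smooth_u ht.2)
  have hΓi : IntegrableOn (fun t => B2 0 8 (frv r s X u t)) (Ioo (-1) 0) :=
    (hFi2.integrableOn (s := Ioo (-1 : ℝ) 0)).congr hae1
  have hΓe : ∫ t in Ioo (-1 : ℝ) 0, B2 0 8 (frv r s X u t) ≤ ε₁ := by
    rw [integral_congr_ae hae2, integral_const_mul]
    have e1 : ∫ t in Ioo (-1 : ℝ) 0, B2 (X (s + r ^ 2 * t)) (8 * r) (u (s + r ^ 2 * t)) =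
        (r ^ 2)⁻¹ * ∫ t in Ioo (s - r ^ 2) s, B2 (X t) (8 * r) (u t) := by
      rw [← integral_Ioc_eq_integral_Ioo, ← integral_Ioc_eq_integral_Ioo,
        ← intervalIntegral.integral_of_le (by norm_num), ← intervalIntegral.integral_of_le
        (by linarith), intervalIntegral.integral_comp_add_mul
          (f := fun t => B2 (X t) (8 * r) (u t)) (c := r ^ 2) (by positivity) s, smul_eq_mul]
      congr 2
      · ring
      · ring
    rw [e1]
    have e2 : r * ((r ^ 2)⁻¹ * ∫ t in Ioo (s - r ^ 2) s, B2 (X t) (8 * r) (u t)) =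
        (∫ t in Ioo (s - r ^ 2) s, B2 (X t) (8 * r) (u t)) / r := by
      field_simp
    rw [e2, div_le_iff₀ hr]
    exact hlt.le
  have hbd0 := hloc H (frv r s X u) (frq r s X p) k hwl hΓi hΓe
  intro τ hτ h1 h2 z hz i
  obtain ⟨t, ht⟩ : ∃ t, t = (τ - s) / r ^ 2 := ⟨_, rfl⟩
  have htτ : s + r ^ 2 * t = τ := by
    rw [ht]
    field_simp
    ring
  have ht1 : -1 / 16 < t := by
    rw [ht, lt_div_iff₀ hr2]
    linarith
  have ht2 : t < 0 := by
    rw [ht]
    exact div_neg_of_neg_of_pos (by linarith) hr2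
  have htH : t ∈ H := by
    rw [hH]
    exact ⟨⟨by linarith, ht2⟩, by rw [htτ]; exact hτ⟩
  have h3 := hbd0 t htH ht1 z hz i
  have h5 : ∀ i, deriv (fun τ => X τ i) τ = Y τ i := fun i =>
    (hasDerivAt_pi.1 (hX.hd τ (h.subG hτ)) i).deriv
  have h4 : ∀ z i, frv r s X u t z i = r * (u τ (X τ + r • z) i - Y τ i) := by
    intro z i
    unfold frv
    rw [htτ, h5]
  have hA : A2 0 4 (frv r s X u t)
      ≤ 2 / r * A2 (X τ) (4 * r) (u τ) + 3072 * r ^ 2 * B ^ 2 := by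
    have hus : ContDiff ℝ ∞ (u τ) := sl_sm h.smooth_u hτ
    have hB : ∀ i, |Y τ i| ≤ B := fun i =>
      (norm_le_pi_norm (Y τ) i).trans (hX.bd τ (h.subG hτ))
    have g1 : ∀ z, nsq (frv r s X u t) z ≤ 2 * r ^ 2 * nsq (u τ) (X τ + r • z)
        + 6 * r ^ 2 * B ^ 2 := by
      intro z
      have g2 : ∀ i, frv r s X u t z i ^ 2 ≤ 2 * r ^ 2 * u τ (X τ + r • z) i ^ 2
          + 2 * r ^ 2 * B ^ 2 := by
        intro i
        rw [h4]
        have g3 : Y τ i ^ 2 ≤ B ^ 2 := by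
          rw [← sq_abs]
          exact pow_le_pow_left₀ (abs_nonneg _) (hB i) 2
        have g4 : (u τ (X τ + r • z) i - Y τ i) ^ 2
            ≤ 2 * u τ (X τ + r • z) i ^ 2 + 2 * B ^ 2 := by
          nlinarith [sq_nonneg (u τ (X τ + r • z) i + Y τ i)]
        calc (r * (u τ (X τ + r • z) i - Y τ i)) ^ 2
            = r ^ 2 * (u τ (X τ + r • z) i - Y τ i) ^ 2 := by ring
          _ ≤ r ^ 2 * (2 * u τ (X τ + r • z) i ^ 2 + 2 * B ^ 2) :=
              mul_le_mul_of_nonneg_left g4 hr2.le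
          _ = _ := by ring
      unfold nsq
      rw [Fin.sum_univ_three, Fin.sum_univ_three]
      linarith [g2 0, g2 1, g2 2]
    have hfs : ContDiff ℝ ∞ (frv r s X u t) := sl_sm hwl.smooth_v htH
    have hc2 : Continuous fun z => nsq (u τ) (X τ + r • z) :=
      (nsq_sm hus).continuous.comp (by fun_prop)
    calc A2 0 4 (frv r s X u t)
        ≤ ∫ z in ball (0 : V) 4, (2 * r ^ 2 * nsq (u τ) (X τ + r • z) + 6 * r ^ 2 * B ^ 2) := by
          unfold A2
          exact setIntegral_mono (ballint (nsq_sm hfs).continuous _ _)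
            (ballint (by fun_prop) _ _) g1
      _ = 2 * r ^ 2 * (∫ z in ball (0 : V) 4, nsq (u τ) (X τ + r • z))
          + 8 * 4 ^ 3 * (6 * r ^ 2 * B ^ 2) := by
          have i1 : IntegrableOn (fun z => 2 * r ^ 2 * nsq (u τ) (X τ + r • z))
              (ball (0 : V) 4) := ballint (by fun_prop) _ _
          have i2 : IntegrableOn (fun _ : V => 6 * r ^ 2 * B ^ 2) (ball (0 : V) 4) :=
            ballint continuous_const _ _
          have e1 : ∫ z in ball (0 : V) 4, 2 * r ^ 2 * nsq (u τ) (X τ + r • z)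
              = 2 * r ^ 2 * ∫ z in ball (0 : V) 4, nsq (u τ) (X τ + r • z) :=
            integral_const_mul _ _
          rw [integral_add i1 i2, Pool.Agent.W699.ME.int_const_ball (0 : V) (by norm_num), e1]
      _ = 2 / r * A2 (X τ) (4 * r) (u τ) + 3072 * r ^ 2 * B ^ 2 := by
          rw [Pool.Agent.W135.MD.int_ball_scale _ _ hr, mul_comm r 4]
          unfold A2
          field_simp
          ring
  have h6 : |frv r s X u t z i|
      ≤ C₁ * (1 + √(2 / r * A2 (X τ) (4 * r) (u τ) + 3072 * r ^ 2 * B ^ 2)) := by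
    refine h3.trans (mul_le_mul_of_nonneg_left ?_ hC₁.le)
    have := Real.sqrt_le_sqrt hA
    linarith
  rw [h4, abs_mul, abs_of_pos hr] at h6
  rw [div_mul_eq_mul_div, le_div_iff₀ hr, mul_comm]
  exact h6

/-- The bound near the centre. -/
theorem reg_small : ∃ θ : ℝ, 0 < θ ∧ ∀ E ρ : ℝ, 0 < ρ → ρ ≤ 1 → ∃ K : ℝ,
    ∀ (T D : ℝ) (G : Set ℝ) (u : ℝ → V → V) (p : ℝ → V → ℝ), Turb 1 T E D G u p →
      ∀ (t₀ : ℝ) (x₀ : V), t₀ ≤ T → ρ ^ 2 ≤ t₀ → PA G t₀ x₀ u ρ θ →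
        ∀ τ ∈ G, t₀ - (ρ / 64) ^ 2 < τ → τ < t₀ → ∀ y ∈ ball x₀ (ρ / 512), ‖u τ y‖ ≤ K := by
  obtain ⟨ε, C, hε, hC, hcr⟩ := crq
  obtain ⟨Kp, hKp, hpath⟩ := path_ex Pool.Agent.Y8.B.p_tcut Pool.Agent.Y8.B.p_acx
  obtain ⟨Km, hKm, hmo⟩ := mo_sq
  obtain ⟨θ, hθ, hθ1, hθ2⟩ : ∃ θ : ℝ, 0 < θ ∧ 64 * θ < ε ∧ 64 * Km * θ ≤ 1 / 4 := by
    refine ⟨min (ε / 65) (1 / (256 * Km)), by positivity, ?_, ?_⟩
    · have h1 := min_le_left (ε / 65) (1 / (256 * Km))
      linarith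
    · have h1 := min_le_right (ε / 65) (1 / (256 * Km))
      calc 64 * Km * min (ε / 65) (1 / (256 * Km)) ≤ 64 * Km * (1 / (256 * Km)) :=
            mul_le_mul_of_nonneg_left h1 (by positivity)
        _ = 1 / 4 := by field_simp; norm_num
  refine ⟨θ, hθ, ?_⟩
  intro E ρ hρ hρ1
  obtain ⟨r, hr⟩ : ∃ r, r = ρ / 64 := ⟨_, rfl⟩
  have hr0 : 0 < r := by rw [hr]; positivity
  have hr1 : r ≤ 1 := by rw [hr]; linarith
  have hρr : ρ = 64 * r := by rw [hr]; ring
  obtain ⟨CY, hCY, hpY⟩ := hpath E r hr0 hr1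
  obtain ⟨B, hB⟩ : ∃ B, B = Kp * |E| / √(r ^ 3) + 1 := ⟨_, rfl⟩
  have hB0 : 0 < B := by rw [hB]; positivity
  rw [← hB] at hpY
  refine ⟨C / r * (1 + √(2 / r * (ρ * θ) + 3072 * r ^ 2 * B ^ 2)) + B, ?_⟩
  intro T D G u p h t₀ x₀ ht₀T hρt hPA τ hτ hτt hτt₀ y hy
  rw [← hr] at hτt
  have hr2 : 0 < r ^ 2 := by positivity
  have hρ2 : ρ ^ 2 = 4096 * r ^ 2 := by rw [hρr]; ring
  have hτT := h.subG hτ
  -- the end of the window
  obtain ⟨s, hs⟩ : ∃ s, s = (τ + min t₀ (τ + r ^ 2 / 16)) / 2 := ⟨_, rfl⟩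
  have hm1 : τ < min t₀ (τ + r ^ 2 / 16) := lt_min hτt₀ (by linarith)
  have hm2 := min_le_left t₀ (τ + r ^ 2 / 16)
  have hm3 := min_le_right t₀ (τ + r ^ 2 / 16)
  have hs1 : τ < s := by linarith
  have hs4 : s < t₀ := by linarith
  have hs2 : s < T := by linarith
  have hs3 : s < τ + r ^ 2 / 16 := by linarith
  obtain ⟨X, Y, hX0, hX⟩ := hpY T D G u p h τ hτT x₀
  have hI : Ioo (s - r ^ 2) s ⊆ Ioo 0 T := by
    rintro t ⟨h1, h2⟩
    exact ⟨by linarith, by linarith⟩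
  have hW : Ioo (s - r ^ 2) s ≤ᵐ[volume] Wn G t₀ ρ := by
    filter_upwards [sub_ae h hI] with t ht htI
    exact ⟨ht htI, by linarith [htI.1], by linarith [htI.2]⟩
  -- the path stays close
  have hmoB : ∀ t ∈ Wn G t₀ ρ, ‖X t - X τ‖ ≤ r → ‖Y t‖ ≤ 1 / (2 * r) := by
    intro t ht hXt
    rw [hX.ev t ht.1, pi_norm_le_iff_of_nonneg (by positivity)]
    intro i
    have hus := sl_sm h.smooth_u ht.1
    have h1 := hmo (u t) hus.continuous r (X t) i hr0
    have h2 : ∫ z in ball (X t) r, u t z i ^ 2 ≤ A2 x₀ ρ (u t) := by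
      refine le_trans ?_ (A2_mn hus (a := X t) (r := r) (b := x₀) (s := ρ) ?_)
      · unfold A2
        exact setIntegral_mono (ballint (((continuous_apply i).comp hus.continuous).pow 2) _ _)
          (ballint (nsq_sm hus).continuous _ _) fun z => comp_sq_le (u t) z i
      · apply ball_subset_ball'
        rw [dist_eq_norm, ← hX0]
        linarith
    have h3 := hPA.1 t ht
    have h4 : mo r (u t) (X t) i ^ 2 ≤ (1 / (2 * r)) ^ 2 := by
      calc mo r (u t) (X t) i ^ 2 ≤ Km * (r ^ 3)⁻¹ * ∫ z in ball (X t) r, u t z i ^ 2 := h1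
        _ ≤ Km * (r ^ 3)⁻¹ * (ρ * θ) :=
            mul_le_mul_of_nonneg_left (h2.trans h3) (by positivity)
        _ = 64 * Km * θ * (r ^ 2)⁻¹ := by
            rw [hρr]
            field_simp
        _ ≤ 1 / 4 * (r ^ 2)⁻¹ := mul_le_mul_of_nonneg_right hθ2 (by positivity)
        _ = (1 / (2 * r)) ^ 2 := by field_simp; norm_num
    rw [Real.norm_eq_abs]
    exact abs_le_of_sq_le_sq h4 (by positivity)
  have hstay : ∀ t ∈ Ioo (s - r ^ 2) s, ‖X t - x₀‖ ≤ r := by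
    intro t ht
    by_contra hcon
    rw [not_le, ← hX0] at hcon
    have hsubc : uIcc τ t ⊆ Ioo (s - r ^ 2) s := by
      intro q hq
      rw [mem_uIcc] at hq
      rcases hq with h1 | h1
      · exact ⟨by linarith [h1.1], by linarith [h1.2, ht.2]⟩
      · exact ⟨by linarith [h1.1, ht.1], by linarith [h1.2]⟩
    have hsubo : uIoc τ t ⊆ Ioo (s - r ^ 2) s := uIoc_subset_uIcc.trans hsubc
    have hae : ∀ᵐ q ∂(volume.restrict (uIoc τ t)), q ∈ G := by
      rw [ae_restrict_iff' measurableSet_uIoc]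
      exact sub_ae h (hsubo.trans hI)
    have hft := first_time (X := X) (Y := Y) (N := fun _ => (0 : ℝ)) (G := G)
      (t₀ := τ) (t := t) (r := r) (L := r ^ 2) (a := 1 / (2 * r)) (b := 0)
      hr0 (by positivity) le_rfl (fun q hq => hX.hd q (hI (hsubc hq)))
      (intervalIntegrable_iff.2 ((FPath_Y_int h hX).mono_set (hsubo.trans hI)))
      (by
        rw [abs_le]
        constructor <;> linarith [ht.1, ht.2])
      hcon hae integrableOn_zero (fun _ => le_rfl) (by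
        intro q hqG hq hle
        rw [mul_zero, add_zero]
        have hqI := hsubo hq
        exact hmoB q ⟨hqG, by linarith [hqI.1], by linarith [hqI.2]⟩ hle)
    rw [zero_mul, add_zero] at hft
    have e1 : 1 / (2 * r) * r ^ 2 = r / 2 := by field_simp
    linarith
  -- the dissipation along the path
  have hdis : ∫ t in Ioo (s - r ^ 2) s, B2 (X t) (8 * r) (u t) < ε * r := by
    have h1 : ∫ t in Ioo (s - r ^ 2) s, B2 (X t) (8 * r) (u t)
        ≤ ∫ t in Ioo (s - r ^ 2) s, B2 x₀ ρ (u t) := by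
      refine integral_mono_of_nonneg (ae_of_all _ fun t => B2_nn _ _ _)
        (hPA.2.1.mono_set_ae hW) ?_
      rw [EventuallyLE, ae_restrict_iff' measurableSet_Ioo]
      filter_upwards [hW] with t ht htI
      have h2 : t ∈ G := (ht htI).1
      refine B2_mn (sl_sm h.smooth_u h2) ?_
      apply ball_subset_ball'
      rw [dist_eq_norm]
      linarith [hstay t htI]
    have h2 : ∫ t in Ioo (s - r ^ 2) s, B2 x₀ ρ (u t) ≤ ∫ t in Wn G t₀ ρ, B2 x₀ ρ (u t) :=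
      setIntegral_mono_set hPA.2.1 (ae_of_all _ fun t => B2_nn _ _ _) hW
    have h3 := hPA.2.2
    have h4 : ρ * θ < ε * r := by
      rw [hρr]
      nlinarith
    linarith
  have hfin := hcr T E D G u p h r s hr0 (by linarith) hs2 X Y B CY hX hdis τ hτ (by linarith) hs1
  obtain ⟨z, hz⟩ : ∃ z : V, z = r⁻¹ • (y - X τ) := ⟨_, rfl⟩
  have hzy : X τ + r • z = y := by
    rw [hz, smul_smul, mul_inv_cancel₀ hr0.ne', one_smul]
    abel
  have hzb : z ∈ ball (0 : V) (1 / 4) := by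
    rw [mem_ball, dist_zero_right, hz, norm_smul, Real.norm_eq_abs, abs_of_pos (inv_pos.2 hr0),
      inv_mul_lt_iff₀ hr0, ← dist_eq_norm, hX0]
    have := mem_ball.1 hy
    linarith
  have hB0' : (0 : ℝ) ≤ C / r * (1 + √(2 / r * (ρ * θ) + 3072 * r ^ 2 * B ^ 2)) := by positivity
  rw [pi_norm_le_iff_of_nonneg (by positivity)]
  intro i
  have h1 := hfin z hzb i
  rw [hzy] at h1
  have h2 : √(2 / r * A2 (X τ) (4 * r) (u τ) + 3072 * r ^ 2 * B ^ 2)
      ≤ √(2 / r * (ρ * θ) + 3072 * r ^ 2 * B ^ 2) := by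
    apply Real.sqrt_le_sqrt
    have hτW : τ ∈ Wn G t₀ ρ := ⟨hτ, by linarith, by linarith⟩
    have h3 : A2 (X τ) (4 * r) (u τ) ≤ ρ * θ := by
      refine le_trans (A2_mn (sl_sm h.smooth_u hτ) ?_) (hPA.1 τ hτW)
      rw [hX0]
      exact ball_subset_ball (by linarith)
    have h4 := mul_le_mul_of_nonneg_left h3 (show 0 ≤ 2 / r by positivity)
    linarith
  have h3 : |Y τ i| ≤ B := (norm_le_pi_norm (Y τ) i).trans (hX.bd τ hτT)
  have h4 : u τ y i = (u τ y i - Y τ i) + Y τ i := by ring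
  rw [Real.norm_eq_abs, h4]
  refine (abs_add_le _ _).trans (add_le_add (h1.trans ?_) h3)
  apply mul_le_mul_of_nonneg_left _ (by positivity)
  linarith

end Pool.Agent.N982.MC
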