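import Pool.Agent.N982.MC.Sl

/-!
The final definitions, for an arbitrary viscosity `ν`.
-/

set_option autoImplicit false

open MeasureTheory Set Metric
open scoped ContDiff

namespace Pool.Agent.N982.MC

open H459R3.NS W221.NS Pool.Agent.Y8

/-- The times of `G` in the backward window `t₀ - r² / ν < t < t₀`. -/
def Wv (ν : ℝ) (G : Set ℝ) (t₀ r : ℝ) : Set ℝ := {t | t ∈ G ∧ t < t₀ ∧ ν * (t₀ - t) < r ^ 2}

/-- For the times of the backward window, the level sets of `ψ t` are surfaces around `x₀` at the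
scale `r`: `ψ ≤ (c r)²` at `x₀`, `μ |x - x₀|² ≤ ψ + (c r)²` everywhere, and `|∇ ψ|² ≤ 4 ψ`,
`∂ₜ ψ + ν Δ ψ ≥ 2 (1 + κ) ν` in the ball. -/
structure FolN (ν κ μ c r t₀ : ℝ) (x₀ : V) (ψ : ℝ → V → ℝ) : Prop where
  smooth : ContDiff ℝ ∞ (fun z : ℝ × V => ψ z.1 z.2)
  center : ∀ t, t < t₀ → ν * (t₀ - t) < r ^ 2 → ψ t x₀ ≤ (c * r) ^ 2
  low : ∀ t, t < t₀ → ν * (t₀ - t) < r ^ 2 → ∀ x,
    μ * ∑ i, (x i - x₀ i) ^ 2 ≤ ψ t x + (c * r) ^ 2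
  grad : ∀ t, t < t₀ → ν * (t₀ - t) < r ^ 2 → ∀ x ∈ ball x₀ r,
    ∑ i, pd i (ψ t) x ^ 2 ≤ 4 * ψ t x
  heat : ∀ t, t < t₀ → ν * (t₀ - t) < r ^ 2 → ∀ x ∈ ball x₀ r,
    2 * (1 + κ) * ν ≤ deriv (fun s => ψ s x) t + ν * lap (ψ t) x

/-- The energy content at the scale `r`:
`r⁻¹ (sup ∫ |u|² + ν ∫∫ |∇u|² + (ν ∫ (∫ |p - ⟨p⟩|²)^(2/3) dt)^(3/4))`, over the ball of radius `r`
and the backward window. -/
noncomputable def En (ν : ℝ) (G : Set ℝ) (t₀ : ℝ) (x₀ : V) (u : ℝ → V → V) (p : ℝ → V → ℝ)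
    (r : ℝ) : ℝ :=
  (sSup ((fun t => A2 x₀ r (u t)) '' Wv ν G t₀ r) + ν * (∫ t in Wv ν G t₀ r, B2 x₀ r (u t))
    + (ν * ∫ t in Wv ν G t₀ r, Pi2 (p t) x₀ r ^ (2 / 3 : ℝ)) ^ (3 / 4 : ℝ)) / r

/-- The scale `r` is good: for some `ψ`, the flux of energy inwards through the level sets of `ψ`
is at most `ε r³` times `ν²` plus the energy content, or the part of `u · ∇ ψ` which carries energy
inwards is small in the scale invariant norm of `L⁴ L²`. -/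
def GoodSc (ν κ μ c ε : ℝ) (G : Set ℝ) (t₀ : ℝ) (x₀ : V) (u : ℝ → V → V) (p : ℝ → V → ℝ)
    (r : ℝ) : Prop :=
  ∃ ψ : ℝ → V → ℝ, FolN ν κ μ c r t₀ x₀ ψ ∧
    (∫ t in Wv ν G t₀ r, FI (ψ t) x₀ r (u t) (p t)
        ≤ ε * r ^ 3 * (ν ^ 2 + En ν G t₀ x₀ u p r) ∨
      ∫ t in Wv ν G t₀ r, FX (ψ t) x₀ r (u t) (p t) ^ 2 ≤ ε * ν ^ 3 * r ^ 8)

end Pool.Agent.N982.MC
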