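import Pool.Agent.N982.MC.Ker
import Pool.Agent.W240.ME.DECT
import Pool.Agent.Y8.Joint

/-!
Foliations by the level sets of a function `ψ` and the test function.
-/

set_option autoImplicit false

open MeasureTheory Set Metric Filter Topology
open scoped ContDiff

namespace Pool.Agent.N982.MC

open H459R3.NS W221.NS Pool.Agent.Y8

/-- `u · ∇ ψ` -/
noncomputable def fl (ψ : V → ℝ) (v : V → V) (x : V) : ℝ := ∑ i, v x i * pd i ψ x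

/-- The level sets of `ψ` are surfaces around `x₀` at the scale `r`. -/
structure Fol (κ μ c r t₀ : ℝ) (x₀ : V) (ψ : ℝ → V → ℝ) : Prop where
  smooth : ContDiff ℝ ∞ (fun z : ℝ × V => ψ z.1 z.2)
  center : ∀ t, t ∈ Ioo (t₀ - r ^ 2) t₀ → ψ t x₀ ≤ (c * r) ^ 2
  low : ∀ t, t ∈ Ioo (t₀ - r ^ 2) t₀ → ∀ x, μ * ∑ i, (x i - x₀ i) ^ 2 ≤ ψ t x + (c * r) ^ 2
  grad : ∀ t, t ∈ Ioo (t₀ - r ^ 2) t₀ → ∀ x ∈ ball x₀ r, ∑ i, pd i (ψ t) x ^ 2 ≤ 4 * ψ t x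
  heat : ∀ t, t ∈ Ioo (t₀ - r ^ 2) t₀ → ∀ x ∈ ball x₀ r,
    2 * (1 + κ) ≤ deriv (fun s => ψ s x) t + lap (ψ t) x

lemma pd_chain {f : ℝ → ℝ} {g : V → ℝ} {f' : ℝ} {x : V} (hf : HasDerivAt f f' (g x))
    (hg : DifferentiableAt ℝ g x) (j : Fin 3) : pd j (fun y => f (g y)) x = f' * pd j g x := by
  unfold pd
  have h : HasFDerivAt (fun y => f (g y)) (f' • fderiv ℝ g x) x :=
    hf.comp_hasFDerivAt x hg.hasFDerivAt
  rw [h.fderiv]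
  simp

/-- The Laplacian of a composition. -/
lemma lap_chain {f f1 f2 : ℝ → ℝ} {g : V → ℝ} (hf : ∀ q, HasDerivAt f (f1 q) q)
    (hf1 : ∀ q, HasDerivAt f1 (f2 q) q) (hg : ContDiff ℝ ∞ g) (x : V) :
    lap (fun y => f (g y)) x = f1 (g x) * lap g x + f2 (g x) * ∑ j, pd j g x ^ 2 := by
  unfold lap
  rw [Finset.mul_sum, Finset.mul_sum, ← Finset.sum_add_distrib]
  refine Finset.sum_congr rfl fun j _ => ?_
  have e1 : pd j (fun y => f (g y)) = fun y => f1 (g y) * pd j g y := by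
    funext y
    exact pd_chain (hf _) (hg.differentiable (by simp) y) j
  rw [e1]
  have d1 : HasFDerivAt (fun y => f1 (g y)) (f2 (g x) • fderiv ℝ g x) x :=
    (hf1 _).comp_hasFDerivAt x (hg.differentiable (by simp) x).hasFDerivAt
  have d2 : HasFDerivAt (pd j g) (fderiv ℝ (pd j g) x) x :=
    ((Pool.Agent.W240.ME.cd_pd hg j).differentiable (by simp) x).hasFDerivAt
  have d3 : HasFDerivAt (fun y => f1 (g y) * pd j g y) _ x := d1.mul d2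
  have e2 : pd j (fun y => f1 (g y) * pd j g y) x
      = f1 (g x) * pd j (pd j g) x + pd j g x * (f2 (g x) * pd j g x) := by
    conv_lhs => unfold pd
    have d3' : fderiv ℝ (fun y => f1 (g y) * pd j g y) x
        = f1 (g x) • fderiv ℝ (pd j g) x + pd j g x • (f2 (g x) • fderiv ℝ g x) := d3.fderiv
    have d4 : fderiv ℝ (fun y => f1 (g y) * (fderiv ℝ g y) (Pi.single j 1)) x
        = f1 (g x) • fderiv ℝ (pd j g) x + pd j g x • (f2 (g x) • fderiv ℝ g x) := d3'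
    rw [d4]
    simp only [add_apply, smul_apply, smul_eq_mul]
    rfl
  rw [e2]
  ring

/-! ### The size of `ψ` -/

lemma one_dim {h h' : ℝ → ℝ} {a η : ℝ} (ha : 0 ≤ a) (hη : 0 < η)
    (hd : ∀ s ∈ Icc (0 : ℝ) 1, HasDerivAt h (h' s) s) (hn : ∀ s ∈ Icc (0 : ℝ) 1, 0 ≤ h s)
    (hb : ∀ s ∈ Icc (0 : ℝ) 1, h' s ^ 2 ≤ 4 * a ^ 2 * h s) :
    h 1 ≤ (√(h 0 + η) + a) ^ 2 := by
  have hg : ∀ s ∈ Icc (0 : ℝ) 1, HasDerivAt (fun s => √(h s + η)) (h' s / (2 * √(h s + η))) s := by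
    intro s hs
    have h1 : 0 < h s + η := by linarith [hn s hs]
    exact ((hd s hs).add_const η).sqrt h1.ne'
  have hbd : ∀ s ∈ Icc (0 : ℝ) 1, ‖h' s / (2 * √(h s + η))‖ ≤ a := by
    intro s hs
    have h1 : 0 < h s + η := by linarith [hn s hs]
    have h2 : 0 < √(h s + η) := Real.sqrt_pos.2 h1
    rw [Real.norm_eq_abs, abs_div, abs_of_pos (by positivity : 0 < 2 * √(h s + η)),
      div_le_iff₀ (by positivity)]
    apply abs_le_of_sq_le_sq _ (by positivity)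
    have h3 : (a * (2 * √(h s + η))) ^ 2 = 4 * a ^ 2 * (h s + η) := by
      rw [mul_pow, mul_pow, Real.sq_sqrt h1.le]
      ring
    rw [h3]
    have := hb s hs
    nlinarith [mul_nonneg (sq_nonneg a) hη.le]
  have hmv := (convex_Icc (0 : ℝ) 1).norm_image_sub_le_of_norm_hasDerivWithin_le
    (f := fun s => √(h s + η)) (f' := fun s => h' s / (2 * √(h s + η))) (C := a)
    (fun s hs => (hg s hs).hasDerivWithinAt) hbd (left_mem_Icc.2 zero_le_one)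
    (right_mem_Icc.2 zero_le_one)
  rw [sub_zero, norm_one, mul_one, Real.norm_eq_abs] at hmv
  have h1 : √(h 1 + η) ≤ √(h 0 + η) + a := by
    have := le_abs_self (√(h 1 + η) - √(h 0 + η))
    linarith
  have h2 : 0 ≤ h 1 + η := by linarith [hn 1 (right_mem_Icc.2 zero_le_one)]
  have h3 := pow_le_pow_left₀ (Real.sqrt_nonneg _) h1 2
  rw [Real.sq_sqrt h2] at h3
  linarith

section

variable {κ μ c r t₀ : ℝ} {x₀ : V} {ψ : ℝ → V → ℝ}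

lemma Fol.sm (h : Fol κ μ c r t₀ x₀ ψ) (t : ℝ) : ContDiff ℝ ∞ (ψ t) :=
  h.smooth.comp (contDiff_const.prodMk contDiff_id)

lemma Fol.nn (h : Fol κ μ c r t₀ x₀ ψ) {t : ℝ} (ht : t ∈ Ioo (t₀ - r ^ 2) t₀) {x : V}
    (hx : x ∈ ball x₀ r) : 0 ≤ ψ t x := by
  have h1 := h.grad t ht x hx
  have h2 : 0 ≤ ∑ i, pd i (ψ t) x ^ 2 := Finset.sum_nonneg fun i _ => sq_nonneg _
  linarith

/-- The growth of `ψ`. -/
lemma Fol.up (h : Fol κ μ c r t₀ x₀ ψ) {t : ℝ} (ht : t ∈ Ioo (t₀ - r ^ 2) t₀) {x : V} {s : ℝ}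
    (hs : 0 < s) (hsr : s ≤ r) (hc : c ^ 2 * r ^ 2 ≤ s ^ 2) (hx : x ∈ ball x₀ s) :
    ψ t x ≤ 10 * s ^ 2 := by
  have hxr : x ∈ ball x₀ r := ball_subset_ball hsr hx
  obtain ⟨v, hv⟩ : ∃ v : V, v = x - x₀ := ⟨_, rfl⟩
  have hvn : ‖v‖ < s := by
    rw [hv, ← dist_eq_norm]
    exact hx
  have hg := h.sm t
  obtain ⟨f, hf⟩ : ∃ f : ℝ → ℝ, f = fun τ => ψ t (x₀ + τ • v) := ⟨_, rfl⟩
  have hmem : ∀ τ ∈ Icc (0 : ℝ) 1, x₀ + τ • v ∈ ball x₀ r := by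
    intro τ hτ
    rw [mem_ball, dist_eq_norm, add_sub_cancel_left, norm_smul, Real.norm_eq_abs,
      abs_of_nonneg hτ.1]
    have : τ * ‖v‖ ≤ 1 * ‖v‖ := mul_le_mul_of_nonneg_right hτ.2 (norm_nonneg _)
    linarith
  have hd : ∀ τ ∈ Icc (0 : ℝ) 1, HasDerivAt f (∑ i, v i * pd i (ψ t) (x₀ + τ • v)) τ := by
    intro τ _
    rw [hf]
    have h1 : HasDerivAt (fun τ : ℝ => x₀ + τ • v) v τ := by
      simpa using ((hasDerivAt_id τ).smul_const v).const_add x₀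
    have h2 := (hg.differentiable (by simp) (x₀ + τ • v)).hasFDerivAt.comp_hasDerivAt τ h1
    refine h2.congr_deriv ?_
    have e : v = ∑ i, v i • (Pi.single i (1 : ℝ) : V) := by
      ext i
      simp [Finset.sum_apply, Pi.single_apply]
    conv_lhs => rw [e]
    rw [map_sum]
    refine Finset.sum_congr rfl fun i _ => ?_
    rw [map_smul, smul_eq_mul]
    conv_lhs => rw [← e]
    rfl
  obtain ⟨a, ha⟩ : ∃ a, a = √(∑ i, v i ^ 2) := ⟨_, rfl⟩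
  have ha2 : a ^ 2 = ∑ i, v i ^ 2 := by
    rw [ha]
    exact Real.sq_sqrt (Finset.sum_nonneg fun i _ => sq_nonneg _)
  have ha0 : 0 ≤ a := by rw [ha]; exact Real.sqrt_nonneg _
  have hav : a ^ 2 ≤ 3 * s ^ 2 := by
    rw [ha2]
    have h1 : ∀ i, v i ^ 2 ≤ s ^ 2 := fun i => by
      rw [← sq_abs]
      exact pow_le_pow_left₀ (abs_nonneg _) ((norm_le_pi_norm v i).trans hvn.le) 2
    rw [Fin.sum_univ_three]
    linarith [h1 0, h1 1, h1 2]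
  have h1 := one_dim (h := f) (h' := fun τ => ∑ i, v i * pd i (ψ t) (x₀ + τ • v)) (a := a)
    (η := s ^ 2) ha0 (by positivity) hd (fun τ hτ => by rw [hf]; exact h.nn ht (hmem τ hτ))
    (fun τ hτ => by
      have h2 := Finset.sum_mul_sq_le_sq_mul_sq Finset.univ (fun i => v i)
        (fun i => pd i (ψ t) (x₀ + τ • v))
      have h3 := h.grad t ht _ (hmem τ hτ)
      have h4 : (∑ i, v i ^ 2) * ∑ i, pd i (ψ t) (x₀ + τ • v) ^ 2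
          ≤ (∑ i, v i ^ 2) * (4 * ψ t (x₀ + τ • v)) :=
        mul_le_mul_of_nonneg_left h3 (Finset.sum_nonneg fun i _ => sq_nonneg _)
      rw [hf, ha2]
      calc _ ≤ _ := h2
        _ ≤ _ := h4
        _ = _ := by ring)
  have e1 : f 1 = ψ t x := by
    rw [hf, hv]
    simp
  have e0 : f 0 = ψ t x₀ := by
    rw [hf]
    simp
  rw [e1, e0] at h1
  have h2 := h.center t ht
  have h0 : 0 ≤ ψ t x₀ + s ^ 2 := by
    have := h.nn ht (mem_ball_self (hs.trans_le hsr))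
    positivity
  have h3 : (√(ψ t x₀ + s ^ 2)) ^ 2 ≤ 2 * s ^ 2 := by
    rw [Real.sq_sqrt h0]
    have : (c * r) ^ 2 = c ^ 2 * r ^ 2 := by ring
    linarith
  -- `(√2 + √3)² ≤ 10`
  obtain ⟨A, hA⟩ : ∃ A, A = √(ψ t x₀ + s ^ 2) := ⟨_, rfl⟩
  rw [← hA] at h1 h3
  have h4 : (A + a) ^ 2 ≤ 10 * s ^ 2 := by
    nlinarith [sq_nonneg (3 * A - 2 * a), sq_nonneg (A - a), sq_nonneg (5 * A - 4 * a)]
  exact h1.trans h4

lemma Fol.out (h : Fol κ μ c r t₀ x₀ ψ) (hμ : 0 < μ) (hr : 0 < r) (hc : c ^ 2 ≤ μ / 64) {t : ℝ}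
    (ht : t ∈ Ioo (t₀ - r ^ 2) t₀) {x : V} (hx : x ∉ ball x₀ (r / 4)) : μ / 64 * r ^ 2 ≤ ψ t x := by
  have h1 := h.low t ht x
  rw [mem_ball, not_lt, dist_eq_norm] at hx
  obtain ⟨i, hi⟩ : ∃ i, r / 4 ≤ ‖(x - x₀) i‖ := by
    by_contra hcon
    push Not at hcon
    have : ‖x - x₀‖ < r / 4 := (pi_norm_lt_iff (by positivity)).2 hcon
    linarith
  rw [Real.norm_eq_abs] at hi
  have h2 : (r / 4) ^ 2 ≤ (x i - x₀ i) ^ 2 := by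
    have e : (x - x₀) i = x i - x₀ i := rfl
    rw [e] at hi
    rw [← sq_abs (x i - x₀ i)]
    exact pow_le_pow_left₀ (by positivity) hi 2
  have h3 : (r / 4) ^ 2 ≤ ∑ i, (x i - x₀ i) ^ 2 :=
    h2.trans (Finset.single_le_sum (f := fun i => (x i - x₀ i) ^ 2) (fun _ _ => sq_nonneg _)
      (Finset.mem_univ i))
  have h4 := mul_le_mul_of_nonneg_left h3 hμ.le
  have h5 : (c * r) ^ 2 ≤ μ / 64 * r ^ 2 := by
    rw [mul_pow]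
    exact mul_le_mul_of_nonneg_right hc (sq_nonneg _)
  have h6 : 0 < μ * r ^ 2 := by positivity
  nlinarith

/-! ### The test function -/

/-- The test function. -/
noncomputable def Ph (α w σ ρ t₀ : ℝ) (ψ : ℝ → V → ℝ) (t : ℝ) (x : V) : ℝ :=
  F0 α w σ ((t - t₀) / ρ ^ 2) (ψ t x / ρ ^ 2)

variable {α w σ ρ : ℝ}

lemma Ph_nn (t : ℝ) (x : V) : 0 ≤ Ph α w σ ρ t₀ ψ t x := F0_nn _ _ _ _ _

lemma Ph_smooth (hψ : ContDiff ℝ ∞ (fun z : ℝ × V => ψ z.1 z.2)) (hρ : 0 < ρ) :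
    ContDiffOn ℝ ∞ (fun z : ℝ × V => Ph α w σ ρ t₀ ψ z.1 z.2)
      (Iio (t₀ + 2 * σ ^ 2 * ρ ^ 2) ×ˢ univ) := by
  unfold Ph
  have h1 : ContDiff ℝ ∞ (fun z : ℝ × V => ((z.1 - t₀) / ρ ^ 2, ψ z.1 z.2 / ρ ^ 2)) :=
    ((contDiff_fst.sub contDiff_const).div_const _).prodMk (hψ.div_const _)
  refine (F0_smooth α w σ).comp h1.contDiffOn ?_
  intro z hz
  refine ⟨?_, mem_univ _⟩
  have h2 : z.1 < t₀ + 2 * σ ^ 2 * ρ ^ 2 := hz.1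
  show (z.1 - t₀) / ρ ^ 2 < 2 * σ ^ 2
  rw [div_lt_iff₀ (by positivity)]
  linarith

lemma Ph_early (hw : 0 < w) (hρ : 0 < ρ) {t : ℝ} (ht : t ≤ t₀ - ρ ^ 2 / 16) (x : V) :
    Ph α w σ ρ t₀ ψ t x = 0 := by
  refine F0_supp hw (Or.inr ?_)
  rw [div_le_iff₀ (by positivity)]
  linarith

lemma Ph_out (h : Fol κ μ c ρ t₀ x₀ ψ) (hμ : 0 < μ) (hρ : 0 < ρ) (hc : c ^ 2 ≤ μ / 64) {t : ℝ}
    (ht : t ∈ Ioo (t₀ - ρ ^ 2) t₀) {x : V} (hx : x ∉ ball x₀ (ρ / 4)) :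
    Ph α (μ / 64) σ ρ t₀ ψ t x = 0 := by
  refine F0_supp (by positivity) (Or.inl ?_)
  rw [le_div_iff₀ (by positivity)]
  exact h.out hμ hρ hc ht hx

lemma Ph_low (h : Fol κ μ c ρ t₀ x₀ ψ) (hκ : 0 < κ) (hμ : 0 < μ) (hρ : 0 < ρ) (hσ0 : 0 < σ)
    (hσ : σ ^ 2 ≤ 1 / 32) (hσw : 24 * σ ^ 2 ≤ μ / 64) (hc : c ^ 2 ≤ σ ^ 2) {t : ℝ}
    (ht1 : t₀ - σ ^ 2 * ρ ^ 2 ≤ t) (ht2 : t < t₀) {x : V}
    (hx : x ∈ ball x₀ (σ * ρ)) :
    Real.exp (-3) * Real.exp (-((1 + κ) * Real.log (3 * σ ^ 2)) / 2)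
      ≤ Ph (1 + κ) (μ / 64) σ ρ t₀ ψ t x := by
  have hρ2 : 0 < ρ ^ 2 := by positivity
  have hσ2 : 0 < σ ^ 2 := by positivity
  have hσ1 : σ ≤ 1 := by nlinarith
  have htt : t ∈ Ioo (t₀ - ρ ^ 2) t₀ := by
    have : σ ^ 2 * ρ ^ 2 ≤ 1 / 32 * ρ ^ 2 := mul_le_mul_of_nonneg_right hσ hρ2.le
    exact ⟨by linarith, ht2⟩
  have hσρ : 0 < σ ^ 2 * ρ ^ 2 := by positivity
  refine F0_low (by linarith) (by positivity) hσ0 hσ hσw ?_ ?_ ?_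
  · rw [le_div_iff₀ hρ2]
    linarith
  · rw [div_le_iff₀ hρ2]
    linarith
  · rw [div_le_iff₀ hρ2]
    have h1 := h.up htt (s := σ * ρ) (by positivity) (by nlinarith) (by
      rw [mul_pow]
      exact mul_le_mul_of_nonneg_right hc hρ2.le) hx
    nlinarith

lemma Ph_deriv (hψ : ContDiff ℝ ∞ (fun z : ℝ × V => ψ z.1 z.2)) (hρ : 0 < ρ) {t : ℝ}
    (ht : t < t₀ + 2 * σ ^ 2 * ρ ^ 2) (x : V) :
    deriv (fun s => Ph α w σ ρ t₀ ψ s x) t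
      = (Ft α w σ ((t - t₀) / ρ ^ 2) (ψ t x / ρ ^ 2)
        + Fq α w σ ((t - t₀) / ρ ^ 2) (ψ t x / ρ ^ 2) * deriv (fun s => ψ s x) t) / ρ ^ 2 := by
  have h1 : HasDerivAt (fun s : ℝ => (s - t₀) / ρ ^ 2) (1 / ρ ^ 2) t :=
    ((hasDerivAt_id t).sub_const t₀).div_const _
  have hd : HasDerivAt (fun s => ψ s x) (deriv (fun s => ψ s x) t) t := by
    have h2 : ContDiff ℝ ∞ (fun s => ψ s x) := hψ.comp (contDiff_id.prodMk contDiff_const)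
    exact (h2.differentiable (by simp) t).hasDerivAt
  have h2 : (t - t₀) / ρ ^ 2 < 2 * σ ^ 2 := by
    rw [div_lt_iff₀ (by positivity)]
    linarith
  have h3 := F0_curve (α := α) (w := w) (σ := σ) h1 (hd.div_const (ρ ^ 2)) h2
  have h4 : HasDerivAt (fun s => Ph α w σ ρ t₀ ψ s x) _ t := h3
  rw [h4.deriv]
  ring

lemma Ph_lap {t : ℝ} (hψ : ContDiff ℝ ∞ (ψ t)) (x : V) :
    lap (Ph α w σ ρ t₀ ψ t) x
      = Fq α w σ ((t - t₀) / ρ ^ 2) (ψ t x / ρ ^ 2) * lap (ψ t) x / ρ ^ 2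
        + Fqq α w σ ((t - t₀) / ρ ^ 2) (ψ t x / ρ ^ 2) * (∑ j, pd j (ψ t) x ^ 2)
          / (ρ ^ 2) ^ 2 := by
  have hg : ContDiff ℝ ∞ (fun y => ψ t y / ρ ^ 2) := hψ.div_const _
  have h1 := lap_chain (g := fun y => ψ t y / ρ ^ 2)
    (fun q => F0_hdq α w σ ((t - t₀) / ρ ^ 2) q)
    (fun q => Fq_hdq α w σ ((t - t₀) / ρ ^ 2) q) hg x
  have e1 : ∀ (f : V → ℝ), ContDiff ℝ ∞ f → ∀ j y,
      pd j (fun y => f y / ρ ^ 2) y = pd j f y / ρ ^ 2 := by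
    intro f hf j y
    have h2 : (fun y : V => f y / ρ ^ 2) = fun y => (fun _ : V => (ρ ^ 2)⁻¹) y * f y := by
      funext z
      rw [div_eq_mul_inv, mul_comm]
    rw [h2, Pool.Agent.W240.ME.pd_mul contDiff_const hf, Pool.Agent.W240.ME.pd_const]
    rw [div_eq_mul_inv]
    ring
  have e2 : lap (fun y => ψ t y / ρ ^ 2) x = lap (ψ t) x / ρ ^ 2 := by
    unfold lap
    rw [Finset.sum_div]
    refine Finset.sum_congr rfl fun j _ => ?_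
    have h2 : pd j (fun y => ψ t y / ρ ^ 2) = fun y => pd j (ψ t) y / ρ ^ 2 := by
      funext y
      exact e1 _ hψ j y
    rw [h2, e1 _ (Pool.Agent.W240.ME.cd_pd hψ j)]
  have e3 : ∑ j, pd j (fun y => ψ t y / ρ ^ 2) x ^ 2
      = (∑ j, pd j (ψ t) x ^ 2) / (ρ ^ 2) ^ 2 := by
    rw [Finset.sum_div]
    refine Finset.sum_congr rfl fun j _ => ?_
    rw [e1 _ hψ j, div_pow]
  rw [e2, e3] at h1
  have h2 : lap (Ph α w σ ρ t₀ ψ t) x = _ := h1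
  rw [h2]
  ring

lemma Ph_adv {t : ℝ} (hψ : ContDiff ℝ ∞ (ψ t)) (v : V → V) (x : V) :
    adv v (Ph α w σ ρ t₀ ψ t) x
      = 1 / ρ ^ 2 * Fq α w σ ((t - t₀) / ρ ^ 2) (ψ t x / ρ ^ 2) * fl (ψ t) v x := by
  unfold adv fl
  rw [Finset.mul_sum]
  refine Finset.sum_congr rfl fun j _ => ?_
  have hg : ContDiff ℝ ∞ (fun y => ψ t y / ρ ^ 2) := hψ.div_const _
  have e : pd j (Ph α w σ ρ t₀ ψ t) x = _ :=
    pd_chain (g := fun y => ψ t y / ρ ^ 2) (F0_hdq α w σ ((t - t₀) / ρ ^ 2) (ψ t x / ρ ^ 2))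
      (hg.differentiable (by simp) x) j
  have h2 : (fun y : V => ψ t y / ρ ^ 2) = fun y => (fun _ : V => (ρ ^ 2)⁻¹) y * ψ t y := by
    funext z
    rw [div_eq_mul_inv, mul_comm]
  have e1 : pd j (fun y => ψ t y / ρ ^ 2) x = (ρ ^ 2)⁻¹ * pd j (ψ t) x := by
    rw [h2, Pool.Agent.W240.ME.pd_mul contDiff_const hψ, Pool.Agent.W240.ME.pd_const]
    ring
  rw [e, e1, one_div]
  ring

lemma Ph_heat (hμ : 0 < μ) (hκ : 0 < κ) (hκ1 : κ ≤ 3) : ∃ C : ℝ, 0 < C ∧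
    ∀ (ψ : ℝ → V → ℝ) (σ ρ t₀ t c : ℝ) (x₀ x : V), Fol κ μ c ρ t₀ x₀ ψ → 0 < ρ →
      0 < σ → σ ^ 2 ≤ 1 / 32 → t ∈ Ioo (t₀ - ρ ^ 2) t₀ → x ∈ ball x₀ ρ →
        deriv (fun s => Ph (1 + κ) (μ / 64) σ ρ t₀ ψ s x) t
          + lap (Ph (1 + κ) (μ / 64) σ ρ t₀ ψ t) x ≤ C / ρ ^ 2 := by
  obtain ⟨C, hC, hh⟩ := heat (w := μ / 64) (by positivity)
  refine ⟨C, hC, fun ψ σ ρ t₀ t c x₀ x hF hρ hσ0 hσ htt hx => ?_⟩
  have hρ2 : 0 < ρ ^ 2 := by positivity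
  have ht : t < t₀ + 2 * σ ^ 2 * ρ ^ 2 := by
    have : 0 < σ ^ 2 * ρ ^ 2 := by positivity
    linarith [htt.2]
  rw [Ph_deriv hF.smooth hρ ht, Ph_lap (hF.sm t)]
  have h2 : 0 < 2 * σ ^ 2 - (t - t₀) / ρ ^ 2 := by
    rw [sub_pos, div_lt_iff₀ hρ2]
    linarith
  have hg := hF.grad t htt x hx
  have hh1 := hF.heat t htt x hx
  have hn := hF.nn htt hx
  have hsn : 0 ≤ ∑ j, pd j (ψ t) x ^ 2 := Finset.sum_nonneg fun i _ => sq_nonneg _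
  have h3 := hh (1 + κ) σ ((t - t₀) / ρ ^ 2) (ψ t x / ρ ^ 2)
    ((∑ j, pd j (ψ t) x ^ 2) / (4 * ρ ^ 2)) (deriv (fun s => ψ s x) t + lap (ψ t) x)
    (by linarith) (by linarith) hσ h2 (by positivity) (by positivity) (by
      rw [div_le_div_iff₀ (by positivity) hρ2]
      nlinarith) hh1
  rw [le_div_iff₀ hρ2]
  refine le_trans (le_of_eq ?_) h3
  field_simp
  ring

lemma Ph_grad (hμ : 0 < μ) (hκ : 0 < κ) (hκ1 : κ ≤ 3) {σ : ℝ} (hσ0 : 0 < σ)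
    (hσ : σ ^ 2 ≤ 1 / 32) : ∃ C : ℝ, 0 < C ∧ ∀ (ψ : ℝ → V → ℝ) (ρ t₀ t c : ℝ) (x₀ x : V),
      Fol κ μ c ρ t₀ x₀ ψ → 0 < ρ → c ^ 2 ≤ μ / 64 → t ∈ Ioo (t₀ - ρ ^ 2) t₀ →
        (x ∈ ball x₀ ρ → -C ≤ Fq (1 + κ) (μ / 64) σ ((t - t₀) / ρ ^ 2) (ψ t x / ρ ^ 2)) ∧
        Fq (1 + κ) (μ / 64) σ ((t - t₀) / ρ ^ 2) (ψ t x / ρ ^ 2) ≤ 0 ∧
        (x ∉ ball x₀ (ρ / 4) →
          Fq (1 + κ) (μ / 64) σ ((t - t₀) / ρ ^ 2) (ψ t x / ρ ^ 2) = 0) := by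
  obtain ⟨C, hC, hh⟩ := Fq_bd (w := μ / 64) (by positivity) hσ0 hσ
  refine ⟨C, hC, fun ψ ρ t₀ t c x₀ x hF hρ hc htt => ?_⟩
  have hρ2 : 0 < ρ ^ 2 := by positivity
  have hσ2 : 0 < σ ^ 2 := by positivity
  have h1 : (t - t₀) / ρ ^ 2 ≤ σ ^ 2 := by
    rw [div_le_iff₀ hρ2]
    have : 0 < σ ^ 2 * ρ ^ 2 := by positivity
    linarith [htt.2]
  refine ⟨fun hx => hh (1 + κ) _ _ (by linarith) h1 (div_nonneg (hF.nn htt hx) hρ2.le),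
    Fq_np (by positivity) (by linarith), fun hx => ?_⟩
  refine Fq_supp (by positivity) ?_
  rw [le_div_iff₀ hρ2]
  exact hF.out hμ hρ hc htt hx

end

end Pool.Agent.N982.MC
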