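import Mathlib

/-!
The kernel: a cut-off Gaussian in the variable `q` (the value of the function `ψ` whose level sets
are the surfaces) with the time weight of dimension `α`.
-/

set_option autoImplicit false

open Set Filter Topology
open scoped ContDiff

namespace Pool.Agent.N982.MC

/-- the smooth transition -/
noncomputable def sT (z : ℝ) : ℝ := Real.smoothTransition z

/-- its derivative -/
noncomputable def sT1 (z : ℝ) : ℝ := deriv sT z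

/-- its second derivative -/
noncomputable def sT2 (z : ℝ) : ℝ := deriv sT1 z

lemma sT_cd : ContDiff ℝ ∞ sT := Real.smoothTransition.contDiff

lemma sT1_cd : ContDiff ℝ ∞ sT1 := (contDiff_infty_iff_deriv.1 sT_cd).2

lemma sT2_cd : ContDiff ℝ ∞ sT2 := (contDiff_infty_iff_deriv.1 sT1_cd).2

lemma sT_hd (z : ℝ) : HasDerivAt sT (sT1 z) z :=
  (sT_cd.differentiable (by simp) z).hasDerivAt

lemma sT1_hd (z : ℝ) : HasDerivAt sT1 (sT2 z) z :=
  (sT1_cd.differentiable (by simp) z).hasDerivAt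

lemma sT_nn (z : ℝ) : 0 ≤ sT z := Real.smoothTransition.nonneg z

lemma sT_le (z : ℝ) : sT z ≤ 1 := Real.smoothTransition.le_one z

lemma sT_zero {z : ℝ} (h : z ≤ 0) : sT z = 0 := Real.smoothTransition.zero_of_nonpos h

lemma sT_one {z : ℝ} (h : 1 ≤ z) : sT z = 1 := Real.smoothTransition.one_of_one_le h

lemma sT1_nn (z : ℝ) : 0 ≤ sT1 z := (Real.smoothTransition.monotone).deriv_nonneg

lemma sT1_zero {z : ℝ} (h : z < 0 ∨ 1 < z) : sT1 z = 0 := by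
  unfold sT1
  rcases h with h | h
  · have : sT =ᶠ[𝓝 z] fun _ => 0 := by
      filter_upwards [Iio_mem_nhds h] with y hy using sT_zero (le_of_lt hy)
    rw [this.deriv_eq]; simp
  · have : sT =ᶠ[𝓝 z] fun _ => 1 := by
      filter_upwards [Ioi_mem_nhds h] with y hy using sT_one (le_of_lt hy)
    rw [this.deriv_eq]; simp

lemma sT2_zero {z : ℝ} (h : z < 0 ∨ 1 < z) : sT2 z = 0 := by
  unfold sT2
  rcases h with h | h
  · have : sT1 =ᶠ[𝓝 z] fun _ => 0 := by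
      filter_upwards [Iio_mem_nhds h] with y hy using sT1_zero (Or.inl hy)
    rw [this.deriv_eq]; simp
  · have : sT1 =ᶠ[𝓝 z] fun _ => 0 := by
      filter_upwards [Ioi_mem_nhds h] with y hy using sT1_zero (Or.inr hy)
    rw [this.deriv_eq]; simp

lemma sT_bd : ∃ C : ℝ, 0 < C ∧ ∀ z, sT1 z ≤ C ∧ |sT2 z| ≤ C := by
  obtain ⟨C1, h1⟩ := (isCompact_Icc (a := (0 : ℝ)) (b := 1)).exists_bound_of_continuousOn
    sT1_cd.continuous.continuousOn
  obtain ⟨C2, h2⟩ := (isCompact_Icc (a := (0 : ℝ)) (b := 1)).exists_bound_of_continuousOn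
    sT2_cd.continuous.continuousOn
  refine ⟨|C1| + |C2| + 1, by positivity, fun z => ?_⟩
  by_cases hz : z ∈ Icc (0 : ℝ) 1
  · have a1 := h1 z hz
    have a2 := h2 z hz
    rw [Real.norm_eq_abs] at a1 a2
    constructor
    · linarith [le_abs_self (sT1 z), le_abs_self C1, abs_nonneg C2]
    · linarith [le_abs_self C2, abs_nonneg C1]
  · have hz' : z < 0 ∨ 1 < z := by
      by_contra hc
      push Not at hc
      exact hz ⟨hc.1, hc.2⟩
    rw [sT1_zero hz', sT2_zero hz', abs_zero]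
    constructor <;> positivity

/-- the Gaussian -/
noncomputable def ex (α s q : ℝ) : ℝ := Real.exp (-(α * Real.log s) / 2 - q / (4 * s))

/-- the kernel -/
noncomputable def F0 (α w σ τ q : ℝ) : ℝ :=
  ex α (2 * σ ^ 2 - τ) q * (sT (2 - 2 * q / w) * sT (32 * τ + 2))

/-- its derivative in `q` -/
noncomputable def Fq (α w σ τ q : ℝ) : ℝ :=
  ex α (2 * σ ^ 2 - τ) q * ((-(1 / (4 * (2 * σ ^ 2 - τ))) * sT (2 - 2 * q / w)
    - 2 / w * sT1 (2 - 2 * q / w)) * sT (32 * τ + 2))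

/-- its second derivative in `q` -/
noncomputable def Fqq (α w σ τ q : ℝ) : ℝ :=
  ex α (2 * σ ^ 2 - τ) q * (((1 / (4 * (2 * σ ^ 2 - τ))) ^ 2 * sT (2 - 2 * q / w)
    + 2 * (1 / (4 * (2 * σ ^ 2 - τ))) * (2 / w * sT1 (2 - 2 * q / w))
    + (2 / w) ^ 2 * sT2 (2 - 2 * q / w)) * sT (32 * τ + 2))

/-- its derivative in `τ` -/
noncomputable def Ft (α w σ τ q : ℝ) : ℝ :=
  ex α (2 * σ ^ 2 - τ) q * ((2 * α * (1 / (4 * (2 * σ ^ 2 - τ)))
    - 4 * q * (1 / (4 * (2 * σ ^ 2 - τ))) ^ 2) * (sT (2 - 2 * q / w) * sT (32 * τ + 2))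
    + sT (2 - 2 * q / w) * (32 * sT1 (32 * τ + 2)))

lemma ex_hdq (α s q : ℝ) : HasDerivAt (ex α s) (ex α s q * (-(1 / (4 * s)))) q := by
  unfold ex
  have h := (((hasDerivAt_id q).div_const (4 * s)).const_sub (-(α * Real.log s) / 2)).exp
  simpa using h

lemma chi_hdq (w q : ℝ) :
    HasDerivAt (fun q => sT (2 - 2 * q / w)) (-(2 / w * sT1 (2 - 2 * q / w))) q := by
  have h1 : HasDerivAt (fun q : ℝ => 2 - 2 * q / w) (-(2 / w)) q := by
    have := (((hasDerivAt_id q).const_mul (2 : ℝ)).div_const w).const_sub 2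
    simpa using this
  have h := (sT_hd (2 - 2 * q / w)).comp q h1
  refine h.congr_deriv ?_
  ring

lemma chi1_hdq (w q : ℝ) :
    HasDerivAt (fun q => sT1 (2 - 2 * q / w)) (-(2 / w * sT2 (2 - 2 * q / w))) q := by
  have h1 : HasDerivAt (fun q : ℝ => 2 - 2 * q / w) (-(2 / w)) q := by
    have := (((hasDerivAt_id q).const_mul (2 : ℝ)).div_const w).const_sub 2
    simpa using this
  have h := (sT1_hd (2 - 2 * q / w)).comp q h1
  refine h.congr_deriv ?_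
  ring

lemma F0_hdq (α w σ τ q : ℝ) : HasDerivAt (F0 α w σ τ) (Fq α w σ τ q) q := by
  have h := (ex_hdq α (2 * σ ^ 2 - τ) q).mul ((chi_hdq w q).mul_const (sT (32 * τ + 2)))
  unfold F0
  refine h.congr_deriv ?_
  unfold Fq
  ring

lemma Fq_hdq (α w σ τ q : ℝ) : HasDerivAt (Fq α w σ τ) (Fqq α w σ τ q) q := by
  have h := (ex_hdq α (2 * σ ^ 2 - τ) q).mul ((((chi_hdq w q).const_mul
    (-(1 / (4 * (2 * σ ^ 2 - τ))))).sub ((chi1_hdq w q).const_mul (2 / w))).mul_const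
    (sT (32 * τ + 2)))
  unfold Fq
  refine h.congr_deriv ?_
  unfold Fqq
  simp only [Pi.sub_apply]
  ring

lemma F0_hdt {α w σ τ q : ℝ} (hs : 0 < 2 * σ ^ 2 - τ) :
    HasDerivAt (fun τ => F0 α w σ τ q) (Ft α w σ τ q) τ := by
  have hs1 : HasDerivAt (fun τ : ℝ => 2 * σ ^ 2 - τ) (-1) τ := by
    simpa using (hasDerivAt_id τ).const_sub (2 * σ ^ 2)
  have h1 : HasDerivAt (fun τ => ex α (2 * σ ^ 2 - τ) q) (ex α (2 * σ ^ 2 - τ) q *
      (2 * α * (1 / (4 * (2 * σ ^ 2 - τ)))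
        - 4 * q * (1 / (4 * (2 * σ ^ 2 - τ))) ^ 2)) τ := by
    unfold ex
    have hlog := hs1.log hs.ne'
    have h2 := ((hlog.const_mul α).neg.div_const 2).sub
      ((hs1.const_mul 4).inv (by positivity) |>.const_mul q)
    have h3 := h2.exp
    have e : (fun τ => Real.exp (-(α * Real.log (2 * σ ^ 2 - τ)) / 2 - q / (4 * (2 * σ ^ 2 - τ))))
        = fun τ => Real.exp (-(α * Real.log (2 * σ ^ 2 - τ)) / 2
          - q * (4 * (2 * σ ^ 2 - τ))⁻¹) := by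
      funext τ
      rw [div_eq_mul_inv q]
    rw [e]
    refine h3.congr_deriv ?_
    rw [div_eq_mul_inv q]
    congr 1
    field_simp
    ring
  have h4 : HasDerivAt (fun τ : ℝ => sT (32 * τ + 2)) (32 * sT1 (32 * τ + 2)) τ := by
    have h5 : HasDerivAt (fun τ : ℝ => 32 * τ + 2) 32 τ := by
      simpa using ((hasDerivAt_id τ).const_mul (32 : ℝ)).add_const 2
    have h := (sT_hd (32 * τ + 2)).comp τ h5
    refine h.congr_deriv ?_
    ring
  have h := h1.mul (h4.const_mul (sT (2 - 2 * q / w)))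
  unfold F0
  refine h.congr_deriv ?_
  unfold Ft
  ring

lemma ex_pos (α s q : ℝ) : 0 < ex α s q := Real.exp_pos _

lemma F0_nn (α w σ τ q : ℝ) : 0 ≤ F0 α w σ τ q :=
  mul_nonneg (ex_pos _ _ _).le (mul_nonneg (sT_nn _) (sT_nn _))

lemma Fq_np {α w σ τ q : ℝ} (hw : 0 < w) (hs : 0 < 2 * σ ^ 2 - τ) :
    Fq α w σ τ q ≤ 0 := by
  unfold Fq
  refine mul_nonpos_of_nonneg_of_nonpos (ex_pos _ _ _).le
    (mul_nonpos_of_nonpos_of_nonneg ?_ (sT_nn _))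
  have h1 : 0 ≤ 1 / (4 * (2 * σ ^ 2 - τ)) * sT (2 - 2 * q / w) :=
    mul_nonneg (by positivity) (sT_nn _)
  have h2 : 0 ≤ 2 / w * sT1 (2 - 2 * q / w) := mul_nonneg (by positivity) (sT1_nn _)
  linarith

/-- for small `s` the exponent -/
lemma ex_le {α s q : ℝ} (hα : α ≤ 4) (hs : 0 < s) (hs1 : s ≤ 1) :
    ex α s q ≤ (s ^ 2)⁻¹ * Real.exp (-(q / (4 * s))) := by
  unfold ex
  have hlog : Real.log s ≤ 0 := Real.log_nonpos hs.le hs1
  have h1 : -(α * Real.log s) / 2 ≤ -(2 * Real.log s) := by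
    rw [div_le_iff₀ (by positivity)]
    nlinarith
  have h3 : (s ^ 2)⁻¹ = Real.exp (-(2 * Real.log s)) := by
    rw [Real.exp_neg, ← Nat.cast_two (R := ℝ), ← Real.log_pow, Real.exp_log (by positivity)]
  rw [h3, ← Real.exp_add]
  apply Real.exp_le_exp.2
  linarith

lemma exp_bd {c s : ℝ} (hc : 0 < c) (hs : 0 < s) : Real.exp (-(c / s)) ≤ 6 * s ^ 3 / c ^ 3 := by
  have h := Real.pow_div_factorial_le_exp (c / s) (by positivity) 3
  have h2 : (c / s) ^ 3 / 6 ≤ Real.exp (c / s) := by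
    have : ((Nat.factorial 3 : ℕ) : ℝ) = 6 := by norm_num [Nat.factorial]
    rw [this] at h
    exact h
  rw [Real.exp_neg]
  have h3 : 0 < (c / s) ^ 3 / 6 := by positivity
  calc (Real.exp (c / s))⁻¹ ≤ ((c / s) ^ 3 / 6)⁻¹ := inv_anti₀ h3 h2
    _ = 6 * s ^ 3 / c ^ 3 := by field_simp

lemma ex_far {α s q w : ℝ} (hα : α ≤ 4) (hs : 0 < s) (hs1 : s ≤ 1) (hw : 0 < w)
    (hq : w / 2 ≤ q) : ex α s q ≤ 6 * s / (w / 8) ^ 3 := by
  refine (ex_le hα hs hs1).trans ?_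
  have h1 : Real.exp (-(q / (4 * s))) ≤ Real.exp (-((w / 8) / s)) := by
    apply Real.exp_le_exp.2
    have : (w / 8) / s ≤ q / (4 * s) := by
      rw [div_le_div_iff₀ hs (by positivity)]
      nlinarith
    linarith
  calc (s ^ 2)⁻¹ * Real.exp (-(q / (4 * s))) ≤ (s ^ 2)⁻¹ * (6 * s ^ 3 / (w / 8) ^ 3) := by
        apply mul_le_mul_of_nonneg_left (h1.trans (exp_bd (by positivity) hs)) (by positivity)
    _ = 6 * s / (w / 8) ^ 3 := by field_simp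

lemma pure1 {e X Y1 Cs : ℝ} (he : e ≤ 1024) (hX : 0 ≤ X) (hX1 : X ≤ 1) (hY : 0 ≤ Y1)
    (hY1 : Y1 ≤ Cs) : e * (X * (32 * Y1)) ≤ 1024 * (32 * Cs) := by
  have h4 : X * (32 * Y1) ≤ 1 * (32 * Cs) :=
    mul_le_mul hX1 (by linarith) (by linarith) (by norm_num)
  rw [one_mul] at h4
  exact mul_le_mul he h4 (mul_nonneg hX (by linarith)) (by norm_num)

lemma pure2 {m w k K x C Y : ℝ} (hm : 0 ≤ m) (hmw : m ≤ w) (hk : 0 ≤ k) (hK : k ≤ K)
    (hx : 0 ≤ x) (hC : x ≤ C) (hY1 : Y ≤ 1) : m * k * x * Y ≤ w * K * C := by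
  have h1 : m * k ≤ w * K := mul_le_mul hmw hK hk (hm.trans hmw)
  have h2 : m * k * x ≤ w * K * C := mul_le_mul h1 hC hx ((mul_nonneg hm hk).trans h1)
  have h3 : 0 ≤ m * k * x := mul_nonneg (mul_nonneg hm hk) hx
  nlinarith

lemma eB_le {e s c : ℝ} (h1 : e ≤ 6 * s / c) (hs : 0 < s) (hc : 0 < c) :
    e * (1 / (4 * s)) ≤ 5 / c := by
  calc e * (1 / (4 * s)) ≤ (6 * s / c) * (1 / (4 * s)) :=
        mul_le_mul_of_nonneg_right h1 (by positivity)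
    _ = 1.5 / c := by
      field_simp
      norm_num
    _ ≤ 5 / c := div_le_div_of_nonneg_right (by norm_num) hc.le

/-- The heat operator. -/
lemma heat {w : ℝ} (hw : 0 < w) : ∃ C : ℝ, 0 < C ∧ ∀ α σ τ q m d : ℝ, 0 ≤ α → α ≤ 4 →
    σ ^ 2 ≤ 1 / 32 → 0 < 2 * σ ^ 2 - τ → 0 ≤ q → 0 ≤ m → m ≤ q → 2 * α ≤ d →
      Ft α w σ τ q + d * Fq α w σ τ q + 4 * m * Fqq α w σ τ q ≤ C := by
  obtain ⟨Cs, hCs, hb⟩ := sT_bd
  refine ⟨1024 * (32 * Cs) + 8 * w * (5 / (w / 8) ^ 3) * (2 / w * Cs)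
    + 4 * w * (6 / (w / 8) ^ 3) * ((2 / w) ^ 2 * Cs), by positivity, ?_⟩
  intro α σ τ q m d hα0 hα hσ hs hq hm hmq hd
  have hdF : d * Fq α w σ τ q ≤ 2 * α * Fq α w σ τ q :=
    mul_le_mul_of_nonpos_right hd (Fq_np hw hs)
  obtain ⟨s, hsd⟩ : ∃ s, s = 2 * σ ^ 2 - τ := ⟨_, rfl⟩
  obtain ⟨e, he⟩ : ∃ e, e = ex α s q := ⟨_, rfl⟩
  obtain ⟨B, hB⟩ : ∃ B, B = 1 / (4 * s) := ⟨_, rfl⟩
  obtain ⟨X, hX⟩ : ∃ X, X = sT (2 - 2 * q / w) := ⟨_, rfl⟩
  obtain ⟨X1, hX1⟩ : ∃ X1, X1 = sT1 (2 - 2 * q / w) := ⟨_, rfl⟩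
  obtain ⟨X2, hX2⟩ : ∃ X2, X2 = sT2 (2 - 2 * q / w) := ⟨_, rfl⟩
  obtain ⟨Y, hY⟩ : ∃ Y, Y = sT (32 * τ + 2) := ⟨_, rfl⟩
  obtain ⟨Y1, hY1⟩ : ∃ Y1, Y1 = sT1 (32 * τ + 2) := ⟨_, rfl⟩
  rw [← hsd] at hs
  have hB0 : 0 < B := by rw [hB]; positivity
  have he0 : 0 < e := he ▸ ex_pos _ _ _
  have hXn : 0 ≤ X := hX ▸ sT_nn _
  have hXl : X ≤ 1 := hX ▸ sT_le _
  have hX1n : 0 ≤ X1 := hX1 ▸ sT1_nn _
  have hX1l : X1 ≤ Cs := hX1 ▸ (hb _).1
  have hX2l : |X2| ≤ Cs := hX2 ▸ (hb _).2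
  have hYn : 0 ≤ Y := hY ▸ sT_nn _
  have hYl : Y ≤ 1 := hY ▸ sT_le _
  have hY1n : 0 ≤ Y1 := hY1 ▸ sT1_nn _
  have hY1l : Y1 ≤ Cs := hY1 ▸ (hb _).1
  have e1 : Ft α w σ τ q + 2 * α * Fq α w σ τ q + 4 * m * Fqq α w σ τ q
      = e * (4 * B ^ 2 * (m - q) * (X * Y)) + e * (X * (32 * Y1))
        - e * (2 * α * (2 / w * X1) * Y) + (8 * m) * (e * B) * (2 / w * X1) * Y
        + (4 * m) * e * ((2 / w) ^ 2 * X2) * Y := by
    unfold Ft Fq Fqq
    rw [← hsd, ← he, ← hB, ← hX, ← hX1, ← hX2, ← hY, ← hY1]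
    ring
  refine le_trans (add_le_add_left (add_le_add_right hdF _) _) ?_
  rw [e1]
  have t1 : e * (4 * B ^ 2 * (m - q) * (X * Y)) ≤ 0 := by
    apply mul_nonpos_of_nonneg_of_nonpos he0.le
    apply mul_nonpos_of_nonpos_of_nonneg _ (mul_nonneg hXn hYn)
    apply mul_nonpos_of_nonneg_of_nonpos (by positivity)
    linarith
  have t3 : 0 ≤ e * (2 * α * (2 / w * X1) * Y) := by positivity
  by_cases hτ : τ < -1 / 16
  · -- everything vanishes
    have hY0 : Y = 0 := hY ▸ sT_zero (by linarith)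
    have hY10 : Y1 = 0 := hY1 ▸ sT1_zero (Or.inl (by linarith))
    rw [hY0, hY10]
    simp only [mul_zero, add_zero, sub_zero]
    positivity
  rw [not_lt] at hτ
  have hs1 : s ≤ 1 := by rw [hsd]; linarith
  have t2 : e * (X * (32 * Y1)) ≤ 1024 * (32 * Cs) := by
    by_cases h : -1 / 32 < τ
    · have : Y1 = 0 := hY1 ▸ sT1_zero (Or.inr (by linarith))
      rw [this]
      simp only [mul_zero]
      positivity
    · rw [not_lt] at h
      have hs2 : 1 / 32 ≤ s := by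
        rw [hsd]
        nlinarith [sq_nonneg σ]
      have h1 : e ≤ 1024 := by
        rw [he]
        refine (ex_le hα hs hs1).trans ?_
        have h2 : Real.exp (-(q / (4 * s))) ≤ 1 := Real.exp_le_one_iff.2 (by
          have : 0 ≤ q / (4 * s) := by positivity
          linarith)
        have h3 : (s ^ 2)⁻¹ ≤ 1024 := by
          rw [inv_le_comm₀ (by positivity) (by norm_num)]
          nlinarith
        calc (s ^ 2)⁻¹ * Real.exp (-(q / (4 * s))) ≤ 1024 * 1 :=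
              mul_le_mul h3 h2 (Real.exp_pos _).le (by norm_num)
          _ = 1024 := by norm_num
      exact pure1 h1 hXn hXl hY1n hY1l
  have hP : (8 * m) * (e * B) * (2 / w * X1) * Y ≤ 8 * w * (5 / (w / 8) ^ 3) * (2 / w * Cs) ∧
      (4 * m) * e * ((2 / w) ^ 2 * X2) * Y ≤ 4 * w * (6 / (w / 8) ^ 3) * ((2 / w) ^ 2 * Cs) := by
    by_cases h : 2 - 2 * q / w < 0 ∨ 1 < 2 - 2 * q / w
    · have h1 : X1 = 0 := hX1 ▸ sT1_zero h
      have h2 : X2 = 0 := hX2 ▸ sT2_zero h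
      rw [h1, h2]
      simp only [mul_zero, zero_mul]
      constructor <;> positivity
    · push Not at h
      have hq1 : q ≤ w := by
        have := h.1
        rw [sub_nonneg, div_le_iff₀ hw] at this
        linarith
      have hq2 : w / 2 ≤ q := by
        have h3 : 1 ≤ 2 * q / w := by linarith [h.2]
        rw [le_div_iff₀ hw] at h3
        linarith
      have hm1 : m ≤ w := hmq.trans hq1
      have g1 : e ≤ 6 * s / (w / 8) ^ 3 := he ▸ ex_far hα hs hs1 hw hq2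
      have g2 : e ≤ 6 / (w / 8) ^ 3 := by
        refine g1.trans (div_le_div_of_nonneg_right ?_ (by positivity))
        linarith
      have g4 : e * B ≤ 5 / (w / 8) ^ 3 := hB ▸ eB_le g1 hs (by positivity)
      have h2w : 0 < 2 / w := by positivity
      constructor
      · exact pure2 (by linarith) (by linarith) (mul_nonneg he0.le hB0.le) g4
          (mul_nonneg h2w.le hX1n) (mul_le_mul_of_nonneg_left hX1l h2w.le) hYl
      · have h6 : (4 * m) * e * ((2 / w) ^ 2 * X2) * Y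
            ≤ (4 * m) * e * ((2 / w) ^ 2 * |X2|) * Y := by
          apply mul_le_mul_of_nonneg_right _ hYn
          apply mul_le_mul_of_nonneg_left _ (mul_nonneg (by linarith) he0.le)
          exact mul_le_mul_of_nonneg_left (le_abs_self _) (by positivity)
        exact h6.trans (pure2 (by linarith) (by linarith) he0.le g2
          (mul_nonneg (by positivity) (abs_nonneg _))
          (mul_le_mul_of_nonneg_left hX2l (by positivity)) hYl)
  linarith [hP.1, hP.2]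

/-- The bound of the derivative. -/
lemma Fq_bd {w : ℝ} (hw : 0 < w) {σ : ℝ} (hσ0 : 0 < σ) (hσ : σ ^ 2 ≤ 1 / 32) :
    ∃ C : ℝ, 0 < C ∧ ∀ α τ q : ℝ, α ≤ 4 → τ ≤ σ ^ 2 → 0 ≤ q → -C ≤ Fq α w σ τ q := by
  obtain ⟨Cs, hCs, hb⟩ := sT_bd
  have hσ2 : 0 < σ ^ 2 := by positivity
  refine ⟨((σ ^ 2) ^ 2)⁻¹ * (1 / (4 * σ ^ 2) + 2 / w * Cs), by positivity, ?_⟩
  intro α τ q hα hτ hq
  by_cases hτ2 : τ < -1 / 16
  · have h1 : sT (32 * τ + 2) = 0 := sT_zero (by linarith)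
    unfold Fq
    rw [h1]
    simp only [mul_zero]
    have : 0 < ((σ ^ 2) ^ 2)⁻¹ * (1 / (4 * σ ^ 2) + 2 / w * Cs) := by positivity
    linarith
  rw [not_lt] at hτ2
  have hs : 0 < 2 * σ ^ 2 - τ := by linarith
  have hs1 : 2 * σ ^ 2 - τ ≤ 1 := by linarith
  have hs2 : σ ^ 2 ≤ 2 * σ ^ 2 - τ := by linarith
  have h1 : ex α (2 * σ ^ 2 - τ) q ≤ ((σ ^ 2) ^ 2)⁻¹ := by
    refine (ex_le hα hs hs1).trans ?_
    have h2 : Real.exp (-(q / (4 * (2 * σ ^ 2 - τ)))) ≤ 1 := Real.exp_le_one_iff.2 (by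
      have : 0 ≤ q / (4 * (2 * σ ^ 2 - τ)) := by positivity
      linarith)
    have h3 : ((2 * σ ^ 2 - τ) ^ 2)⁻¹ ≤ ((σ ^ 2) ^ 2)⁻¹ := by
      apply inv_anti₀ (by positivity)
      gcongr
    calc ((2 * σ ^ 2 - τ) ^ 2)⁻¹ * Real.exp (-(q / (4 * (2 * σ ^ 2 - τ))))
        ≤ ((σ ^ 2) ^ 2)⁻¹ * 1 := by gcongr
      _ = _ := mul_one _
  have h4 : 1 / (4 * (2 * σ ^ 2 - τ)) ≤ 1 / (4 * σ ^ 2) :=
    div_le_div_of_nonneg_left (by norm_num) (by positivity) (by linarith)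
  have hX := sT_nn (2 - 2 * q / w)
  have hXl := sT_le (2 - 2 * q / w)
  have hX1 := sT1_nn (2 - 2 * q / w)
  have hX1l := (hb (2 - 2 * q / w)).1
  have hY := sT_nn (32 * τ + 2)
  have hYl := sT_le (32 * τ + 2)
  have he := (ex_pos α (2 * σ ^ 2 - τ) q).le
  have e1 : Fq α w σ τ q = -(ex α (2 * σ ^ 2 - τ) q * ((1 / (4 * (2 * σ ^ 2 - τ))
      * sT (2 - 2 * q / w) + 2 / w * sT1 (2 - 2 * q / w)) * sT (32 * τ + 2))) := by
    unfold Fq
    ring
  rw [e1]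
  have h5 : ex α (2 * σ ^ 2 - τ) q * ((1 / (4 * (2 * σ ^ 2 - τ))
      * sT (2 - 2 * q / w) + 2 / w * sT1 (2 - 2 * q / w)) * sT (32 * τ + 2))
      ≤ ((σ ^ 2) ^ 2)⁻¹ * ((1 / (4 * σ ^ 2) * 1 + 2 / w * Cs) * 1) := by
    gcongr
  linarith

/-- The lower bound. -/
lemma F0_low {α w σ τ q : ℝ} (hα : 0 ≤ α) (hw : 0 < w) (hσ0 : 0 < σ)
    (hσ : σ ^ 2 ≤ 1 / 32) (hσw : 24 * σ ^ 2 ≤ w) (h1 : -σ ^ 2 ≤ τ) (h2 : τ ≤ σ ^ 2)
    (hq1 : q ≤ 12 * σ ^ 2) :
    Real.exp (-3) * Real.exp (-(α * Real.log (3 * σ ^ 2)) / 2) ≤ F0 α w σ τ q := by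
  have hσ2 : 0 < σ ^ 2 := by positivity
  have hY : sT (32 * τ + 2) = 1 := sT_one (by linarith)
  have hX : sT (2 - 2 * q / w) = 1 := sT_one (by
    have : 2 * q / w ≤ 1 := by
      rw [div_le_one hw]
      linarith
    linarith)
  have hs : 0 < 2 * σ ^ 2 - τ := by linarith
  unfold F0 ex
  rw [hX, hY, mul_one, mul_one, ← Real.exp_add]
  apply Real.exp_le_exp.2
  have h3 : Real.log (2 * σ ^ 2 - τ) ≤ Real.log (3 * σ ^ 2) :=
    Real.log_le_log hs (by linarith)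
  have h4 : -(α * Real.log (3 * σ ^ 2)) / 2 ≤ -(α * Real.log (2 * σ ^ 2 - τ)) / 2 := by
    apply div_le_div_of_nonneg_right _ (by norm_num)
    nlinarith
  have h5 : q / (4 * (2 * σ ^ 2 - τ)) ≤ 3 := by
    rw [div_le_iff₀ (by positivity)]
    nlinarith
  linarith

lemma F0_supp {α w σ τ q : ℝ} (hw : 0 < w) (h : w ≤ q ∨ τ ≤ -1 / 16) : F0 α w σ τ q = 0 := by
  unfold F0
  rcases h with h | h
  · have : sT (2 - 2 * q / w) = 0 := sT_zero (by
      have : 2 ≤ 2 * q / w := by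
        rw [le_div_iff₀ hw]
        linarith
      linarith)
    rw [this, zero_mul, mul_zero]
  · have : sT (32 * τ + 2) = 0 := sT_zero (by linarith)
    rw [this, mul_zero, mul_zero]

lemma Fq_supp {α w σ τ q : ℝ} (hw : 0 < w) (h : w ≤ q) : Fq α w σ τ q = 0 := by
  have h1 : 2 - 2 * q / w ≤ 0 := by
    have : 2 ≤ 2 * q / w := by
      rw [le_div_iff₀ hw]
      linarith
    linarith
  have h2 : sT1 (2 - 2 * q / w) = 0 := by
    unfold sT1
    refine IsLocalMin.deriv_eq_zero (Filter.Eventually.of_forall fun z => ?_)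
    rw [sT_zero h1]
    exact sT_nn z
  unfold Fq
  rw [sT_zero h1, h2]
  ring

/-- Smoothness. -/
lemma F0_smooth (α w σ : ℝ) :
    ContDiffOn ℝ ∞ (fun z : ℝ × ℝ => F0 α w σ z.1 z.2) (Iio (2 * σ ^ 2) ×ˢ univ) := by
  unfold F0 ex
  have hs : ContDiffOn ℝ ∞ (fun z : ℝ × ℝ => 2 * σ ^ 2 - z.1) (Iio (2 * σ ^ 2) ×ˢ univ) :=
    (contDiff_const.sub contDiff_fst).contDiffOn
  have hs0 : ∀ z ∈ Iio (2 * σ ^ 2) ×ˢ (univ : Set ℝ), (2 * σ ^ 2 - z.1) ≠ 0 := by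
    intro z hz
    have h1 : z.1 < 2 * σ ^ 2 := hz.1
    exact (sub_pos.2 h1).ne'
  have hs4 : ∀ z ∈ Iio (2 * σ ^ 2) ×ˢ (univ : Set ℝ), 4 * (2 * σ ^ 2 - z.1) ≠ 0 :=
    fun z hz => mul_ne_zero (by norm_num) (hs0 z hz)
  refine ContDiffOn.mul ?_ ?_
  · refine Real.contDiff_exp.comp_contDiffOn (ContDiffOn.sub ?_ ?_)
    · exact (contDiffOn_const.mul (hs.log hs0)).neg.div_const _
    · exact contDiff_snd.contDiffOn.div (contDiffOn_const.mul hs) hs4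
  · refine ContDiff.contDiffOn (ContDiff.mul ?_ ?_)
    · exact sT_cd.comp (contDiff_const.sub ((contDiff_const.mul contDiff_snd).div_const _))
    · exact sT_cd.comp ((contDiff_const.mul contDiff_fst).add contDiff_const)

/-- The derivative along a curve. -/
lemma F0_curve {α w σ τ' q' t : ℝ} {f g : ℝ → ℝ} (hf : HasDerivAt f τ' t)
    (hg : HasDerivAt g q' t) (hs : f t < 2 * σ ^ 2) :
    HasDerivAt (fun s => F0 α w σ (f s) (g s))
      (Ft α w σ (f t) (g t) * τ' + Fq α w σ (f t) (g t) * q') t := by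
  have hop : IsOpen (Iio (2 * σ ^ 2) ×ˢ (univ : Set ℝ)) := isOpen_Iio.prod isOpen_univ
  have hd : DifferentiableAt ℝ (fun z : ℝ × ℝ => F0 α w σ z.1 z.2) (f t, g t) :=
    ((F0_smooth α w σ).contDiffAt (hop.mem_nhds (show ((f t, g t) : ℝ × ℝ) ∈
      Iio (2 * σ ^ 2) ×ˢ (univ : Set ℝ) from ⟨hs, mem_univ _⟩))).differentiableAt (by simp)
  obtain ⟨D, hD⟩ : ∃ D, D = fderiv ℝ (fun z : ℝ × ℝ => F0 α w σ z.1 z.2) (f t, g t) := ⟨_, rfl⟩
  have hfd : HasFDerivAt (fun z : ℝ × ℝ => F0 α w σ z.1 z.2) D (f t, g t) := by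
    rw [hD]
    exact hd.hasFDerivAt
  have d1 : D (1, 0) = Ft α w σ (f t) (g t) := by
    have h1 : HasDerivAt (fun s : ℝ => ((s, g t) : ℝ × ℝ)) (1, 0) (f t) :=
      (hasDerivAt_id _).prodMk (hasDerivAt_const _ _)
    have h2 := hfd.comp_hasDerivAt (f t) h1
    exact h2.unique (F0_hdt (by linarith))
  have d2 : D (0, 1) = Fq α w σ (f t) (g t) := by
    have h1 : HasDerivAt (fun s : ℝ => ((f t, s) : ℝ × ℝ)) (0, 1) (g t) :=
      (hasDerivAt_const _ _).prodMk (hasDerivAt_id _)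
    have h2 := hfd.comp_hasDerivAt (g t) h1
    exact h2.unique (F0_hdq α w σ (f t) (g t))
  have h3 : HasDerivAt (fun s : ℝ => ((f s, g s) : ℝ × ℝ)) (τ', q') t := hf.prodMk hg
  have h4 := hfd.comp_hasDerivAt t h3
  have e : D (τ', q') = Ft α w σ (f t) (g t) * τ' + Fq α w σ (f t) (g t) * q' := by
    have e1 : ((τ', q') : ℝ × ℝ) = τ' • ((1, 0) : ℝ × ℝ) + q' • ((0, 1) : ℝ × ℝ) := by
      ext <;> simp
    rw [e1, map_add, map_smul, map_smul, d1, d2, smul_eq_mul, smul_eq_mul]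
    ring
  rw [e] at h4
  exact h4

end Pool.Agent.N982.MC
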