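import Pool.Agent.N982.MC.Main
import Pool.Agent.Y96.NS.Scal

/-!
Scaling to viscosity one.
-/

set_option autoImplicit false

open MeasureTheory Set Metric Filter Topology
open scoped ContDiff Pointwise

namespace Pool.Agent.N982.MC

open H459R3.NS W221.NS Pool.Agent.Y8

lemma Wv_open {ν : ℝ} {G : Set ℝ} (hG : IsOpen G) (t₀ r : ℝ) : IsOpen (Wv ν G t₀ r) := by
  have h1 : Wv ν G t₀ r = G ∩ ({t | t < t₀} ∩ {t | ν * (t₀ - t) < r ^ 2}) := by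
    ext t
    rfl
  rw [h1]
  refine hG.inter ((isOpen_lt continuous_id continuous_const).inter
    (isOpen_lt (by fun_prop) continuous_const))

lemma Wv_scale {ν : ℝ} (hν : 0 < ν) (G : Set ℝ) (t₀ r : ℝ) :
    Wv 1 {t | t / ν ∈ G} (ν * t₀) r = {t | t / ν ∈ Wv ν G t₀ r} := by
  ext t
  have e : ν * (t₀ - t / ν) = ν * t₀ - t := by field_simp
  constructor
  · rintro ⟨h1, h2, h3⟩
    refine ⟨h1, ?_, ?_⟩
    · rw [div_lt_iff₀ hν]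
      linarith
    · rw [e]
      linarith
  · rintro ⟨h1, h2, h3⟩
    rw [div_lt_iff₀ hν] at h2
    rw [e] at h3
    exact ⟨h1, by linarith, by linarith⟩

lemma A2_sc (c : ℝ) (a : V) (r : ℝ) (v : V → V) :
    A2 a r (fun x => c • v x) = c ^ 2 * A2 a r v := by
  unfold A2
  rw [← integral_const_mul]
  congr 1
  funext x
  exact Pool.Agent.Y96.NS.nsq_sm c v x

lemma B2_sc (c : ℝ) (a : V) (r : ℝ) (v : V → V) :
    B2 a r (fun x => c • v x) = c ^ 2 * B2 a r v := by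
  unfold B2
  rw [← integral_const_mul]
  congr 1
  funext x
  exact Pool.Agent.Y96.NS.gsq_sm c v x

lemma pav_sc (c : ℝ) (a : V) (r : ℝ) (q : V → ℝ) :
    pav (fun x => c * q x) a r = c * pav q a r := by
  unfold pav
  rw [integral_const_mul]
  ring

lemma Pi2_sc (c : ℝ) (a : V) (r : ℝ) (q : V → ℝ) :
    Pi2 (fun x => c * q x) a r = c ^ 2 * Pi2 q a r := by
  unfold Pi2
  rw [pav_sc, ← integral_const_mul]
  congr 1
  funext x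
  ring

lemma fl_sc (c : ℝ) (ψ : V → ℝ) (v : V → V) (x : V) :
    fl ψ (fun x => c • v x) x = c * fl ψ v x := by
  unfold fl
  rw [Finset.mul_sum]
  refine Finset.sum_congr rfl fun i _ => ?_
  simp only [Pi.smul_apply, smul_eq_mul]
  ring

lemma head_sc {ν : ℝ} (hν : 0 < ν) (ψ : V → ℝ) (v : V → V) (q : V → ℝ) (m : ℝ) (x : V) :
    (nsq (fun x => ν⁻¹ • v x) x + 2 * ((ν ^ 2)⁻¹ * q x - (ν ^ 2)⁻¹ * m))
      * fl ψ (fun x => ν⁻¹ • v x) x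
      = (ν ^ 3)⁻¹ * ((nsq v x + 2 * (q x - m)) * fl ψ v x) := by
  rw [Pool.Agent.Y96.NS.nsq_sm, fl_sc]
  field_simp

lemma FI_sc {ν : ℝ} (hν : 0 < ν) (ψ : V → ℝ) (a : V) (r : ℝ) (v : V → V) (q : V → ℝ) :
    FI ψ a r (fun x => ν⁻¹ • v x) (fun x => (ν ^ 2)⁻¹ * q x) = (ν ^ 3)⁻¹ * FI ψ a r v q := by
  unfold FI
  rw [pav_sc, ← integral_const_mul]
  congr 1
  funext x
  unfold ngf
  rw [head_sc hν]
  have h1 : 0 ≤ (ν ^ 3)⁻¹ := by positivity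
  rw [mul_max_of_nonneg _ _ h1, mul_zero, mul_neg]

lemma FX_sc {ν : ℝ} (hν : 0 < ν) (ψ : V → ℝ) (a : V) (r : ℝ) (v : V → V) (q : V → ℝ) :
    FX ψ a r (fun x => ν⁻¹ • v x) (fun x => (ν ^ 2)⁻¹ * q x) = (ν ^ 2)⁻¹ * FX ψ a r v q := by
  unfold FX
  rw [pav_sc, ← integral_const_mul]
  congr 1
  funext x
  unfold inw
  rw [head_sc hν]
  have h1 : 0 < (ν ^ 3)⁻¹ := by positivity
  by_cases h : (nsq v x + 2 * (q x - pav q a r)) * fl ψ v x < 0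
  · rw [if_pos h, if_pos (mul_neg_of_pos_of_neg h1 h), fl_sc]
    field_simp
  · rw [if_neg h, if_neg]
    · simp
    · rw [not_lt] at h ⊢
      positivity

lemma En_sc {ν : ℝ} (hν : 0 < ν) {G : Set ℝ} (hG : IsOpen G) (t₀ : ℝ) (x₀ : V)
    (u : ℝ → V → V) (p : ℝ → V → ℝ) (r : ℝ) :
    En 1 {t | t / ν ∈ G} (ν * t₀) x₀ (fun t x => ν⁻¹ • u (t / ν) x)
      (fun t x => (ν ^ 2)⁻¹ * p (t / ν) x) r = (ν ^ 2)⁻¹ * En ν G t₀ x₀ u p r := by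
  have hWo := Wv_open (ν := ν) hG t₀ r
  unfold En
  rw [Wv_scale hν]
  have e1 : (fun t => A2 x₀ r (fun x => ν⁻¹ • u (t / ν) x)) '' {t | t / ν ∈ Wv ν G t₀ r}
      = (ν ^ 2)⁻¹ • ((fun t => A2 x₀ r (u t)) '' Wv ν G t₀ r) := by
    ext y
    rw [mem_smul_set]
    constructor
    · rintro ⟨t, ht, rfl⟩
      refine ⟨_, ⟨t / ν, ht, rfl⟩, ?_⟩
      simp only
      rw [A2_sc, smul_eq_mul, inv_pow]
    · rintro ⟨_, ⟨t, ht, rfl⟩, rfl⟩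
      refine ⟨ν * t, ?_, ?_⟩
      · show ν * t / ν ∈ Wv ν G t₀ r
        rwa [mul_div_cancel_left₀ _ hν.ne']
      · simp only
        rw [mul_div_cancel_left₀ _ hν.ne', A2_sc, smul_eq_mul, inv_pow]
  have e2 : ∫ t in {t | t / ν ∈ Wv ν G t₀ r}, B2 x₀ r (fun x => ν⁻¹ • u (t / ν) x)
      = (ν ^ 2)⁻¹ * (ν * ∫ t in Wv ν G t₀ r, B2 x₀ r (u t)) := by
    have h1 : ∀ t, B2 x₀ r (fun x => ν⁻¹ • u (t / ν) x) = (ν ^ 2)⁻¹ * B2 x₀ r (u (t / ν)) :=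
      fun t => by rw [B2_sc, inv_pow]
    simp_rw [h1]
    rw [integral_const_mul, Pool.Agent.Y96.NS.int_div hν hWo (fun t => B2 x₀ r (u t))]
  have e3 : ∫ t in {t | t / ν ∈ Wv ν G t₀ r},
      Pi2 (fun x => (ν ^ 2)⁻¹ * p (t / ν) x) x₀ r ^ (2 / 3 : ℝ)
      = ((ν ^ 2)⁻¹) ^ (4 / 3 : ℝ) * (ν * ∫ t in Wv ν G t₀ r, Pi2 (p t) x₀ r ^ (2 / 3 : ℝ)) := by
    have h1 : ∀ t, Pi2 (fun x => (ν ^ 2)⁻¹ * p (t / ν) x) x₀ r ^ (2 / 3 : ℝ)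
        = ((ν ^ 2)⁻¹) ^ (4 / 3 : ℝ) * Pi2 (p (t / ν)) x₀ r ^ (2 / 3 : ℝ) := fun t => by
      rw [Pi2_sc, Real.mul_rpow (by positivity) (Pi2_nn _ _ _), ← Real.rpow_natCast,
        ← Real.rpow_mul (by positivity)]
      norm_num
    simp_rw [h1]
    rw [integral_const_mul, Pool.Agent.Y96.NS.int_div hν hWo
      (fun t => Pi2 (p t) x₀ r ^ (2 / 3 : ℝ))]
  have hI : 0 ≤ ∫ t in Wv ν G t₀ r, Pi2 (p t) x₀ r ^ (2 / 3 : ℝ) :=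
    integral_nonneg fun t => Real.rpow_nonneg (Pi2_nn _ _ _) _
  have e4 : (1 * (((ν ^ 2)⁻¹) ^ (4 / 3 : ℝ)
      * (ν * ∫ t in Wv ν G t₀ r, Pi2 (p t) x₀ r ^ (2 / 3 : ℝ)))) ^ (3 / 4 : ℝ)
      = (ν ^ 2)⁻¹ * (ν * ∫ t in Wv ν G t₀ r, Pi2 (p t) x₀ r ^ (2 / 3 : ℝ)) ^ (3 / 4 : ℝ) := by
    rw [one_mul, Real.mul_rpow (by positivity) (by positivity), ← Real.rpow_mul (by positivity)]
    norm_num
  rw [e1, Real.sSup_smul_of_nonneg (by positivity), e2, e3, e4, smul_eq_mul]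
  ring

lemma FolN_sc {ν : ℝ} (hν : 0 < ν) {κ μ c r t₀ : ℝ} {x₀ : V} {ψ : ℝ → V → ℝ}
    (h : FolN ν κ μ c r t₀ x₀ ψ) :
    FolN 1 κ μ c r (ν * t₀) x₀ (fun t x => ψ (t / ν) x) := by
  have hw : ∀ t, t < ν * t₀ → 1 * (ν * t₀ - t) < r ^ 2 →
      t / ν < t₀ ∧ ν * (t₀ - t / ν) < r ^ 2 := by
    intro t h1 h2
    have e : ν * (t₀ - t / ν) = ν * t₀ - t := by field_simp
    rw [e]
    refine ⟨?_, by linarith⟩
    rw [div_lt_iff₀ hν]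
    linarith
  refine ⟨?_, ?_, ?_, ?_, ?_⟩
  · exact h.smooth.comp ((contDiff_fst.div_const ν).prodMk contDiff_snd)
  · intro t h1 h2
    exact h.center _ (hw t h1 h2).1 (hw t h1 h2).2
  · intro t h1 h2
    exact h.low _ (hw t h1 h2).1 (hw t h1 h2).2
  · intro t h1 h2
    exact h.grad _ (hw t h1 h2).1 (hw t h1 h2).2
  · intro t h1 h2 x hx
    have h3 := h.heat _ (hw t h1 h2).1 (hw t h1 h2).2 x hx
    have h4 : deriv (fun s => ψ (s / ν) x) t = ν⁻¹ * deriv (fun s => ψ s x) (t / ν) := by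
      have h5 : (fun s => ψ (s / ν) x) = fun s => (fun s => ψ s x) (ν⁻¹ * s) := by
        funext s
        rw [div_eq_inv_mul]
      have h6 := deriv_comp_mul_left ν⁻¹ (fun s => ψ s x) t
      rw [smul_eq_mul, ← div_eq_inv_mul t ν] at h6
      rw [h5]
      exact h6
    rw [h4, one_mul, mul_one]
    have h6 := mul_le_mul_of_nonneg_left h3 (inv_pos.2 hν).le
    have e1 : ν⁻¹ * (2 * (1 + κ) * ν) = 2 * (1 + κ) := by field_simp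
    have e2 : ν⁻¹ * (deriv (fun s => ψ s x) (t / ν) + ν * lap (ψ (t / ν)) x)
        = ν⁻¹ * deriv (fun s => ψ s x) (t / ν) + lap (ψ (t / ν)) x := by field_simp
    rw [e1, e2] at h6
    exact h6

lemma Good_sc {ν : ℝ} (hν : 0 < ν) {κ μ c ε : ℝ} {G : Set ℝ} (hG : IsOpen G) {t₀ : ℝ} {x₀ : V}
    {u : ℝ → V → V} {p : ℝ → V → ℝ} {r : ℝ} (h : GoodSc ν κ μ c ε G t₀ x₀ u p r) :
    GoodSc 1 κ μ c ε {t | t / ν ∈ G} (ν * t₀) x₀ (fun t x => ν⁻¹ • u (t / ν) x)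
      (fun t x => (ν ^ 2)⁻¹ * p (t / ν) x) r := by
  obtain ⟨ψ, hF, hor⟩ := h
  have hWo := Wv_open (ν := ν) hG t₀ r
  refine ⟨_, FolN_sc hν hF, ?_⟩
  rw [Wv_scale hν]
  rcases hor with h1 | h1
  · left
    rw [En_sc hν hG]
    have e1 : ∀ t, FI (ψ (t / ν)) x₀ r (fun x => ν⁻¹ • u (t / ν) x)
        (fun x => (ν ^ 2)⁻¹ * p (t / ν) x)
        = (ν ^ 3)⁻¹ * FI (ψ (t / ν)) x₀ r (u (t / ν)) (p (t / ν)) := fun t => FI_sc hν _ _ _ _ _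
    simp_rw [e1]
    rw [integral_const_mul, Pool.Agent.Y96.NS.int_div hν hWo
      (fun t => FI (ψ t) x₀ r (u t) (p t))]
    have e2 : (ν ^ 3)⁻¹ * (ν * ∫ t in Wv ν G t₀ r, FI (ψ t) x₀ r (u t) (p t))
        = (ν ^ 2)⁻¹ * ∫ t in Wv ν G t₀ r, FI (ψ t) x₀ r (u t) (p t) := by
      field_simp
    rw [e2]
    have h2 := mul_le_mul_of_nonneg_left h1 (show 0 ≤ (ν ^ 2)⁻¹ by positivity)
    refine h2.trans (le_of_eq ?_)
    field_simp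
  · right
    have e1 : ∀ t, FX (ψ (t / ν)) x₀ r (fun x => ν⁻¹ • u (t / ν) x)
        (fun x => (ν ^ 2)⁻¹ * p (t / ν) x) ^ 2
        = (ν ^ 4)⁻¹ * FX (ψ (t / ν)) x₀ r (u (t / ν)) (p (t / ν)) ^ 2 := fun t => by
      rw [FX_sc hν]
      field_simp
    simp_rw [e1]
    rw [integral_const_mul, Pool.Agent.Y96.NS.int_div hν hWo
      (fun t => FX (ψ t) x₀ r (u t) (p t) ^ 2)]
    have e2 : (ν ^ 4)⁻¹ * (ν * ∫ t in Wv ν G t₀ r, FX (ψ t) x₀ r (u t) (p t) ^ 2)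
        = (ν ^ 3)⁻¹ * ∫ t in Wv ν G t₀ r, FX (ψ t) x₀ r (u t) (p t) ^ 2 := by
      field_simp
    rw [e2, one_pow, mul_one]
    have h2 := mul_le_mul_of_nonneg_left h1 (show 0 ≤ (ν ^ 3)⁻¹ by positivity)
    refine h2.trans (le_of_eq ?_)
    field_simp

open Classical in
/-- The theorem for every viscosity. -/
theorem main_nu {κ μ q : ℝ} (hκ : 0 < κ) (hκ1 : κ ≤ 3 / 2) (hμ : 0 < μ)
    (hq : 1 < q * (1 + κ)) (hS : S_SOB) (hR : S_RIESZ) (hH : S_HARM) :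
    ∃ c ε : ℝ, 0 < c ∧ c < 1 ∧ 0 < ε ∧ ∀ ν E D r₀ : ℝ, 0 < ν → 0 < r₀ → r₀ ≤ 1 →
      ∃ N : ℕ,
      ∀ (T : ℝ) (G : Set ℝ) (u : ℝ → V → V) (p : ℝ → V → ℝ), Turb ν T E D G u p →
        ∀ (t₀ : ℝ) (x₀ : V), t₀ ≤ T → r₀ ^ 2 ≤ ν * t₀ → ∀ n : ℕ, N ≤ n →
          q * n ≤ Nat.count (fun k => GoodSc ν κ μ c ε G t₀ x₀ u p (c ^ k * r₀)) n →
            ¬ SingPt G u t₀ x₀ := by
  obtain ⟨c, ε, hc, hc1, hε, hm⟩ := main_one hκ hκ1 hμ hq hS hR hH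
  refine ⟨c, ε, hc, hc1, hε, ?_⟩
  intro ν E D r₀ hν hr₀ hr₀1
  obtain ⟨N, hN⟩ := hm (E / ν) (D / ν) r₀ hr₀ hr₀1
  refine ⟨N, ?_⟩
  intro T G u p h t₀ x₀ ht hr n hn hcount hsing
  obtain ⟨h1, h2⟩ := Pool.Agent.Y96.NS.t_WSCAL ν T E D G u p hν h
  refine hN (ν * T) _ _ _ h1 (ν * t₀) x₀ (mul_le_mul_of_nonneg_left ht hν.le) hr n hn ?_
    (h2 t₀ x₀ hsing)
  refine hcount.trans (Nat.cast_le.2 (Nat.count_mono_left ?_))
  intro k _ hk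
  exact Good_sc hν h.openG hk

end Pool.Agent.N982.MC
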