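import Pool.Agent.N982.MC.Sl
import Pool.Agent.Y8.Stm2

/-!
One step of the iteration.
-/

set_option autoImplicit false

open MeasureTheory Set Metric Filter Topology
open scoped ContDiff

namespace Pool.Agent.N982.MC

open H459R3.NS W221.NS Pool.Agent.Y8

/-- The times in `G` shortly before `t₀`. -/
def Wn (G : Set ℝ) (t₀ r : ℝ) : Set ℝ := G ∩ Ioo (t₀ - r ^ 2) t₀

/-- A local suitable weak solution (viscosity one) around the ball of radius `R`. -/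
structure LS (G : Set ℝ) (t₀ : ℝ) (x₀ : V) (R : ℝ) (u : ℝ → V → V) (p : ℝ → V → ℝ) : Prop where
  openG : IsOpen G
  full : ∀ s ∈ G, ∀ t ∈ G, volume (Ioo s t \ G) = 0
  left : volume (Ioo (t₀ - R ^ 2) t₀ \ G) = 0
  smooth_u : ContDiffOn ℝ ∞ (fun z : ℝ × V => u z.1 z.2) (G ×ˢ univ)
  smooth_p : ContDiffOn ℝ ∞ (fun z : ℝ × V => p z.1 z.2) (G ×ˢ univ)
  div : ∀ t ∈ G, ∀ x ∈ ball x₀ R, dv (u t) x = 0
  peq : ∀ t ∈ G, ∀ x ∈ ball x₀ R, -lap (p t) x = ddq (u t) x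
  en : ∀ (α β : ℝ) (Φ : ℝ → V → ℝ),
    ContDiffOn ℝ ∞ (fun z : ℝ × V => Φ z.1 z.2) (Ioo α β ×ˢ univ) →
    (∀ t ∈ Ioo α β, ∀ z ∉ ball x₀ R, Φ t z = 0) →
    ∀ s ∈ G, ∀ t ∈ G, α < s → s ≤ t → t < β → (∀ τ ∈ Icc s t, ∀ z, 0 ≤ Φ τ z) →
      IntegrableOn (DD 1 u p Φ) (Ioo s t) ∧
      (∫ z, nsq (u t) z * Φ t z) - (∫ z, nsq (u s) z * Φ s z) ≤ ∫ τ in Ioo s t, DD 1 u p Φ τ

/-- The bound of the energy at the scale `ρ`. -/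
def PA (G : Set ℝ) (t₀ : ℝ) (x₀ : V) (u : ℝ → V → V) (ρ a : ℝ) : Prop :=
  (∀ t ∈ Wn G t₀ ρ, A2 x₀ ρ (u t) ≤ ρ * a) ∧
    IntegrableOn (fun t => B2 x₀ ρ (u t)) (Wn G t₀ ρ) ∧
    ∫ t in Wn G t₀ ρ, B2 x₀ ρ (u t) ≤ ρ * a

/-- The bound of the pressure at the scale `ρ`. -/
def PD (G : Set ℝ) (t₀ : ℝ) (x₀ : V) (p : ℝ → V → ℝ) (ρ d : ℝ) : Prop :=
  ∃ K : ℝ → ℝ, IntegrableOn K (Wn G t₀ ρ) ∧
    (∀ t ∈ Wn G t₀ ρ, 0 ≤ K t ∧ Pi2 (p t) x₀ ρ ^ 2 ≤ (ρ * d) ^ 4 * K t ^ 3) ∧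
    ∫ t in Wn G t₀ ρ, K t ≤ 1

/-- The inward flux at the scale `ρ` is at most `θ ρ³ N`. -/
def HF (G : Set ℝ) (t₀ : ℝ) (x₀ : V) (u : ℝ → V → V) (p : ℝ → V → ℝ) (κ μ c θ ρ N : ℝ) : Prop :=
  ∃ (ψ : ℝ → V → ℝ) (f : ℝ → ℝ), Fol κ μ c ρ t₀ x₀ ψ ∧
    IntegrableOn f (Wn G t₀ ρ) ∧ (∀ t ∈ Wn G t₀ ρ, FI (ψ t) x₀ ρ (u t) (p t) ≤ f t) ∧
    ∫ t in Wn G t₀ ρ, f t ≤ θ * ρ ^ 3 * N

section

variable {G : Set ℝ} {t₀ : ℝ} {x₀ : V} {R : ℝ} {u : ℝ → V → V} {p : ℝ → V → ℝ} {ρ a d : ℝ}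

lemma Wn_open (h : IsOpen G) (r : ℝ) : IsOpen (Wn G t₀ r) := h.inter isOpen_Ioo

lemma Wn_mono {r s : ℝ} (hr : 0 ≤ r) (h : r ≤ s) : Wn G t₀ r ⊆ Wn G t₀ s := by
  have : r ^ 2 ≤ s ^ 2 := pow_le_pow_left₀ hr h 2
  rintro t ⟨h1, h2, h3⟩
  exact ⟨h1, by linarith, h3⟩

lemma Wn_vol (r : ℝ) : volume (Wn G t₀ r) ≤ ENNReal.ofReal (2 * r ^ 2) := by
  refine (measure_mono inter_subset_right).trans ?_
  rw [Real.volume_Ioo]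
  apply ENNReal.ofReal_le_ofReal
  linarith [sq_nonneg r]

lemma Wn_const {r c : ℝ} (hc : 0 ≤ c) : IntegrableOn (fun _ : ℝ => c) (Wn G t₀ r) ∧
    ∫ _t in Wn G t₀ r, c ≤ 2 * r ^ 2 * c := by
  have h1 : volume (Wn G t₀ r) ≠ ⊤ := ne_top_of_le_ne_top ENNReal.ofReal_ne_top (Wn_vol r)
  refine ⟨integrableOn_const h1, ?_⟩
  rw [setIntegral_const, smul_eq_mul]
  refine mul_le_mul_of_nonneg_right ?_ hc
  rw [measureReal_def]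
  exact ENNReal.toReal_le_of_le_ofReal (by positivity) (Wn_vol r)

/-- The function `K_L` -/
noncomputable def KL (x₀ : V) (u : ℝ → V → V) (ρ a t : ℝ) : ℝ :=
  (B2 x₀ ρ (u t) + ρ⁻¹ * a) / (3 * (ρ * a))

lemma KL_nn (hρ : 0 < ρ) (ha : 0 < a) (t : ℝ) : 0 ≤ KL x₀ u ρ a t := by
  unfold KL
  have := B2_nn x₀ ρ (u t)
  positivity

lemma KL_int (hρ : 0 < ρ) (ha : 0 < a) (h : PA G t₀ x₀ u ρ a) :
    IntegrableOn (KL x₀ u ρ a) (Wn G t₀ ρ) ∧ ∫ t in Wn G t₀ ρ, KL x₀ u ρ a t ≤ 1 := by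
  obtain ⟨-, h2, h3⟩ := h
  obtain ⟨i1, i2⟩ := Wn_const (G := G) (t₀ := t₀) (r := ρ) (c := ρ⁻¹ * a) (by positivity)
  have i3 : IntegrableOn (fun t => B2 x₀ ρ (u t) + ρ⁻¹ * a) (Wn G t₀ ρ) := h2.add i1
  refine ⟨i3.div_const _, ?_⟩
  unfold KL
  rw [integral_div, div_le_one (by positivity), integral_add h2 i1]
  have e : 2 * ρ ^ 2 * (ρ⁻¹ * a) = 2 * (ρ * a) := by field_simp
  rw [e] at i2
  linarith

/-- The bound of `L⁴`. -/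
lemma L4_PA {C : ℝ} (hC : 0 < C) (hS : ∀ v : V → V, ContDiff ℝ ∞ v → ∀ (a : V) (ρ : ℝ), 0 < ρ →
    L4 a (ρ / 2) v ^ 2 ≤ C * A2 a ρ v * (B2 a ρ v + (ρ ^ 2)⁻¹ * A2 a ρ v) ^ 3)
    (hsm : ContDiffOn ℝ ∞ (fun z : ℝ × V => u z.1 z.2) (G ×ˢ univ))
    (hρ : 0 < ρ) (ha : 0 < a) (h : PA G t₀ x₀ u ρ a) {t : ℝ} (ht : t ∈ Wn G t₀ ρ) :
    L4 x₀ (ρ / 2) (u t) ^ 2 ≤ 27 * C * (ρ * a) ^ 4 * KL x₀ u ρ a t ^ 3 := by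
  have h1 := hS (u t) (sl_sm hsm ht.1) x₀ ρ hρ
  have hA := A2_nn x₀ ρ (u t)
  have hB := B2_nn x₀ ρ (u t)
  have h2 := h.1 t ht
  refine h1.trans ?_
  have h3 : B2 x₀ ρ (u t) + (ρ ^ 2)⁻¹ * A2 x₀ ρ (u t) ≤ 3 * (ρ * a) * KL x₀ u ρ a t := by
    unfold KL
    have e : 3 * (ρ * a) * ((B2 x₀ ρ (u t) + ρ⁻¹ * a) / (3 * (ρ * a)))
        = B2 x₀ ρ (u t) + ρ⁻¹ * a := by field_simp
    rw [e]
    have h4 : (ρ ^ 2)⁻¹ * A2 x₀ ρ (u t) ≤ (ρ ^ 2)⁻¹ * (ρ * a) :=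
      mul_le_mul_of_nonneg_left h2 (by positivity)
    have e2 : (ρ ^ 2)⁻¹ * (ρ * a) = ρ⁻¹ * a := by field_simp
    linarith
  have h5 : 0 ≤ B2 x₀ ρ (u t) + (ρ ^ 2)⁻¹ * A2 x₀ ρ (u t) := by positivity
  have h6 := pow_le_pow_left₀ h5 h3 3
  have h7 : C * A2 x₀ ρ (u t) ≤ C * (ρ * a) := mul_le_mul_of_nonneg_left h2 hC.le
  calc C * A2 x₀ ρ (u t) * (B2 x₀ ρ (u t) + (ρ ^ 2)⁻¹ * A2 x₀ ρ (u t)) ^ 3
      ≤ C * (ρ * a) * (3 * (ρ * a) * KL x₀ u ρ a t) ^ 3 :=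
        mul_le_mul h7 h6 (by positivity) (by positivity)
    _ = _ := by ring

/-- The step for the pressure. -/
lemma stepD (hS : S_SOB) (hR : S_RIESZ) (hH : S_HARM) : ∃ C : ℝ, 1 ≤ C ∧
    ∀ (G : Set ℝ) (t₀ : ℝ) (x₀ : V) (R : ℝ) (u : ℝ → V → V) (p : ℝ → V → ℝ),
      LS G t₀ x₀ R u p → ∀ ρ a d : ℝ, 0 < ρ → ρ ≤ R → 0 < a → 0 < d →
        PA G t₀ x₀ u ρ a → PD G t₀ x₀ p ρ d → ∀ σ : ℝ, 0 < σ → σ ≤ 1 / 8 →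
          PD G t₀ x₀ p (σ * ρ) (C * (σ * √σ * d + σ⁻¹ * a)) := by
  obtain ⟨C₄, hC₄, hL4⟩ := L4_bd hS
  obtain ⟨C, hC, hP⟩ := press_bd hR hH
  refine ⟨16 * C ^ 2 * (1 + 27 * C₄) + 1, by
    have : 0 ≤ 16 * C ^ 2 * (1 + 27 * C₄) := by positivity
    linarith, ?_⟩
  intro G t₀ x₀ R u p hLS ρ a d hρ hρR ha hd hPA hPD σ hσ hσ1
  obtain ⟨K, hK1, hK2, hK3⟩ := hPD
  obtain ⟨hKL1, hKL2⟩ := KL_int hρ ha hPA
  have hsub : Wn G t₀ (σ * ρ) ⊆ Wn G t₀ ρ := Wn_mono (by positivity) (by nlinarith)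
  obtain ⟨K', hK'⟩ : ∃ K' : ℝ → ℝ, K' = fun t => (K t + KL x₀ u ρ a t) / 2 := ⟨_, rfl⟩
  have hK'i : IntegrableOn K' (Wn G t₀ ρ) := by
    rw [hK']
    exact (hK1.add hKL1).div_const 2
  have hK'n : ∀ t ∈ Wn G t₀ ρ, 0 ≤ K' t := by
    intro t ht
    rw [hK']
    have h1 := (hK2 t ht).1
    have h2 := KL_nn (x₀ := x₀) (u := u) hρ ha t
    show 0 ≤ (K t + KL x₀ u ρ a t) / 2
    positivity
  refine ⟨K', hK'i.mono_set hsub, fun t ht => ⟨hK'n t (hsub ht), ?_⟩, ?_⟩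
  · have ht' := hsub ht
    have hus := sl_sm hLS.smooth_u ht.1
    have hps := sl_sm hLS.smooth_p ht.1
    have h1 := hP (u t) (p t) hus hps x₀ ρ hρ
      (fun x hx => hLS.peq t ht.1 x (ball_subset_ball hρR hx)) σ hσ hσ1
    have h2 := (hK2 t ht').2
    have h3 := L4_PA hC₄ hL4 hLS.smooth_u hρ ha hPA ht'
    have hk1 := (hK2 t ht').1
    have hk2 := KL_nn (x₀ := x₀) (u := u) hρ ha t
    obtain ⟨k, hk⟩ : ∃ k, k = K t := ⟨_, rfl⟩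
    obtain ⟨l, hl⟩ : ∃ l, l = KL x₀ u ρ a t := ⟨_, rfl⟩
    obtain ⟨P, hPd⟩ : ∃ P, P = Pi2 (p t) x₀ ρ := ⟨_, rfl⟩
    obtain ⟨L, hLd⟩ : ∃ L, L = L4 x₀ (ρ / 2) (u t) := ⟨_, rfl⟩
    have hP0 : 0 ≤ P := hPd ▸ Pi2_nn _ _ _
    have hL0 : 0 ≤ L := hLd ▸ L4_nn _ _ _
    have e' : K' t = (k + l) / 2 := by rw [hK', hk, hl]
    rw [← hk] at h2 hk1
    rw [← hl] at h3 hk2
    rw [← hPd] at h1 h2
    rw [← hLd] at h1 h3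
    rw [e']
    have h4 : Pi2 (p t) x₀ (σ * ρ) ^ 2 ≤ (C * (σ ^ 5 * P + L)) ^ 2 :=
      pow_le_pow_left₀ (Pi2_nn _ _ _) h1 2
    have h5 : (C * (σ ^ 5 * P + L)) ^ 2 ≤ 2 * C ^ 2 * (σ ^ 10 * P ^ 2 + L ^ 2) := by
      nlinarith [mul_nonneg (sq_nonneg C) (sq_nonneg (σ ^ 5 * P - L))]
    have hkl3 : k ^ 3 ≤ 8 * ((k + l) / 2) ^ 3 := by
      have := pow_le_pow_left₀ hk1 (show k ≤ k + l by linarith) 3
      nlinarith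
    have hll3 : l ^ 3 ≤ 8 * ((k + l) / 2) ^ 3 := by
      have := pow_le_pow_left₀ hk2 (show l ≤ k + l by linarith) 3
      nlinarith
    obtain ⟨m, hm⟩ : ∃ m, m = ((k + l) / 2) ^ 3 := ⟨_, rfl⟩
    rw [← hm] at hkl3 hll3 ⊢
    have hm0 : 0 ≤ m := by rw [hm]; positivity
    have h6 : σ ^ 10 * P ^ 2 ≤ σ ^ 10 * ((ρ * d) ^ 4 * (8 * m)) := by
      apply mul_le_mul_of_nonneg_left _ (by positivity)
      exact h2.trans (mul_le_mul_of_nonneg_left hkl3 (by positivity))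
    have h7 : L ^ 2 ≤ 27 * C₄ * (ρ * a) ^ 4 * (8 * m) :=
      h3.trans (mul_le_mul_of_nonneg_left hll3 (by positivity))
    have hsq : √σ ^ 2 = σ := Real.sq_sqrt hσ.le
    have h9 : (σ * ρ * ((16 * C ^ 2 * (1 + 27 * C₄) + 1) * (σ * √σ * d + σ⁻¹ * a))) ^ 4
        = (16 * C ^ 2 * (1 + 27 * C₄) + 1) ^ 4 * ρ ^ 4 * (σ ^ 2 * √σ * d + a) ^ 4 := by
      have : σ * ρ * ((16 * C ^ 2 * (1 + 27 * C₄) + 1) * (σ * √σ * d + σ⁻¹ * a))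
          = (16 * C ^ 2 * (1 + 27 * C₄) + 1) * ρ * (σ ^ 2 * √σ * d + a) := by
        field_simp
      rw [this]
      ring
    rw [h9]
    have h10 : (σ ^ 2 * √σ * d) ^ 4 + a ^ 4 ≤ (σ ^ 2 * √σ * d + a) ^ 4 := by
      have hx : 0 ≤ σ ^ 2 * √σ * d := by positivity
      have := pow_add_pow_le hx ha.le (by norm_num : 4 ≠ 0)
      exact this
    have h10' : σ ^ 10 * d ^ 4 = (σ ^ 2 * √σ * d) ^ 4 := by
      calc σ ^ 10 * d ^ 4 = σ ^ 8 * (σ) ^ 2 * d ^ 4 := by ring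
        _ = σ ^ 8 * (√σ ^ 2) ^ 2 * d ^ 4 := by rw [hsq]
        _ = (σ ^ 2 * √σ * d) ^ 4 := by ring
    have h11 : 16 * C ^ 2 * (1 + 27 * C₄) ≤ (16 * C ^ 2 * (1 + 27 * C₄) + 1) ^ 4 := by
      have hx : 0 ≤ 16 * C ^ 2 * (1 + 27 * C₄) := by positivity
      have h12 := le_self_pow₀ (show 1 ≤ 16 * C ^ 2 * (1 + 27 * C₄) + 1 by linarith)
        (show 4 ≠ 0 by norm_num)
      linarith
    calc Pi2 (p t) x₀ (σ * ρ) ^ 2 ≤ 2 * C ^ 2 * (σ ^ 10 * P ^ 2 + L ^ 2) := h4.trans h5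
      _ ≤ 2 * C ^ 2 * (σ ^ 10 * ((ρ * d) ^ 4 * (8 * m)) + 27 * C₄ * (ρ * a) ^ 4 * (8 * m)) := by
          apply mul_le_mul_of_nonneg_left _ (by positivity)
          exact add_le_add h6 h7
      _ = 16 * C ^ 2 * ρ ^ 4 * (σ ^ 10 * d ^ 4 + 27 * C₄ * a ^ 4) * m := by ring
      _ ≤ 16 * C ^ 2 * ρ ^ 4 * ((1 + 27 * C₄) * (σ ^ 10 * d ^ 4 + a ^ 4)) * m := by
          apply mul_le_mul_of_nonneg_right _ hm0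
          apply mul_le_mul_of_nonneg_left _ (by positivity)
          have t1 : 0 ≤ σ ^ 10 * d ^ 4 := by positivity
          have t2 : 0 ≤ a ^ 4 := by positivity
          nlinarith
      _ = (16 * C ^ 2 * (1 + 27 * C₄)) * ρ ^ 4 * ((σ ^ 2 * √σ * d) ^ 4 + a ^ 4) * m := by
          rw [h10']
          ring
      _ ≤ (16 * C ^ 2 * (1 + 27 * C₄) + 1) ^ 4 * ρ ^ 4 * (σ ^ 2 * √σ * d + a) ^ 4 * m := by
          apply mul_le_mul_of_nonneg_right _ hm0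
          exact mul_le_mul (mul_le_mul_of_nonneg_right h11 (by positivity)) h10 (by positivity)
            (by positivity)
  · have h1 : ∫ t in Wn G t₀ (σ * ρ), K' t ≤ ∫ t in Wn G t₀ ρ, K' t := by
      refine setIntegral_mono_set hK'i ?_ hsub.eventuallyLE
      rw [EventuallyLE, ae_restrict_iff' (Wn_open hLS.openG ρ).measurableSet]
      exact ae_of_all _ hK'n
    refine h1.trans ?_
    rw [hK']
    show ∫ t in Wn G t₀ ρ, (K t + KL x₀ u ρ a t) / 2 ≤ 1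
    rw [integral_div, integral_add hK1 hKL1]
    linarith

end

end Pool.Agent.N982.MC
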